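import Pool.Agent.P.MP_e311cd_gt.St

/-! Choice of the parameters; the deck groups are finite and act freely. -/

namespace Pool.Agent.P.MP_e311cd_gt

open Set NormedSpace Filter Topology Asymptotics
open scoped ENNReal RealInnerProductSpace

noncomputable section

namespace ArP

theorem cop_of_eq {a b k : ℤ} (h : a = 1 + b * k) : IsCoprime a b :=
  ⟨1, -k, by rw [h]; ring⟩

theorem pp_dvd (c : ℤ) : pp c ∣ 6 := by
  unfold pp; split_ifs <;> norm_num

theorem pp_pos (c : ℤ) : 0 < pp c := by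
  unfold pp; split_ifs <;> norm_num

variable {G : Type} [Group G]

theorem nsmul' {E : ℤ × ℤ → G} (hE : ∀ u v, E (u + v) = E u * E v) (u : ℤ × ℤ) (m : ℕ) :
    E (m • u) = E u ^ m := by
  induction m with
  | zero => simp [add_zero' hE]
  | succ m ih => rw [succ_nsmul, hE, ih, pow_succ]

theorem range_fin {c N : ℤ} {E : ℤ × ℤ → G} {n₁ n₂ : G} (h : TD c N E n₁ n₂) (hN : 0 < N) :
    (range E).Finite := by
  refine (((finite_Ico (0 : ℤ) N).prod (finite_Ico (0 : ℤ) N)).image E).subset ?_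
  rintro _ ⟨u, rfl⟩
  refine ⟨(u.1 % N, u.2 % N), ⟨⟨Int.emod_nonneg _ hN.ne', Int.emod_lt_of_pos _ hN⟩,
    ⟨Int.emod_nonneg _ hN.ne', Int.emod_lt_of_pos _ hN⟩⟩, ?_⟩
  have e : u = (u.1 % N, u.2 % N) + (N * (u.1 / N), N * (u.2 / N)) :=
    Prod.ext (Int.emod_add_mul_ediv _ _).symm (Int.emod_add_mul_ediv _ _).symm
  have e1 : E (N * (u.1 / N), N * (u.2 / N)) = 1 :=
    (h.ker _).2 ⟨dvd_mul_right _ _, dvd_mul_right _ _⟩
  conv_rhs => rw [e, h.add, e1, mul_one]

theorem dvd3 {p q r a : ℤ} (hpq : IsCoprime p q) (hpr : IsCoprime p r) (hqr : IsCoprime q r)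
    (h1 : p ^ 2 ∣ a) (h2 : q ∣ a) (h3 : r ∣ a) : p ^ 2 * q * r ∣ a :=
  (IsCoprime.mul_left hpr.pow_left hqr).mul_dvd (hpq.pow_left.mul_dvd h1 h2) h3

end ArP

open ArP

theorem ar0 : S_Ar0 := by
  intro c B hc
  have hB : B ≤ |B| := le_abs_self B
  have hB0 : 0 ≤ |B| := abs_nonneg B
  set t := |B|
  have h1 : qq c (6 * t + 1) = 1 + 6 * (6 * t ^ 2 + 2 * t - c * t) := by unfold qq; ring
  set q := qq c (6 * t + 1) with hq
  have h2 : qq c (6 * q * t + 1) = 1 + 6 * (q * (6 * q * t ^ 2 + 2 * t - c * t)) := by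
    unfold qq; ring
  have h3 : qq c (6 * q * t + 1) = 1 + q * (6 * (6 * q * t ^ 2 + 2 * t - c * t)) := by
    rw [h2]; ring
  have hG : Good c (6 * t + 1) (6 * q * t + 1) :=
    ⟨hc, cop_of_eq h1, cop_of_eq h2, (cop_of_eq h3).symm⟩
  have hq0 : 0 < q := hG.qq_pos _
  refine ⟨_, _, hG, by omega, by nlinarith, ?_⟩
  have h4 : 4 - c ∣ 6 := by rcases hc with rfl | rfl | rfl <;> norm_num
  have h5 : IsCoprime (pp c) (4 - c) := by
    rcases hc with rfl | rfl | rfl <;> simp only [pp] <;> norm_num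
  exact (h5.pow_left.mul_left (hG.cx.of_isCoprime_of_dvd_right h4)).mul_left
    (hG.cz.of_isCoprime_of_dvd_right h4)

theorem free : S_Free := by
  intro G _ c x z E n₁ n₂ h hG
  refine ⟨?_, ?_⟩
  · have hf := range_fin h hG.NN_pos
    refine Set.Finite.to_subtype (s := (Gam h.add (Om c x z) : Set (Equiv.Perm G))) ?_
    refine ((hf.prod hf).image fun w : G × G =>
      (Equiv.mulLeft w.1).trans (Equiv.mulRight w.2⁻¹)).subset ?_
    rintro g ⟨w, -, hw⟩
    exact ⟨(E w.1, E w.2), ⟨mem_range_self _, mem_range_self _⟩, Equiv.ext fun y => (hw y).symm⟩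
  · rintro g ⟨⟨u, v⟩, hw, hg⟩ y hy
    obtain ⟨a1, a2, -, a4, a5, a6, a7, -⟩ := mem_Om.1 hw
    simp only at a1 a2 a4 a5 a6 a7 hg
    have e : E u = y * E v * y⁻¹ := by
      have := hg y
      rw [hy] at this
      calc E u = (E u * y * (E v)⁻¹) * E v * y⁻¹ := by group
        _ = y * E v * y⁻¹ := by rw [← this]
    have key : ∀ m : ℤ, 0 ≤ m → ((NN c x z ∣ m * u.1 ∧ NN c x z ∣ m * u.2) ↔
        (NN c x z ∣ m * v.1 ∧ NN c x z ∣ m * v.2)) := fun m hm => by
      obtain ⟨m, rfl⟩ := Int.eq_ofNat_of_zero_le hm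
      have h1 := h.ker (m • u)
      have h2 := h.ker (m • v)
      rw [nsmul' h.add, Prod.smul_fst, Prod.smul_snd, nsmul_eq_mul, nsmul_eq_mul] at h1 h2
      rw [← h1, ← h2, e, conj_pow, mul_inv_eq_one, mul_eq_left]
    have hp := pp_pos c
    have hq := hG.qq_pos x
    have hr := hG.qq_pos z
    have hpq : IsCoprime (pp c) (qq c x) := (hG.cx.of_isCoprime_of_dvd_right (pp_dvd c)).symm
    have hpr : IsCoprime (pp c) (qq c z) := (hG.cz.of_isCoprime_of_dvd_right (pp_dvd c)).symm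
    have hqr := hG.xz
    unfold NN at key
    have hker := h.ker
    unfold NN at hker
    generalize pp c = p at *
    generalize qq c x = q at *
    generalize qq c z = r at *
    have b := (key (p ^ 2 * q) (by positivity)).1
      ⟨mul_dvd_mul_left _ a6, mul_dvd_mul_left _ a7⟩
    have b1 : r ∣ v.1 := (mul_dvd_mul_iff_left (by positivity)).1 b.1
    have b2 : r ∣ v.2 := (mul_dvd_mul_iff_left (by positivity)).1 b.2
    have s1 : ∀ {a b : ℤ}, p ^ 2 ∣ b - p * a → p ^ 2 ∣ p * b := fun {a b} h => by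
      obtain ⟨k, hk⟩ := h
      exact ⟨a + p * k, by linear_combination p * hk⟩
    have s2 : ∀ {a b : ℤ}, p ^ 2 ∣ b - p * a → p ^ 2 * q * r ∣ p * a → p ^ 2 ∣ b :=
      fun {a b} h h' => by
        have h3 : p ^ 2 ∣ p * a := (Dvd.intro (q * r) (by ring)).trans h'
        exact (h.add h3).trans (dvd_of_eq (by ring))
    have d := (key p hp.le).2
      ⟨dvd3 hpq hpr hqr (s1 a1) (a4.mul_left p) (b1.mul_left p),
        dvd3 hpq hpr hqr (s1 a2) (a5.mul_left p) (b2.mul_left p)⟩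
    have f1 : p ^ 2 * q * r ∣ v.1 := dvd3 hpq hpr hqr (s2 a1 d.1) a4 b1
    have f2 : p ^ 2 * q * r ∣ v.2 := dvd3 hpq hpr hqr (s2 a2 d.2) a5 b2
    have hv : E v = 1 := (hker v).2 ⟨f1, f2⟩
    have hu : E u = 1 := by rw [e, hv]; group
    ext w
    rw [hg, hu, hv]
    simp

end

end Pool.Agent.P.MP_e311cd_gt
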