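import Pool.Agent.P.MP_e311cd_gt.St

/-! The arithmetic obstruction to an isometry. -/

namespace Pool.Agent.P.MP_e311cd_gt

open Set NormedSpace Filter Topology Asymptotics
open scoped ENNReal RealInnerProductSpace

namespace ArCP

theorem two_zero {c B r s y : ℤ} (hc : c = 1 ∨ c = 2 ∨ c = 3) (hB : 0 ≤ B)
    (hd : qq c y ∣ r + y * s) (hr : |r| ≤ 7 * B) (hs : |s| ≤ 7 * B) (hy : 7 * B + 4 ≤ |y|) :
    r = 0 ∧ s = 0 := by
  have h1 : |r + y * s| ≤ 7 * B + |y| * (7 * B) := by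
    refine (abs_add_le _ _).trans (add_le_add hr ?_)
    rw [abs_mul]
    exact mul_le_mul_of_nonneg_left hs (abs_nonneg y)
  have h2 : |y| * |y| - 3 * |y| + 1 ≤ qq c y := by
    have e1 := abs_mul_abs_self y
    have e2 := le_abs_self y
    have e3 := abs_nonneg y
    unfold qq
    rcases hc with rfl | rfl | rfl <;> nlinarith
  have h3 : r + y * s = 0 := Int.eq_zero_of_abs_lt_dvd hd (by nlinarith)
  have h4 : r = 0 := by
    refine Int.eq_zero_of_abs_lt_dvd (m := |y|) ?_ (by linarith)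
    exact (abs_dvd _ _).2 ⟨-s, by linarith⟩
  refine ⟨h4, ?_⟩
  have h5 : y ≠ 0 := by rintro rfl; simp at hy; linarith
  rw [h4, zero_add] at h3
  exact (mul_eq_zero.1 h3).resolve_left h5

theorem cop_two {c y : ℤ} (hc : c = 1 ∨ c = 2 ∨ c = 3) (h : IsCoprime (qq c y) 6) :
    IsCoprime (qq c y) (2 - y) := by
  have h1 : IsCoprime (qq c y) (4 - c) :=
    h.of_isCoprime_of_dvd_right (by rcases hc with rfl | rfl | rfl <;> norm_num)
  have h2 : 4 - c = (2 - y) * (y + 2 - c) + qq c y * 1 := by unfold qq; ring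
  rw [h2] at h1
  exact h1.of_add_mul_left_right.of_mul_right_left

theorem cop_pp {c q : ℤ} (h : IsCoprime q 6) : IsCoprime q (pp c) :=
  h.of_isCoprime_of_dvd_right (by unfold pp; split_ifs <;> norm_num)

theorem key {c w M A B v : ℤ} (hM : IsCoprime (qq c w) (M * (2 - w)))
    (h1 : qq c w ∣ A * v - M * (2 - w)) (h2 : qq c w ∣ B * v - M * (2 * w - c)) :
    qq c w ∣ B - (w - c) * A := by
  obtain ⟨k, hk⟩ := h1
  have e : M * (2 - w) = A * v + qq c w * (-k) := by linarith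
  rw [e] at hM
  refine hM.of_add_mul_left_right.of_mul_right_right.dvd_of_dvd_mul_right ?_
  obtain ⟨l, hl⟩ := h2
  refine ⟨l - (w - c) * k + M, ?_⟩
  have hq : qq c w = w ^ 2 - c * w + c := rfl
  linear_combination hl - (w - c) * hk - M * hq

theorem fld {F : Type} [Field F] {c Q a1 a2 d1 d2 s1 s2 t1 t2 : F} (hQ : Q ≠ 0) (hc : c ≠ 0)
    (h4 : 4 - c ≠ 0) (e1 : a1 * s1 + a2 * s2 = 2 * Q)
    (e2 : -c * (a1 + a2) * s1 + a1 * s2 = -c * Q) (e3 : d1 * s1 + d2 * s2 = 2 * Q)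
    (e4 : c * d2 * s1 + (-d1 - c * d2) * s2 = -c * Q) (e5 : a1 * t1 + a2 * t2 = -Q)
    (e6 : -c * (a1 + a2) * t1 + a1 * t2 = 2 * Q) (e7 : d1 * t1 + d2 * t2 = -Q)
    (e8 : c * d2 * t1 + (-d1 - c * d2) * t2 = 2 * Q) : False := by
  have hD : s1 * t2 - s2 * t1 ≠ 0 := fun h => by
    have : Q * Q * (4 - c) = 0 := by
      linear_combination (a1 * a1 + c * (a1 + a2) * a2) * h -
        (-c * (a1 + a2) * t1 + a1 * t2) * e1 - 2 * Q * e6 + (a1 * t1 + a2 * t2) * e2 - c * Q * e5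
    exact mul_ne_zero (mul_ne_zero hQ hQ) h4 this
  have k1 : a1 = d1 := mul_right_cancel₀ hD (by linear_combination t2 * (e1 - e3) - s2 * (e5 - e7))
  have k2 : a2 = d2 := mul_right_cancel₀ hD (by linear_combination s1 * (e5 - e7) - t1 * (e1 - e3))
  have k3 : -c * (a1 + a2) = c * d2 :=
    mul_right_cancel₀ hD (by linear_combination t2 * (e2 - e4) - s2 * (e6 - e8))
  have k4 : a1 = -d1 - c * d2 :=
    mul_right_cancel₀ hD (by linear_combination s1 * (e6 - e8) - t1 * (e2 - e4))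
  subst k1 k2
  have k5 : a2 = 0 := by
    have : c * (4 - c) * a2 = 0 := by linear_combination -2 * k3 - c * k4
    exact (mul_eq_zero.1 this).resolve_left (mul_ne_zero hc h4)
  have k6 : a1 = 0 := by
    have : c * a1 = 0 := by linear_combination -k3 - 2 * c * k5
    exact (mul_eq_zero.1 this).resolve_left hc
  apply hQ
  rw [k5, k6] at e5
  linear_combination e5

theorem exists_prime {c : ℤ} (hc : c = 1 ∨ c = 2 ∨ c = 3) :
    ∃ n : ℕ, n.Prime ∧ pp c = n ∧ ¬ (n : ℤ) ∣ c ∧ ¬ (n : ℤ) ∣ 4 - c := by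
  rcases hc with rfl | rfl | rfl
  · exact ⟨2, Nat.prime_two, rfl, by norm_num, by norm_num⟩
  · exact ⟨3, Nat.prime_three, rfl, by norm_num, by norm_num⟩
  · exact ⟨2, Nat.prime_two, rfl, by norm_num, by norm_num⟩

theorem dq (c x z : ℤ) : qq c x ∣ NN c x z := ⟨pp c ^ 2 * qq c z, by unfold NN; ring⟩

theorem dq' (c x z : ℤ) : qq c z ∣ NN c x z := ⟨pp c ^ 2 * qq c x, by unfold NN; ring⟩

theorem dp2 (c x z : ℤ) : pp c ^ 2 ∣ NN c x z := ⟨qq c x * qq c z, by unfold NN; ring⟩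

theorem dp (c x z : ℤ) : pp c ∣ NN c x z := (dvd_pow_self _ two_ne_zero).trans (dp2 c x z)

theorem mem1 (c x z : ℤ) :
    ((pp c ^ 2 * qq c z, pp c ^ 2 * qq c z * x), (0, 0)) ∈ Om c x z :=
  mem_Om.2 ⟨⟨-(pp c * qq c z), by ring⟩, ⟨-(pp c * qq c z * x), by ring⟩, ⟨0, by ring⟩,
    dvd_zero _, dvd_zero _, ⟨pp c ^ 2, by ring⟩, ⟨pp c ^ 2 * x, by ring⟩, ⟨0, by ring⟩⟩

theorem mem2 (c x z : ℤ) :
    ((0, 0), (pp c ^ 2 * qq c x, pp c ^ 2 * qq c x * z)) ∈ Om c x z :=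
  mem_Om.2 ⟨⟨qq c x, by ring⟩, ⟨qq c x * z, by ring⟩, ⟨0, by ring⟩, ⟨pp c ^ 2, by ring⟩,
    ⟨pp c ^ 2 * z, by ring⟩, dvd_zero _, dvd_zero _, ⟨0, by ring⟩⟩

theorem mem3 (c x z i j : ℤ) :
    ((qq c x * qq c z * i, qq c x * qq c z * j),
      (pp c * (qq c x * qq c z * i), pp c * (qq c x * qq c z * j))) ∈ Om c x z :=
  mem_Om.2 ⟨⟨0, by ring⟩, ⟨0, by ring⟩, ⟨qq c z * (j - x * i), by ring⟩,
    ⟨pp c * qq c z * i, by ring⟩, ⟨pp c * qq c z * j, by ring⟩, ⟨qq c x * i, by ring⟩,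
    ⟨qq c x * j, by ring⟩, ⟨pp c * qq c x * (j - z * i), by ring⟩⟩

/-- reduction modulo `p` of a congruence for the second component -/
theorem red {p N : ℤ} (hp : p ≠ 0) (hN : p ^ 2 ∣ N) {α a u v v' : ℤ × ℤ}
    (h : dt α (p * u.1, p * u.2) ≡ dt a v' [ZMOD N]) (h1 : p ^ 2 ∣ v'.1 - p * v.1)
    (h2 : p ^ 2 ∣ v'.2 - p * v.2) : p ∣ dt a v - dt α u := by
  have h3 := ((hN.trans h.dvd).sub (h1.mul_left a.1)).sub (h2.mul_left a.2)
  refine (mul_dvd_mul_iff_left hp).1 ?_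
  rw [← sq]
  exact h3.trans (dvd_of_eq (by simp only [dt]; ring))

theorem zc {n : ℕ} {x y : ℤ} (h : (n : ℤ) ∣ x - y) : (x : ZMod n) = y :=
  ((ZMod.intCast_eq_intCast_iff_dvd_sub y x n).2 h).symm

end ArCP

open ArCP in
theorem arC : S_ArC := by
  intro B hB
  refine ⟨7 * B + 7, fun c x z hG hx hz => ⟨?_, ?_⟩⟩
  · rintro ⟨a1, a2⟩ ⟨b1, b2⟩ ⟨d1, d2⟩ ⟨f1, f2⟩ ha1 ha2 hb1 hb2 hd1 hd2 hf1 hf2 H
    simp only [abs_le] at ha1 ha2 hb1 hb2 hd1 hd2 hf1 hf2
    have hc := hG.hc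
    have hb : b1 + c * a1 + c * a2 = 0 ∧ b2 - a1 = 0 := by
      obtain ⟨⟨v, v'⟩, hv, h1, h2, -, -⟩ := H _ (mem1 c x z)
      have h3 := (mem_Om.1 hv).2.2.1
      have k := key (c := c) (w := x) (M := pp c ^ 2 * qq c z) (A := a1 + a2 * x)
        (B := b1 + b2 * x) (v := v.1)
        (((cop_pp hG.cx).pow_right.mul_right hG.xz).mul_right (cop_two hc hG.cx))
        ((((dq c x z).trans h1.dvd).sub (h3.mul_left a2)).trans
          (dvd_of_eq (by simp only [dt]; ring)))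
        ((((dq c x z).trans h2.dvd).sub (h3.mul_left b2)).trans
          (dvd_of_eq (by simp only [dt]; ring)))
      refine two_zero hc hB (y := x) ((k.add (dvd_mul_left _ a2)).trans
        (dvd_of_eq (by unfold qq; ring))) ?_ ?_ (le_abs.2 (Or.inl (by linarith)))
      · rw [abs_le]; rcases hc with rfl | rfl | rfl <;> constructor <;> linarith
      · rw [abs_le]; constructor <;> linarith
    have hf : f1 - c * d2 = 0 ∧ f2 + d1 + c * d2 = 0 := by
      obtain ⟨⟨v, v'⟩, hv, -, -, h1, h2⟩ := H _ (mem2 c x z)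
      have h3 := (mem_Om.1 hv).2.2.2.2.2.2.2
      rw [qq_sub] at h3
      have k := key (c := c) (w := z) (M := pp c ^ 2 * qq c x) (A := d1 + d2 * (c - z))
        (B := f1 + f2 * (c - z)) (v := v'.1)
        (((cop_pp hG.cz).pow_right.mul_right hG.xz.symm).mul_right (cop_two hc hG.cz))
        ((((dq' c x z).trans h1.dvd).sub (h3.mul_left d2)).trans
          (dvd_of_eq (by simp only [dt]; ring)))
        ((((dq' c x z).trans h2.dvd).sub (h3.mul_left f2)).trans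
          (dvd_of_eq (by simp only [dt]; ring)))
      refine two_zero hc hB (y := c - z) ?_ ?_ ?_ (le_abs.2 (Or.inr ?_))
      · rw [qq_sub]
        exact (k.sub (dvd_mul_left _ d2)).trans (dvd_of_eq (by unfold qq; ring))
      · rw [abs_le]; rcases hc with rfl | rfl | rfl <;> constructor <;> linarith
      · rw [abs_le]; rcases hc with rfl | rfl | rfl <;> constructor <;> linarith
      · rcases hc with rfl | rfl | rfl <;> linarith
    obtain ⟨n, hn, hp, hnc, hn4⟩ := exists_prime hc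
    have := Fact.mk hn
    have hp0 : pp c ≠ 0 := by rw [hp]; exact_mod_cast hn.ne_zero
    have main : ∀ i j : ℤ, ∃ s1 s2 : ZMod n,
        a1 * s1 + a2 * s2 = (2 * i - j) * (qq c x * qq c z : ℤ) ∧
        -c * (a1 + a2) * s1 + a1 * s2 = (-c * i + 2 * j) * (qq c x * qq c z : ℤ) ∧
        d1 * s1 + d2 * s2 = (2 * i - j) * (qq c x * qq c z : ℤ) ∧
        c * d2 * s1 + (-d1 - c * d2) * s2 = (-c * i + 2 * j) * (qq c x * qq c z : ℤ) := by
      intro i j
      obtain ⟨⟨v, v'⟩, hv, h1, h2, h3, h4⟩ := H _ (mem3 c x z i j)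
      obtain ⟨g1, g2, -⟩ := mem_Om.1 hv
      have k1 := zc (hp ▸ (dp c x z).trans h1.dvd)
      have k2 := zc (hp ▸ (dp c x z).trans h2.dvd)
      have k3 := zc (hp ▸ red hp0 (dp2 c x z)
        (u := (qq c x * qq c z * i, qq c x * qq c z * j)) h3 g1 g2)
      have k4 := zc (hp ▸ red hp0 (dp2 c x z)
        (u := (qq c x * qq c z * i, qq c x * qq c z * j)) h4 g1 g2)
      rw [show b1 = -c * (a1 + a2) by linarith [hb.1], show b2 = a1 by linarith [hb.2]] at k2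
      rw [show f1 = c * d2 by linarith [hf.1], show f2 = -d1 - c * d2 by linarith [hf.2]] at k4
      simp only [dt] at k1 k2 k3 k4
      push_cast at k1 k2 k3 k4 ⊢
      exact ⟨v.1, v.2, by linear_combination k1, by linear_combination k2,
        by linear_combination k3, by linear_combination k4⟩
    obtain ⟨s1, s2, e1, e2, e3, e4⟩ := main 1 0
    obtain ⟨t1, t2, e5, e6, e7, e8⟩ := main 0 1
    refine fld (F := ZMod n) (c := c) (Q := (qq c x * qq c z : ℤ)) (a1 := a1) (a2 := a2)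
      (d1 := d1) (d2 := d2) (s1 := s1) (s2 := s2) (t1 := t1) (t2 := t2) ?_ ?_ ?_
      (by rw [e1]; simp) (by rw [e2]; simp) (by rw [e3]; simp) (by rw [e4]; simp)
      (by rw [e5]; simp) (by rw [e6]; simp) (by rw [e7]; simp) (by rw [e8]; simp)
    · rw [Ne, ZMod.intCast_zmod_eq_zero_iff_dvd]
      intro h
      have h1 : IsCoprime (qq c x * qq c z) (pp c) := (cop_pp hG.cx).mul_left (cop_pp hG.cz)
      rw [hp] at h1
      exact (Nat.prime_iff_prime_int.1 hn).not_isUnit (h1.symm.isUnit_of_dvd h)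
    · rwa [Ne, ZMod.intCast_zmod_eq_zero_iff_dvd]
    · rw [← ZMod.intCast_zmod_eq_zero_iff_dvd] at hn4
      push_cast at hn4
      exact hn4
  · intro a H
    obtain ⟨⟨v, v'⟩, hv, h1⟩ := H _ (mem1 c x z)
    obtain ⟨-, -, -, g1, g2, -⟩ := mem_Om.1 hv
    have h2 : qq c x ∣ pp c ^ 2 * qq c z * (2 - x) :=
      (((g1.mul_left a.1).add (g2.mul_left a.2)).sub ((dq c x z).trans h1.dvd)).trans
        (dvd_of_eq (by simp only [dt]; ring))
    have h3 := (((cop_pp hG.cx).pow_right.mul_right hG.xz).mul_right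
      (cop_two hG.hc hG.cx)).isUnit_of_dvd h2
    have h4 : 7 ≤ qq c x := by
      unfold qq
      rcases hG.hc with rfl | rfl | rfl <;> nlinarith
    rcases Int.isUnit_iff.1 h3 with h | h <;> linarith

end Pool.Agent.P.MP_e311cd_gt
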