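import Pool.Agent.P.MP_e311cd_gt.St

/-! Assembly. -/

namespace Pool.Agent.P.MP_e311cd_gt

open Set NormedSpace
open scoped ENNReal

theorem asm (hDist : S_Dist) (hLR : S_LR) (hQuo : S_Quo) (hRig : S_Rig) (hRD : S_RD) (hWt : S_Wt)
    (hTor : S_Tor) (hAr0 : S_Ar0) (hFree : S_Free) (hArC : S_ArC) (hSun : S_Sun) (hEig : S_Eig)
    {n : ℕ} {K : Subgroup (Matrix.unitaryGroup (Fin n) ℂ)} {k : Submodule ℝ (Mat n)}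
    (h : IsSimpleGroup K k) (hd : 3 < Module.finrank ℝ k) : Covers K k := by
  have cg := h.cg
  obtain ⟨c, h₁, h₂, n₁, n₂, rd⟩ := hRD _ _ _ cg h.sa hd
  obtain ⟨B, hB, hw⟩ := hWt _ h₁ h₂ (cg.skew rd.m1) (cg.skew rd.m2) rd.comm rd.e1 rd.e2
  obtain ⟨B', hB'⟩ := hArC B hB
  obtain ⟨x, z, good, hx, hz, hco⟩ := hAr0 c B' rd.hc
  have hN : NN c x z ≠ 0 := good.NN_pos.ne'
  obtain ⟨t1, t2, t3, t4, t5⟩ := hTor _ _ _ cg c h₁ h₂ n₁ n₂ rd _ hN hco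
  choose E hE using t1
  obtain ⟨m₁, rfl⟩ := rd.n1
  obtain ⟨m₂, rfl⟩ := rd.n2
  have td : TD c (NN c x z) E m₁ m₂ :=
    ⟨fun u v => mat_inj (by rw [mat_mul, hE, hE, hE, t2]),
      fun u => by rw [← t3, ← hE, ← mat_one (K := K), mat_inj.eq_iff],
      fun u => mat_inj (by rw [mat_mul, mat_mul, hE, hE, t4]),
      fun u => mat_inj (by rw [mat_mul, mat_mul, hE, hE, t5])⟩
  have td' : TD c (NN c x (c - z)) E m₁ m₂ := by rw [NN_sub]; exact td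
  have deck : ∀ y, Good c x y → TD c (NN c x y) E m₁ m₂ → IsDeck (Gam td.add (Om c x y)) :=
    fun y gy ty => ⟨(hFree _ c x y E m₁ m₂ ty gy).1, fun g ⟨p, _, hp⟩ a b => by
      rw [hp, hp, gdist_eq, gdist_eq]
      exact (hDist _ _ _ cg).1 _ (mat_mem _) _ (mat_mem _) _ _,
      (hFree _ c x y E m₁ m₂ ty gy).2⟩
  refine ⟨Gam td.add (Om c x z), Gam td.add (Om c x (c - z)), deck z good td,
    deck _ good.sub td', fun μ => ?_, fun hiso => ?_⟩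
  · obtain ⟨V, hV, hV'⟩ := hEig n K k h μ
    rw [hV', hV']
    refine le_antisymm (hSun _ c x z E m₁ m₂ td good V hV) ?_
    have := hSun _ c x (c - z) E m₁ m₂ td' good.sub V hV
    rwa [sub_sub_cancel] at this
  obtain ⟨R, ε, hε, r1, r2, r3, r4, r5⟩ := hQuo n K k h _ _ (deck z good td)
    (deck _ good.sub td') (fun g ⟨p, _, hp⟩ => ⟨_, _, hp⟩) (fun g ⟨p, _, hp⟩ => ⟨_, _, hp⟩) hiso
  let R' : Mat n → Mat n → Prop := fun X Z => ∃ a b, mat a = X ∧ mat b = Z ∧ R a b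
  obtain ⟨ε', lr⟩ := hLR _ _ _ cg R' ε hε
    (by rintro _ _ ⟨a, b, rfl, rfl, -⟩; exact ⟨mat_mem a, mat_mem b⟩)
    (by
      rintro _ _ _ ⟨y, rfl⟩ ⟨a, b, rfl, rfl, hab⟩ hlt
      rw [← gdist_eq] at hlt
      obtain ⟨w, hw1, hw2⟩ := r2 a b y hab hlt
      exact ⟨mat w, ⟨y, w, rfl, rfl, hw1⟩, by rw [← gdist_eq, ← gdist_eq, hw2]⟩)
    (by
      rintro _ _ _ ⟨a, b, rfl, rfl, hab⟩ ⟨a', b', e, rfl, hab'⟩ hlt
      obtain rfl := mat_inj e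
      rw [r3 _ _ _ hab hab' hlt])
  let G : ℤ → Set (Mat n × Mat n) := fun y =>
    {g | ∃ p ∈ Om c x y, g = (mat (E p.1), mat (E p.2))}
  have hG : ∀ y, ∀ g ∈ G y, g.1 ∈ KK K ∧ g.2 ∈ KK K := by
    rintro y _ ⟨p, -, rfl⟩
    exact ⟨mat_mem _, mat_mem _⟩
  obtain ⟨P, Q, hP, hQ, hPQ⟩ := hRig _ _ _ cg h.sa R' ε' lr
    (by
      rintro _ ⟨a, rfl⟩
      obtain ⟨b, hb⟩ := r1 a
      exact ⟨mat b, a, b, rfl, rfl, hb⟩) (G z) (G (c - z)) (hG _) (hG _)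
    (by
      rintro _ _ _ ⟨p, hp, rfl⟩ ⟨a, b, rfl, rfl, hab⟩
      obtain ⟨g, hg, hg'⟩ := exists_Gam td.add hp
      exact ⟨g a, b, by rw [hg']; rfl, rfl, r5 a b g hg hab⟩)
    (by
      rintro _ _ Z ⟨a, b, rfl, rfl, hab⟩
      constructor
      · rintro ⟨a', b', e, rfl, hab'⟩
        obtain rfl := mat_inj e
        obtain ⟨g, ⟨p, hp, hg⟩, rfl⟩ := (r4 _ _ _ hab).mp hab'
        exact ⟨_, ⟨p, hp, rfl⟩, by rw [hg]; rfl⟩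
      · rintro ⟨_, ⟨p, hp, rfl⟩, rfl⟩
        obtain ⟨g, hg, hg'⟩ := exists_Gam td.add hp
        exact ⟨a, g b, rfl, by rw [hg']; rfl, (r4 _ _ _ hab).mpr ⟨g, hg, rfl⟩⟩)
  have wt : ∀ (P : Mat n →ₗ[ℝ] Mat n), Iso k P → ∀ a : ℤ × ℤ,
      (∃ E ∈ k, ∃ F ∈ k, E ≠ 0 ∧ WP h₁ E F a.1 ∧ WP h₂ E F a.2) →
      ∃ w : ℤ × ℤ, |w.1| ≤ B ∧ |w.2| ≤ B ∧ ∀ u v, Itw k P (mat (E u)) (mat (E v)) →
        dt a u ≡ dt w v [ZMOD NN c x z] := by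
    rintro P hP a ⟨X, hX, Y, hY, hne, w1, w2⟩
    obtain ⟨w, b1, b2, b3⟩ := hw P X Y a w1 w2 fun h0 => hne (by
      have := hP.norm hX
      rwa [h0, norm_zero, eq_comm, norm_eq_zero] at this)
    refine ⟨w, b1, b2, fun u v hi => b3 _ u v hN ?_ ?_⟩
    · rw [← hE, ← hE]; exact hi X hX
    · rw [← hE, ← hE]; exact hi Y hY
  have wa : ∃ E ∈ k, ∃ F ∈ k, E ≠ 0 ∧ WP h₁ E F ((2, -1) : ℤ × ℤ).1 ∧
      WP h₂ E F ((2, -1) : ℤ × ℤ).2 := by simpa using rd.wa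
  have wb : ∃ E ∈ k, ∃ F ∈ k, E ≠ 0 ∧ WP h₁ E F ((-c, 2) : ℤ × ℤ).1 ∧
      WP h₂ E F ((-c, 2) : ℤ × ℤ).2 := by simpa using rd.wb
  obtain ⟨a, a1, a2, a3⟩ := wt P hP _ wa
  obtain ⟨b, b1, b2, b3⟩ := wt P hP _ wb
  obtain ⟨a', a1', a2', a3'⟩ := wt Q hQ _ wa
  obtain ⟨b', b1', b2', b3'⟩ := wt Q hQ _ wb
  obtain ⟨c1, c2⟩ := hB' c x z good hx hz
  rcases hPQ with hPQ | hPQ
  · refine c1 a b a' b' a1 a2 b1 b2 a1' a2' b1' b2' fun p hp => ?_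
    obtain ⟨_, ⟨p', hp', rfl⟩, i1, i2⟩ := hPQ _ ⟨p, hp, rfl⟩
    exact ⟨p', hp', a3 _ _ i1, b3 _ _ i1, a3' _ _ i2, b3' _ _ i2⟩
  · refine c2 a' fun p hp => ?_
    obtain ⟨_, ⟨p', hp', rfl⟩, i1⟩ := hPQ _ ⟨p, hp, rfl⟩
    exact ⟨p', hp', a3' _ _ i1⟩

end Pool.Agent.P.MP_e311cd_gt
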