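import Pool.Agent.P.MP_e311cd_gt.St

/-! A linear isometry that preserves the triple bracket is an automorphism up to sign. -/

namespace Pool.Agent.P.MP_e311cd_gt

open Set NormedSpace Filter Topology Asymptotics
open scoped ENNReal RealInnerProductSpace

noncomputable section

namespace AutP

variable {A : Type} [HS A] {k : Submodule ℝ A} {D : A →ₗ[ℝ] A}

theorem jac3 (X Y Z : A) : br X (br Z Y) + br Z (br X Y) - (br Y (br Z X) + br Z (br Y X)) =
    (-3 : ℝ) • br (br X Y) Z := by
  rw [show (-3 : ℝ) • br (br X Y) Z = -(br (br X Y) Z + br (br X Y) Z + br (br X Y) Z) by module]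
  unfold br
  noncomm_ring

theorem triple (h : ∀ X ∈ k, ∀ Y ∈ k, D (br X (br X Y)) = br (D X) (br (D X) (D Y))) {X Y Z : A}
    (hX : X ∈ k) (hY : Y ∈ k) (hZ : Z ∈ k) :
    D (br (br X Y) Z) = br (br (D X) (D Y)) (D Z) := by
  have pol : ∀ X ∈ k, ∀ Y ∈ k, D (br X (br Z Y) + br Z (br X Y)) =
      br (D X) (br (D Z) (D Y)) + br (D Z) (br (D X) (D Y)) := fun X hX Y hY => by
    have h1 := h _ (k.add_mem hX hZ) Y hY
    have h2 := h X hX Y hY
    have h3 := h Z hZ Y hY
    simp only [br_add_left, br_add_right, map_add] at h1 ⊢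
    linear_combination (norm := module) h1 - h2 - h3
  have h1 := congrArg D (jac3 X Y Z)
  rw [map_sub, pol X hX Y hY, pol Y hY X hX, jac3, map_smul] at h1
  exact (smul_right_injective A (by norm_num) h1).symm

theorem surj (hD : Iso k D) {V : A} (hV : V ∈ k) : ∃ U ∈ k, D U = V := by
  have h1 : Function.Injective (D.restrict (p := k) (q := k) fun _ => hD.mem) :=
    (injective_iff_map_eq_zero _).2 fun X e => by
      have h2 := hD.norm X.2
      rw [show D X = 0 from congrArg Subtype.val e, norm_zero] at h2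
      exact Subtype.ext (norm_eq_zero.1 h2.symm)
  obtain ⟨U, hU⟩ := LinearMap.surjective_of_injective h1 ⟨V, hV⟩
  exact ⟨U, U.2, congrArg Subtype.val hU⟩

/-- the elements on which `l • D` is multiplicative -/
def J (k : Submodule ℝ A) (D : A →ₗ[ℝ] A) (l : ℝ) : Submodule ℝ A where
  carrier := {Z | Z ∈ k ∧ ∀ Y ∈ k, D (br Z Y) = l • br (D Z) (D Y)}
  add_mem' ha hb := ⟨k.add_mem ha.1 hb.1, fun Y hY => by
    rw [br_add_left, map_add, map_add, br_add_left, ha.2 Y hY, hb.2 Y hY, smul_add]⟩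
  zero_mem' := ⟨k.zero_mem, fun Y _ => by simp⟩
  smul_mem' r Z hZ := ⟨k.smul_mem r hZ.1, fun Y hY => by
    rw [br_smul_left, map_smul, map_smul, br_smul_left, hZ.2 Y hY, smul_comm]⟩

end AutP

open AutP in
theorem aut : S_Aut := by
  intro A _ k hk D hD h
  have T := fun {X Y Z : A} => triple h (X := X) (Y := Y) (Z := Z)
  have key : ∀ X ∈ k, ∀ Y ∈ k, ∀ U ∈ k, ∀ V ∈ k, br (D (br X Y)) (D (br U V)) =
      br (br (D X) (D Y)) (br (D U) (D V)) := fun X hX Y hY U hU V hV => by
    have a1 := hk.br_mem hX hY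
    have a2 := hk.br_mem hU hV
    refine sub_eq_zero.1 (hk.center (k.sub_mem (hk.br_mem (hD.mem a1) (hD.mem a2))
      (hk.br_mem (hk.br_mem (hD.mem hX) (hD.mem hY)) (hk.br_mem (hD.mem hU) (hD.mem hV))))
      fun W' hW' => ?_)
    obtain ⟨W, hW, rfl⟩ := surj hD hW'
    have b1 := br_br (br (D X) (D Y)) (br (D U) (D V)) (D W)
    have b2 := congrArg D (br_br (br X Y) (br U V) W)
    rw [← T hU hV hW, ← T hX hY hW, ← T hX hY (hk.br_mem a2 hW), ← T hU hV (hk.br_mem a1 hW)] at b1
    rw [map_add, T a1 a2 hW, b1, add_left_inj] at b2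
    rw [br_comm, br_sub_left, b2, sub_self, neg_zero]
  obtain ⟨X, hX, Y, hY, hne⟩ := hk.nonab
  have hZ := hk.br_mem hX hY
  obtain ⟨Z', hZ', e⟩ := surj hD (hk.br_mem (hD.mem hX) (hD.mem hY))
  have h1 : ∀ W ∈ k, D (br Z' W) = br (D (br X Y)) (D W) := fun W hW => by
    rw [← hk.perfect] at hW
    induction hW using Submodule.span_induction with
    | mem W hW =>
      obtain ⟨U, hU, V, hV, rfl⟩ := hW
      rw [key X hX Y hY U hU V hV, br_comm, map_neg, T hU hV hZ', e, ← br_comm]
    | zero => simp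
    | add a b _ _ ha hb => rw [br_add_right, map_add, map_add, br_add_right, ha, hb]
    | smul r a _ ha => rw [br_smul_right, map_smul, map_smul, br_smul_right, ha]
  have h2 : ∀ l : ℝ, l * l = 1 → br X Y + l • Z' ≠ 0 →
      ∀ U ∈ k, ∀ V ∈ k, D (br U V) = l • br (D U) (D V) := fun l hl h0 U hU => by
    have a1 : br X Y + l • Z' ∈ J k D l := ⟨k.add_mem hZ (k.smul_mem _ hZ'), fun W hW => by
      rw [br_add_left, br_smul_left, map_add, map_smul, map_add, map_smul, br_add_left,
        br_smul_left, smul_add, smul_smul, hl, one_smul, h1 W hW, e, T hX hY hW, add_comm]⟩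
    rcases hk.simple (J k D l) (fun Z hZ => hZ.1) (fun U hU Z hZ =>
      ⟨hk.br_mem hU hZ.1, fun W hW => by
        rw [T hU hZ.1 hW, br_comm U Z, map_neg, hZ.2 U hU, ← smul_neg, ← br_comm, br_smul_left,
          smul_smul, hl, one_smul]⟩) with a2 | a2
    · rw [a2, Submodule.mem_bot] at a1
      exact absurd a1 h0
    · rw [← a2] at hU
      exact hU.2
  by_cases h3 : br X Y + (1 : ℝ) • Z' = 0
  · refine Or.inr ⟨⟨fun hX => k.neg_mem (hD.mem hX), fun hX => (norm_neg _).trans (hD.norm hX)⟩,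
      fun {U V} hU hV => ?_⟩
    have a1 := h2 (-1) (by norm_num) (fun a => hne (smul_right_injective A (two_ne_zero (α := ℝ))
      (by
        change (2 : ℝ) • br X Y = (2 : ℝ) • (0 : A)
        linear_combination (norm := module) a + h3))) U hU V hV
    simp only [LinearMap.neg_apply, br_neg_left, br_neg_right, a1, neg_smul, one_smul]
  · exact Or.inl ⟨hD, fun hU hV => by simpa using h2 1 (by norm_num) h3 _ hU _ hV⟩

end

end Pool.Agent.P.MP_e311cd_gt
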