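import Pool.Agent.P.MP_e311cd_gt.Defs

/-! Abstract setting: a finite dimensional real star algebra with a trace inner product. -/

namespace Pool.Agent.P.MP_e311cd_gt

open Set NormedSpace Filter Topology
open scoped RealInnerProductSpace

noncomputable section

/-- a finite dimensional real star algebra with a Hilbert-Schmidt norm -/
class HS (A : Type) extends NormedRing A, StarRing A, NormedAlgebra ℝ A, StarModule ℝ A,
    Inner ℝ A where
  fin : FiniteDimensional ℝ A
  norm_sq : ∀ x : A, ‖x‖ ^ 2 = inner x x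
  inner_symm : ∀ x y : A, inner x y = inner y x
  inner_add : ∀ x y z : A, inner (x + y) z = inner x z + inner y z
  inner_smul : ∀ (r : ℝ) (x y : A), inner (r • x) y = r * inner x y
  mul_left : ∀ a x y : A, inner (a * x) y = inner x (star a * y)
  mul_right : ∀ a x y : A, inner (x * a) y = inner x (y * star a)

variable {A : Type} [HS A]

instance : InnerProductSpace ℝ A where
  norm_sq_eq_re_inner := HS.norm_sq
  conj_inner_symm x y := HS.inner_symm y x
  add_left := HS.inner_add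
  smul_left x y r := HS.inner_smul r x y

instance : FiniteDimensional ℝ A := HS.fin

instance : CompleteSpace A := FiniteDimensional.complete ℝ A

instance : NormedAlgebra ℚ A := NormedAlgebra.restrictScalars ℚ ℝ A

theorem inner_mul_left (a x y : A) : ⟪a * x, y⟫ = ⟪x, star a * y⟫ := HS.mul_left a x y

theorem inner_mul_right (a x y : A) : ⟪x * a, y⟫ = ⟪x, y * star a⟫ := HS.mul_right a x y

theorem inner_star_star (x y : A) : ⟪star x, star y⟫ = ⟪x, y⟫ := by
  have h1 := inner_mul_left (star x) 1 (star y)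
  have h2 := inner_mul_right y 1 x
  rw [mul_one, star_star] at h1
  rw [one_mul] at h2
  rw [h1, ← h2, real_inner_comm]

instance : NormedStarGroup A where
  norm_star_le x := le_of_eq <| by
    rw [← sq_eq_sq₀ (norm_nonneg _) (norm_nonneg _), ← real_inner_self_eq_norm_sq,
      ← real_inner_self_eq_norm_sq, inner_star_star]

/-! ### brackets, conjugation -/

/-- the commutator -/
def br (X Y : A) : A := X * Y - Y * X

/-- conjugation by a unitary -/
def Ad (x Y : A) : A := x * Y * star x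

/-- skew elements -/
def Skew (X : A) : Prop := star X = -X

/-- unitary elements -/
def Uni (x : A) : Prop := star x * x = 1 ∧ x * star x = 1

theorem br_add_left (X Y Z : A) : br (X + Y) Z = br X Z + br Y Z := by unfold br; noncomm_ring
theorem br_add_right (X Y Z : A) : br X (Y + Z) = br X Y + br X Z := by unfold br; noncomm_ring
theorem br_sub_left (X Y Z : A) : br (X - Y) Z = br X Z - br Y Z := by unfold br; noncomm_ring
theorem br_sub_right (X Y Z : A) : br X (Y - Z) = br X Y - br X Z := by unfold br; noncomm_ring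
theorem br_neg_left (X Y : A) : br (-X) Y = -br X Y := by unfold br; noncomm_ring
theorem br_neg_right (X Y : A) : br X (-Y) = -br X Y := by unfold br; noncomm_ring
theorem br_smul_left (r : ℝ) (X Y : A) : br (r • X) Y = r • br X Y := by
  simp [br, smul_sub]
theorem br_smul_right (r : ℝ) (X Y : A) : br X (r • Y) = r • br X Y := by
  simp [br, smul_sub]
@[simp] theorem br_self (X : A) : br X X = 0 := sub_self _
@[simp] theorem br_zero_left (X : A) : br 0 X = 0 := by simp [br]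
@[simp] theorem br_zero_right (X : A) : br X 0 = 0 := by simp [br]
theorem br_comm (X Y : A) : br X Y = -br Y X := by unfold br; noncomm_ring
/-- `br X` is a derivation -/
theorem br_br (X Y Z : A) : br X (br Y Z) = br (br X Y) Z + br Y (br X Z) := by
  unfold br; noncomm_ring
theorem br_eq_zero {X Y : A} : br X Y = 0 ↔ Commute X Y := sub_eq_zero

/-- `br X` as a linear map -/
def ad (X : A) : A →ₗ[ℝ] A where
  toFun := br X
  map_add' := br_add_right X
  map_smul' r := br_smul_right r X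

@[simp] theorem ad_apply (X Y : A) : ad X Y = br X Y := rfl

theorem norm_br_le (X Y : A) : ‖br X Y‖ ≤ 2 * ‖X‖ * ‖Y‖ := by
  have h1 := norm_mul_le X Y
  have h2 := norm_mul_le Y X
  have h3 := norm_sub_le (X * Y) (Y * X)
  unfold br
  linarith

theorem Skew.neg {X : A} (h : Skew X) : Skew (-X) := by
  unfold Skew at *; rw [star_neg, h]
theorem Skew.smul {X : A} (h : Skew X) (r : ℝ) : Skew (r • X) := by
  unfold Skew at *; rw [star_smul, h]; simp
theorem Skew.add {X Y : A} (h : Skew X) (h' : Skew Y) : Skew (X + Y) := by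
  unfold Skew at *; rw [star_add, h, h', neg_add]
theorem Skew.sub {X Y : A} (h : Skew X) (h' : Skew Y) : Skew (X - Y) := by
  rw [sub_eq_add_neg]; exact h.add h'.neg
theorem Skew.br {X Y : A} (h : Skew X) (h' : Skew Y) : Skew (br X Y) := by
  unfold Skew MP_e311cd_gt.br at *
  rw [star_sub, star_mul, star_mul, h, h']; noncomm_ring

/-- `ad X` is skew for skew `X` -/
theorem Skew.inner_br {X : A} (h : Skew X) (Y Z : A) : ⟪MP_e311cd_gt.br X Y, Z⟫ =
    -⟪Y, MP_e311cd_gt.br X Z⟫ := by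
  unfold MP_e311cd_gt.br
  rw [inner_sub_left, inner_sub_right, inner_mul_left, inner_mul_right, h]
  simp only [neg_mul, mul_neg, inner_neg_right]
  ring

theorem Skew.inner_br_self {X : A} (h : Skew X) (Y : A) : ⟪MP_e311cd_gt.br X Y, Y⟫ = 0 := by
  have := h.inner_br Y Y
  rw [real_inner_comm] at this
  rw [real_inner_comm]
  linarith

theorem Uni.one : Uni (1 : A) := by simp [Uni]
theorem Uni.star {x : A} (h : Uni x) : Uni (star x) := ⟨by rw [star_star]; exact h.2, by
  rw [star_star]; exact h.1⟩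
theorem Uni.mul {x y : A} (h : Uni x) (h' : Uni y) : Uni (x * y) :=
  ⟨by rw [star_mul, mul_assoc, ← mul_assoc _ x, h.1, one_mul, h'.1],
    by rw [star_mul, mul_assoc, ← mul_assoc y, h'.2, one_mul, h.2]⟩
theorem Uni.inner_left {x : A} (h : Uni x) (Y Z : A) : ⟪x * Y, x * Z⟫ = ⟪Y, Z⟫ := by
  rw [inner_mul_left, ← mul_assoc, h.1, one_mul]
theorem Uni.inner_right {x : A} (h : Uni x) (Y Z : A) : ⟪Y * x, Z * x⟫ = ⟪Y, Z⟫ := by
  rw [inner_mul_right, mul_assoc, h.2, mul_one]
theorem Uni.norm_left {x : A} (h : Uni x) (Y : A) : ‖x * Y‖ = ‖Y‖ := by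
  rw [← sq_eq_sq₀ (norm_nonneg _) (norm_nonneg _), ← real_inner_self_eq_norm_sq,
    ← real_inner_self_eq_norm_sq, h.inner_left]
theorem Uni.norm_right {x : A} (h : Uni x) (Y : A) : ‖Y * x‖ = ‖Y‖ := by
  rw [← sq_eq_sq₀ (norm_nonneg _) (norm_nonneg _), ← real_inner_self_eq_norm_sq,
    ← real_inner_self_eq_norm_sq, h.inner_right]
theorem Uni.norm_sub_left {x : A} (h : Uni x) (Y Z : A) : ‖x * Y - x * Z‖ = ‖Y - Z‖ := by
  rw [← mul_sub, h.norm_left]
theorem Uni.norm_sub_right {x : A} (h : Uni x) (Y Z : A) : ‖Y * x - Z * x‖ = ‖Y - Z‖ := by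
  rw [← sub_mul, h.norm_right]
theorem Uni.left_cancel {x Y Z : A} (h : Uni x) (e : x * Y = x * Z) : Y = Z := by
  rw [← one_mul Y, ← one_mul Z, ← h.1, mul_assoc, e, mul_assoc]
theorem Uni.right_cancel {x Y Z : A} (h : Uni x) (e : Y * x = Z * x) : Y = Z := by
  rw [← mul_one Y, ← mul_one Z, ← h.2, ← mul_assoc, e, mul_assoc]

theorem Ad_add (x Y Z : A) : Ad x (Y + Z) = Ad x Y + Ad x Z := by unfold Ad; noncomm_ring
theorem Ad_sub (x Y Z : A) : Ad x (Y - Z) = Ad x Y - Ad x Z := by unfold Ad; noncomm_ring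
theorem Ad_neg (x Y : A) : Ad x (-Y) = -Ad x Y := by unfold Ad; noncomm_ring
theorem Ad_smul (x : A) (r : ℝ) (Y : A) : Ad x (r • Y) = r • Ad x Y := by simp [Ad]
@[simp] theorem Ad_zero (x : A) : Ad x 0 = 0 := by simp [Ad]
@[simp] theorem Ad_one (Y : A) : Ad 1 Y = Y := by simp [Ad]
theorem Ad_mul (x y Z : A) : Ad (x * y) Z = Ad x (Ad y Z) := by
  unfold Ad; rw [star_mul]; noncomm_ring

/-- `Ad x` as a linear map -/
def AdL (x : A) : A →ₗ[ℝ] A where
  toFun := Ad x
  map_add' := Ad_add x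
  map_smul' := Ad_smul x

@[simp] theorem AdL_apply (x Y : A) : AdL x Y = Ad x Y := rfl

theorem Uni.Ad_star_Ad {x : A} (h : Uni x) (Y : A) : Ad (Star.star x) (Ad x Y) = Y := by
  rw [← Ad_mul, h.1, Ad_one]
theorem Uni.Ad_Ad_star {x : A} (h : Uni x) (Y : A) : Ad x (Ad (Star.star x) Y) = Y := by
  rw [← Ad_mul, h.2, Ad_one]
theorem Uni.Ad_mul_self {x : A} (h : Uni x) (Y : A) : Ad x Y * x = x * Y := by
  rw [Ad, mul_assoc, h.1, mul_one]
theorem Uni.inner_Ad {x : A} (h : Uni x) (Y Z : A) : ⟪Ad x Y, Ad x Z⟫ = ⟪Y, Z⟫ := by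
  rw [Ad, Ad, h.star.inner_right, h.inner_left]
theorem Uni.norm_Ad {x : A} (h : Uni x) (Y : A) : ‖Ad x Y‖ = ‖Y‖ := by
  rw [Ad, h.star.norm_right, h.norm_left]
theorem Uni.Ad_mul_Ad {x : A} (h : Uni x) (Y Z : A) : Ad x (Y * Z) = Ad x Y * Ad x Z := by
  have : Ad x Y * Ad x Z = x * Y * (Star.star x * x) * Z * Star.star x := by
    unfold Ad; noncomm_ring
  rw [this, h.1, Ad]; noncomm_ring
theorem Uni.Ad_br {x : A} (h : Uni x) (Y Z : A) : Ad x (br Y Z) = br (Ad x Y) (Ad x Z) := by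
  rw [br, br, Ad_sub, h.Ad_mul_Ad, h.Ad_mul_Ad]
theorem Uni.Ad_of_commute {x Y : A} (h : Uni x) (hc : Commute x Y) : Ad x Y = Y := by
  rw [Ad, hc.eq, mul_assoc, h.2, mul_one]
theorem Skew.Ad {Y : A} (h : Skew Y) (x : A) : Skew (Ad x Y) := by
  unfold Skew MP_e311cd_gt.Ad at *
  rw [star_mul, star_mul, star_star, h]; noncomm_ring

/-! ### the exponential -/

theorem exp_neg_mul (X : A) : exp (-X) * exp X = 1 := by
  rw [← exp_add_of_commute (Commute.refl X).neg_left, neg_add_cancel, exp_zero]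
theorem exp_mul_neg (X : A) : exp X * exp (-X) = 1 := by
  rw [← exp_add_of_commute (Commute.refl X).neg_right, add_neg_cancel, exp_zero]
theorem exp_add_smul (s t : ℝ) (X : A) : exp ((s + t) • X) = exp (s • X) * exp (t • X) := by
  rw [add_smul, exp_add_of_commute (((Commute.refl X).smul_left s).smul_right t)]
theorem Skew.star_exp {X : A} (h : Skew X) : star (exp X) = exp (-X) := by
  rw [NormedSpace.star_exp, h]
theorem Skew.uni_exp {X : A} (h : Skew X) : Uni (exp X) :=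
  ⟨by rw [h.star_exp, exp_neg_mul], by rw [h.star_exp, exp_mul_neg]⟩
theorem Uni.Ad_exp {x : A} (h : Uni x) (Y : A) : Ad x (exp Y) = exp (Ad x Y) :=
  (exp_units_conj ⟨x, Star.star x, h.2, h.1⟩ Y).symm
theorem Uni.mul_exp {x : A} (h : Uni x) (Y : A) : x * exp Y = exp (Ad x Y) * x := by
  rw [← h.Ad_exp, h.Ad_mul_self]
theorem contDiff_exp' {m : WithTop ℕ∞} : ContDiff ℝ m (exp : A → A) :=
  contDiff_iff_contDiffAt.mpr fun x => (exp_analytic (𝕂 := ℝ) x).contDiffAt
theorem contDiff_exp_smul {m : WithTop ℕ∞} (X : A) : ContDiff ℝ m fun t : ℝ => exp (t • X) :=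
  contDiff_exp'.comp (contDiff_id.smul contDiff_const)
theorem hasDerivAt_exp_smul (X : A) (t : ℝ) :
    HasDerivAt (fun s : ℝ => exp (s • X)) (exp (t • X) * X) t := hasDerivAt_exp_smul_const X t
theorem hasDerivAt_exp_smul' (X : A) (t : ℝ) :
    HasDerivAt (fun s : ℝ => exp (s • X)) (X * exp (t • X)) t := hasDerivAt_exp_smul_const' X t
theorem hasDerivAt_exp_neg_smul (X : A) (t : ℝ) :
    HasDerivAt (fun s : ℝ => exp (-(s • X))) (-(exp (-(t • X)) * X)) t := by
  simpa using hasDerivAt_exp_smul (-X) t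

theorem Skew.hasDerivAt_Ad {X : A} (h : Skew X) (Y : A) (t : ℝ) :
    HasDerivAt (fun s : ℝ => MP_e311cd_gt.Ad (exp (s • X)) Y)
      (MP_e311cd_gt.br X (MP_e311cd_gt.Ad (exp (t • X)) Y)) t := by
  have e : ∀ s : ℝ, MP_e311cd_gt.Ad (exp (s • X)) Y = exp (s • X) * Y * exp (-(s • X)) :=
    fun s => by rw [MP_e311cd_gt.Ad, (h.smul s).star_exp]
  simp only [e]
  refine (((hasDerivAt_exp_smul' X t).mul_const Y).mul
    (hasDerivAt_exp_neg_smul X t)).congr_deriv ?_
  unfold MP_e311cd_gt.br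
  noncomm_ring

/-- uniqueness for `y' = [X, y]` -/
theorem Skew.ode {X : A} (h : Skew X) {y : ℝ → A}
    (hy : ∀ t, HasDerivAt y (MP_e311cd_gt.br X (y t)) t) (t : ℝ) :
    y t = MP_e311cd_gt.Ad (exp (t • X)) (y 0) := by
  set z : ℝ → A := fun s => y s - MP_e311cd_gt.Ad (exp (s • X)) (y 0) with hz
  have hd : ∀ s, HasDerivAt z (MP_e311cd_gt.br X (z s)) s := fun s => by
    rw [hz, br_sub_right]
    exact (hy s).sub (h.hasDerivAt_Ad _ s)
  have h2 : ∀ s, HasDerivAt (fun s => ⟪z s, z s⟫) 0 s := fun s => by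
    refine ((hd s).inner ℝ (hd s)).congr_deriv ?_
    rw [h.inner_br_self, real_inner_comm, h.inner_br_self, add_zero]
  have h3 := is_const_of_deriv_eq_zero (fun s => (h2 s).differentiableAt)
    (fun s => (h2 s).deriv) t 0
  have h4 : z 0 = 0 := by simp [hz]
  rw [h4, inner_zero_left, inner_self_eq_zero] at h3
  exact sub_eq_zero.mp h3

/-- the Duhamel curve -/
theorem hasDerivAt_duh (X Y : A) (t : ℝ) :
    HasDerivAt (fun s : ℝ => exp (-(s • X)) * exp (s • Y))
      (exp (-(t • X)) * (Y - X) * exp (t • Y)) t := by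
  refine ((hasDerivAt_exp_neg_smul X t).mul (hasDerivAt_exp_smul' Y t)).congr_deriv ?_
  noncomm_ring

theorem Skew.norm_duh {X Y : A} (h : Skew X) (h' : Skew Y) {t : ℝ} (ht : 0 ≤ t) :
    ‖exp (-(t • X)) * exp (t • Y) - 1‖ ≤ ‖Y - X‖ * t := by
  have := norm_image_sub_le_of_norm_deriv_le_segment' (a := 0) (b := t) (C := ‖Y - X‖)
    (fun s _ => (hasDerivAt_duh X Y s).hasDerivWithinAt) (fun s _ => by
      rw [(h'.smul s).uni_exp.norm_right, (h.smul s).neg.uni_exp.norm_left]) t ⟨ht, le_rfl⟩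
  simpa using this

/-- `exp` is 1-Lipschitz on skew elements -/
theorem Skew.norm_exp_sub {X Y : A} (h : Skew X) (h' : Skew Y) : ‖exp Y - exp X‖ ≤ ‖Y - X‖ := by
  have := h.norm_duh h' zero_le_one
  rw [one_smul, one_smul, mul_one, ← exp_neg_mul X, h.neg.uni_exp.norm_sub_left] at this
  exact this

theorem Skew.norm_exp_sub_one {X : A} (h : Skew X) : ‖exp X - 1‖ ≤ ‖X‖ := by
  have h0 : Skew (0 : A) := by simp [Skew]
  simpa using h0.norm_exp_sub h

/-- the infinitesimal Gauss lemma -/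
theorem Skew.duhamel {X Y : A} (h : Skew X) (h' : Skew Y) :
    |⟪X, exp (-X) * exp Y - 1⟫ - ⟪X, Y - X⟫| ≤ ‖X‖ * ‖Y - X‖ ^ 2 := by
  have hd : ∀ s : ℝ, HasDerivAt (fun s : ℝ => ⟪X, exp (-(s • X)) * exp (s • Y)⟫ - s * ⟪X, Y - X⟫)
      (⟪X, exp (-(s • X)) * (Y - X) * exp (s • Y)⟫ - ⟪X, Y - X⟫) s := fun s => by
    have h1 := (hasDerivAt_const s X).inner ℝ (hasDerivAt_duh X Y s)
    have h2 := (hasDerivAt_id s).mul_const ⟪X, Y - X⟫
    refine (h1.sub h2).congr_deriv ?_
    simp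
  have hb : ∀ s ∈ Ico (0 : ℝ) 1,
      ‖⟪X, exp (-(s • X)) * (Y - X) * exp (s • Y)⟫ - ⟪X, Y - X⟫‖ ≤ ‖X‖ * ‖Y - X‖ ^ 2 := by
    intro s hs
    have hu := (h.smul s).neg.uni_exp
    have e1 : ⟪X, Y - X⟫ = ⟪X, MP_e311cd_gt.Ad (exp (-(s • X))) (Y - X)⟫ := by
      rw [← hu.inner_Ad X (Y - X), hu.Ad_of_commute
        (((Commute.refl X).smul_left s).neg_left.exp_left)]
    have e2 : exp (-(s • X)) * (Y - X) * exp (s • Y) - MP_e311cd_gt.Ad (exp (-(s • X))) (Y - X) =
        MP_e311cd_gt.Ad (exp (-(s • X))) (Y - X) * (exp (-(s • X)) * exp (s • Y) - 1) := by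
      rw [mul_sub _ _ (1 : A), mul_one, ← mul_assoc, hu.Ad_mul_self]
    rw [e1, ← inner_sub_right, e2]
    refine (norm_inner_le_norm _ _).trans (mul_le_mul_of_nonneg_left ?_ (norm_nonneg _))
    refine (norm_mul_le _ _).trans ?_
    rw [hu.norm_Ad, sq]
    refine mul_le_mul_of_nonneg_left ((h.norm_duh h' hs.1).trans ?_) (norm_nonneg _)
    exact mul_le_of_le_one_right (norm_nonneg _) hs.2.le
  have := norm_image_sub_le_of_norm_deriv_le_segment' (a := 0) (b := 1)
    (fun s _ => (hd s).hasDerivWithinAt) hb 1 ⟨zero_le_one, le_rfl⟩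
  simp only [one_smul, one_mul, zero_smul, neg_zero, exp_zero, zero_mul, sub_zero, mul_one,
    Real.norm_eq_abs] at this
  rw [inner_sub_right X (exp (-X) * exp Y) 1]
  convert this using 2
  ring

/-- `exp` is bi-Lipschitz near `0` -/
theorem exp_lower (A : Type) [HS A] :
    ∃ ε > 0, ∀ X Y : A, ‖X‖ < ε → ‖Y‖ < ε → ‖X - Y‖ ≤ 2 * ‖exp X - exp Y‖ := by
  have h := (hasStrictFDerivAt_exp_zero (𝕂 := ℝ) (𝔸 := A)).isLittleO.bound
    (show (0 : ℝ) < 1 / 2 by norm_num)
  obtain ⟨ε, hε, h'⟩ := Metric.eventually_nhds_iff.mp h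
  refine ⟨ε, hε, fun X Y hX hY => ?_⟩
  have h1 := @h' (X, Y) (by simpa [Prod.dist_eq] using ⟨hX, hY⟩)
  simp only [one_apply_eq_self] at h1
  have h2 := norm_sub_le (exp X - exp Y) (exp X - exp Y - (X - Y))
  rw [sub_sub_cancel] at h2
  linarith

theorem exp_inj (A : Type) [HS A] :
    ∃ ε > 0, ∀ X Y : A, ‖X‖ < ε → ‖Y‖ < ε → exp X = exp Y → X = Y := by
  obtain ⟨ε, hε, h⟩ := exp_lower A
  refine ⟨ε, hε, fun X Y hX hY e => ?_⟩
  have := h X Y hX hY
  rw [e, sub_self, norm_zero, mul_zero, norm_le_zero_iff] at this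
  exact sub_eq_zero.mp this

/-! ### groups and algebras -/

/-- a closed connected group of unitaries with Lie algebra `k` -/
structure CG (K : Set A) (k : Submodule ℝ A) : Prop where
  one : (1 : A) ∈ K
  mul : ∀ {x y}, x ∈ K → y ∈ K → x * y ∈ K
  star : ∀ {x}, x ∈ K → star x ∈ K
  uni : ∀ {x}, x ∈ K → Uni x
  closed : IsClosed K
  conn : IsPreconnected K
  lie : ∀ X, X ∈ k ↔ ∀ t : ℝ, exp (t • X) ∈ K

/-- a simple Lie algebra of skew elements -/
structure SA (k : Submodule ℝ A) : Prop where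
  skew : ∀ {X}, X ∈ k → Skew X
  br_mem : ∀ {X Y}, X ∈ k → Y ∈ k → br X Y ∈ k
  nonab : ∃ X ∈ k, ∃ Y ∈ k, br X Y ≠ 0
  simple : ∀ J : Submodule ℝ A, J ≤ k → (∀ X ∈ k, ∀ Y ∈ J, br X Y ∈ J) → J = ⊥ ∨ J = k

variable {K : Set A} {k : Submodule ℝ A}

theorem CG.exp_mem (h : CG K k) {X : A} (hX : X ∈ k) : exp X ∈ K := by
  simpa using (h.lie X).mp hX 1

theorem CG.skew (h : CG K k) {X : A} (hX : X ∈ k) : Skew X := by
  have h1 : HasDerivAt (fun t : ℝ => exp (t • Star.star X) * exp (t • X))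
      (exp ((0 : ℝ) • Star.star X) * Star.star X * exp ((0 : ℝ) • X) +
        exp ((0 : ℝ) • Star.star X) * (exp ((0 : ℝ) • X) * X)) 0 :=
    (hasDerivAt_exp_smul _ 0).mul (hasDerivAt_exp_smul _ 0)
  have h2 : (fun t : ℝ => exp (t • Star.star X) * exp (t • X)) = fun _ => 1 := by
    funext t
    have := (h.uni ((h.lie X).mp hX t)).1
    rwa [star_exp, star_smul, star_trivial] at this
  rw [h2] at h1
  have h3 := h1.unique (hasDerivAt_const _ _)
  simp only [zero_smul, exp_zero, one_mul, mul_one] at h3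
  exact eq_neg_of_add_eq_zero_left h3

theorem CG.Ad_mem (h : CG K k) {x X : A} (hx : x ∈ K) (hX : X ∈ k) : Ad x X ∈ k :=
  (h.lie _).mpr fun t => by
    rw [← Ad_smul, ← (h.uni hx).Ad_exp]
    exact h.mul (h.mul hx ((h.lie X).mp hX t)) (h.star hx)

theorem CG.br_mem (h : CG K k) {X Y : A} (hX : X ∈ k) (hY : Y ∈ k) : br X Y ∈ k := by
  have h1 := (h.skew hX).hasDerivAt_Ad Y 0
  simp only [zero_smul, exp_zero, Ad_one] at h1
  refine k.closed_of_finiteDimensional.mem_of_tendsto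
    (hasDerivAt_iff_tendsto_slope.mp h1) (Eventually.of_forall fun t => ?_)
  rw [slope_def_module]
  exact k.smul_mem _ (k.sub_mem (h.Ad_mem ((h.lie X).mp hX t) hY)
    (h.Ad_mem ((h.lie X).mp hX 0) hY))

theorem CG.compact (h : CG K k) : IsCompact K :=
  Metric.isCompact_of_isClosed_isBounded h.closed
    ((Metric.isBounded_closedBall (x := (0 : A)) (r := ‖(1 : A)‖)).subset fun x hx => by
      rw [mem_closedBall_zero_iff, ← (h.uni hx).norm_left 1, mul_one])

/-- the centre is trivial -/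
theorem SA.center (h : SA k) {X : A} (hX : X ∈ k) (hc : ∀ Y ∈ k, br Y X = 0) : X = 0 := by
  let J : Submodule ℝ A :=
    { carrier := {Z | Z ∈ k ∧ ∀ Y ∈ k, br Y Z = 0}
      add_mem' := fun ha hb => ⟨k.add_mem ha.1 hb.1, fun Y hY => by
        rw [br_add_right, ha.2 Y hY, hb.2 Y hY, add_zero]⟩
      zero_mem' := ⟨k.zero_mem, fun Y _ => br_zero_right Y⟩
      smul_mem' := fun r Z hZ => ⟨k.smul_mem r hZ.1, fun Y hY => by
        rw [br_smul_right, hZ.2 Y hY, smul_zero]⟩ }
  rcases h.simple J (fun Z hZ => hZ.1) (fun Y hY Z hZ => by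
    rw [hZ.2 Y hY]; exact J.zero_mem) with h1 | h1
  · have : X ∈ J := ⟨hX, hc⟩
    rwa [h1, Submodule.mem_bot] at this
  · obtain ⟨Y, hY, Z, hZ, hne⟩ := h.nonab
    rw [← h1] at hZ
    exact absurd (hZ.2 Y hY) hne

/-- the algebra is spanned by brackets -/
theorem SA.perfect (h : SA k) :
    Submodule.span ℝ {Z | ∃ X ∈ k, ∃ Y ∈ k, br X Y = Z} = k := by
  have hle : Submodule.span ℝ {Z | ∃ X ∈ k, ∃ Y ∈ k, br X Y = Z} ≤ k :=
    Submodule.span_le.mpr (by rintro _ ⟨X, hX, Y, hY, rfl⟩; exact h.br_mem hX hY)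
  rcases h.simple _ hle (fun X hX Y hY => Submodule.subset_span ⟨X, hX, Y, hle hY, rfl⟩)
    with h1 | h1
  · obtain ⟨Y, hY, Z, hZ, hne⟩ := h.nonab
    exact absurd ((Submodule.span_eq_bot.mp h1) _ ⟨Y, hY, Z, hZ, rfl⟩) hne
  · exact h1

/-! ### weight pairs -/

/-- `E - i F` is an eigenvector of `ad H` with eigenvalue `i a` -/
def WP (H E F : A) (a : ℝ) : Prop := br H E = a • F ∧ br H F = -(a • E)

theorem WP.add {H H' E F : A} {a a' : ℝ} (h : WP H E F a) (h' : WP H' E F a') :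
    WP (H + H') E F (a + a') :=
  ⟨by rw [br_add_left, h.1, h'.1, add_smul], by rw [br_add_left, h.2, h'.2, add_smul, neg_add]⟩

theorem WP.smul {H E F : A} {a : ℝ} (h : WP H E F a) (r : ℝ) : WP (r • H) E F (r * a) :=
  ⟨by rw [br_smul_left, h.1, smul_smul], by rw [br_smul_left, h.2, smul_neg, smul_smul]⟩

/-- `Ad (exp H)` rotates a weight pair -/
theorem WP.rot {H E F : A} {a : ℝ} (h : WP H E F a) (hH : Skew H) :
    Ad (exp H) E = Real.cos a • E + Real.sin a • F ∧
      Ad (exp H) F = Real.cos a • F - Real.sin a • E := by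
  have hc : ∀ t : ℝ, HasDerivAt (fun s : ℝ => Real.cos (s * a)) (-Real.sin (t * a) * a) t :=
    fun t => by simpa using ((hasDerivAt_id t).mul_const a).cos
  have hs : ∀ t : ℝ, HasDerivAt (fun s : ℝ => Real.sin (s * a)) (Real.cos (t * a) * a) t :=
    fun t => by simpa using ((hasDerivAt_id t).mul_const a).sin
  constructor
  · have := hH.ode (y := fun s => Real.cos (s * a) • E + Real.sin (s * a) • F) (fun t => by
      refine (((hc t).smul_const E).add ((hs t).smul_const F)).congr_deriv ?_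
      rw [br_add_right, br_smul_right, br_smul_right, h.1, h.2]
      module) 1
    simpa using this.symm
  · have := hH.ode (y := fun s => Real.cos (s * a) • F - Real.sin (s * a) • E) (fun t => by
      refine (((hc t).smul_const F).sub ((hs t).smul_const E)).congr_deriv ?_
      rw [br_sub_right, br_smul_right, br_smul_right, h.1, h.2]
      module) 1
    simpa using this.symm

/-- weights are integers when `exp (2 π H) = 1` -/
theorem WP.int {H E F : A} {a : ℝ} (h : WP H E F a) (hH : Skew H)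
    (he : exp ((2 * Real.pi) • H) = 1) (hne : E ≠ 0 ∨ F ≠ 0) : ∃ m : ℤ, a = m := by
  obtain ⟨h1, h2⟩ := (h.smul (2 * Real.pi)).rot (hH.smul _)
  rw [he, Ad_one] at h1 h2
  set c := Real.cos (2 * Real.pi * a)
  set s := Real.sin (2 * Real.pi * a) with hs
  have hcs : s ^ 2 + c ^ 2 = 1 := Real.sin_sq_add_cos_sq _
  have e1 : (2 - 2 * c) • E = 0 := by
    have : (2 - 2 * c) • E = ((1 - c) ^ 2 + s ^ 2) • E := by congr 1; linarith
    rw [this]
    linear_combination (norm := module) (1 - c) • h1 + s • h2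
  have e2 : (2 - 2 * c) • F = 0 := by
    have : (2 - 2 * c) • F = ((1 - c) ^ 2 + s ^ 2) • F := by congr 1; linarith
    rw [this]
    linear_combination (norm := module) (1 - c) • h2 - s • h1
  have hc : c = 1 := by
    rcases hne with hne | hne
    · linarith [(smul_eq_zero.mp e1).resolve_right hne]
    · linarith [(smul_eq_zero.mp e2).resolve_right hne]
  obtain ⟨m, hm⟩ := (Real.cos_eq_one_iff _).mp hc
  exact ⟨m, by
    have hpi : (2 * Real.pi) ≠ 0 := by positivity
    apply mul_left_cancel₀ hpi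
    linarith⟩

end

end Pool.Agent.P.MP_e311cd_gt
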