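import Pool.Agent.P.MP_e311cd_gt.St

/-! The closed subgroup theorem. -/

namespace Pool.Agent.P.MP_e311cd_gt

open Set NormedSpace Filter Topology Asymptotics
open scoped ENNReal RealInnerProductSpace

namespace ChartP

variable {A : Type} [HS A] {K : Set A} {k : Submodule ℝ A}

theorem exp_int (h : CG K k) {w : A} (hw : exp w ∈ K) (m : ℤ) : exp ((m : ℝ) • w) ∈ K := by
  have h1 : exp (-w) ∈ K := by
    have : star (exp w) = exp (-w) := by
      rw [← mul_one (star _), ← exp_mul_neg w, ← mul_assoc, (h.uni hw).1, one_mul]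
    exact this ▸ h.star hw
  induction m using Int.induction_on with
  | zero => simpa using h.one
  | succ i ih =>
    rw [Int.cast_add, exp_add_smul, Int.cast_one, one_smul]
    exact h.mul ih hw
  | pred i ih =>
    rw [Int.cast_sub, sub_eq_add_neg, exp_add_smul, Int.cast_one, neg_one_smul]
    exact h.mul ih h1

theorem disc (h : CG K k) : ∃ r > 0, ∀ w ∈ kᗮ, ‖w‖ < r → exp w ∈ K → w = 0 := by
  by_contra hc
  push Not at hc
  choose w hw hn he h0 using fun j : ℕ => hc (1 / ((j : ℝ) + 1)) Nat.one_div_pos_of_nat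
  have hp : ∀ j, 0 < ‖w j‖ := fun j => norm_pos_iff.2 (h0 j)
  obtain ⟨u, ⟨hu1, hu2⟩, φ, hφ, hl⟩ :=
    ((isCompact_sphere (0 : A) 1).inter_right k.isClosed_orthogonal).tendsto_subseq
      (x := fun j => ‖w j‖⁻¹ • w j) fun j => ⟨by
        rw [mem_sphere_zero_iff_norm, norm_smul, norm_inv, norm_norm, inv_mul_cancel₀ (hp j).ne'],
        kᗮ.smul_mem _ (hw j)⟩
  have hz : Tendsto (fun j => ‖w (φ j)‖) atTop (𝓝 0) :=
    (squeeze_zero (fun j => norm_nonneg _) (fun j => (hn j).le)
      tendsto_one_div_add_atTop_nhds_zero_nat).comp hφ.tendsto_atTop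
  have hk : u ∈ k := (h.lie u).2 fun t => by
    have h1 : Tendsto (fun j => (⌊t / ‖w (φ j)‖⌋ : ℝ) * ‖w (φ j)‖) atTop (𝓝 t) := by
      refine tendsto_of_tendsto_of_tendsto_of_le_of_le (g := fun j => t - ‖w (φ j)‖)
        (by simpa using hz.const_sub t) tendsto_const_nhds (fun j => ?_) fun j => ?_
      · have := (div_lt_iff₀ (hp (φ j))).1 (Int.lt_floor_add_one (t / ‖w (φ j)‖))
        dsimp only
        linarith
      · exact (le_div_iff₀ (hp (φ j))).1 (Int.floor_le _)
    refine h.closed.mem_of_tendsto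
      (((contDiff_exp' (m := 0)).continuous.tendsto _).comp (h1.smul hl))
      (Eventually.of_forall fun j => ?_)
    simp only [Function.comp, smul_smul, mul_inv_cancel_right₀ (hp (φ j)).ne']
    exact exp_int h (he _) _
  have := inner_self_eq_zero.1 (hu2 u hk)
  simp [this] at hu1

end ChartP

theorem chart : S_Chart := by
  intro A _ K k h ε hε
  obtain ⟨r, hr, hd⟩ := ChartP.disc h
  have e0 := hasStrictFDerivAt_exp_zero (𝕂 := ℝ) (𝔸 := A)
  have e1 : ∀ P : A →L[ℝ] A, HasStrictFDerivAt (fun v => exp (P v)) P 0 := fun P => by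
    have := HasStrictFDerivAt.comp (0 : A) (g := exp) (f := P) (by rw [map_zero]; exact e0)
      P.hasStrictFDerivAt
    exact this
  have e2 := ((e1 k.starProjection).mul' (e1 kᗮ.starProjection)).map_nhds_eq_of_surj (by
    rw [LinearMap.range_eq_top]
    intro v
    exact ⟨v, by simp⟩)
  have e3 := image_mem_map (m := fun v => exp (k.starProjection v) * exp (kᗮ.starProjection v))
    (Metric.ball_mem_nhds (0 : A) (lt_min hε hr))
  erw [e2] at e3
  obtain ⟨δ, hδ, hs⟩ := Metric.mem_nhds_iff.1 e3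
  refine ⟨δ, hδ, fun x hx hx1 => ?_⟩
  obtain ⟨v, hv, rfl⟩ := hs (a := x) (by simpa [dist_eq_norm] using hx1)
  rw [mem_ball_zero_iff, lt_min_iff] at hv
  have m1 := k.starProjection_apply_mem v
  have h1 := h.mul (h.exp_mem (k.neg_mem m1)) hx
  rw [← mul_assoc, exp_neg_mul, one_mul] at h1
  have h2 := hd _ (kᗮ.starProjection_apply_mem v)
    ((kᗮ.norm_starProjection_apply_le v).trans_lt hv.2) h1
  exact ⟨_, m1, (k.norm_starProjection_apply_le v).trans_lt hv.1, by simp only [h2]; simp⟩

end Pool.Agent.P.MP_e311cd_gt
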