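import Pool.Agent.P.MP_e311cd_gt.Base

/-! Matrices as an instance of the abstract setting. -/

namespace Pool.Agent.P.MP_e311cd_gt

open Set NormedSpace
open scoped ENNReal Matrix Matrix.Norms.Frobenius RealInnerProductSpace

noncomputable section

/-- the length distance in `K` -/
def cd {A : Type} [HS A] (K : Set A) (x y : A) : ℝ≥0∞ :=
  ⨅ (γ : ℝ → A) (_ : ContDiff ℝ 1 γ) (_ : γ 0 = x) (_ : γ 1 = y)
    (_ : ∀ t ∈ Icc (0 : ℝ) 1, γ t ∈ K), ENNReal.ofReal (∫ t in (0 : ℝ)..1, ‖deriv γ t‖)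

variable {n : ℕ}

theorem norm_sq_ip (X : Mat n) : ‖X‖ ^ 2 = ip X X := by
  rw [Matrix.frobenius_norm_def, ← Real.sqrt_eq_rpow, Real.sq_sqrt (by positivity), ip,
    Matrix.trace, Complex.re_sum, Finset.sum_comm]
  refine Finset.sum_congr rfl fun j _ => ?_
  rw [Matrix.diag_apply, Matrix.mul_apply, Complex.re_sum]
  refine Finset.sum_congr rfl fun i _ => ?_
  rw [Matrix.conjTranspose_apply, Real.rpow_two, Complex.sq_norm, Complex.normSq_apply]
  simp

instance instHS (n : ℕ) : HS (Mat n) where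
  toNormedRing := Matrix.frobeniusNormedRing
  toStarRing := Matrix.instStarRing
  toNormedAlgebra := Matrix.frobeniusNormedAlgebra
  toStarModule := inferInstance
  inner := ip
  fin := inferInstanceAs (FiniteDimensional ℝ (Matrix (Fin n) (Fin n) ℂ))
  norm_sq := norm_sq_ip
  inner_symm X Y := by
    have : (Xᴴ * Y).trace = star (Yᴴ * X).trace := by
      rw [← Matrix.trace_conjTranspose, Matrix.conjTranspose_mul, Matrix.conjTranspose_conjTranspose]
    simp [ip, this]
  inner_add X Y Z := by simp [ip, add_mul]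
  inner_smul r X Y := by simp [ip, Matrix.conjTranspose_smul]
  mul_left a X Y := by simp [ip, Matrix.star_eq_conjTranspose, mul_assoc]
  mul_right a X Y := by
    simp only [ip, Matrix.star_eq_conjTranspose, Matrix.conjTranspose_mul]
    rw [mul_assoc, Matrix.trace_mul_comm, mul_assoc]

theorem ip_eq (X Y : Mat n) : ip X Y = ⟪X, Y⟫ := rfl

variable {K : Subgroup (Matrix.unitaryGroup (Fin n) ℂ)} {k : Submodule ℝ (Mat n)}

/-- the set of matrices of `K` -/
def KK (K : Subgroup (Matrix.unitaryGroup (Fin n) ℂ)) : Set (Mat n) := range (mat : K → Mat n)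

theorem mat_mem (x : K) : mat x ∈ KK K := ⟨x, rfl⟩
theorem mat_inj : Function.Injective (mat : K → Mat n) := fun _ _ h => Subtype.ext (Subtype.ext h)
theorem mat_one : mat (1 : K) = 1 := rfl
theorem mat_mul (x y : K) : mat (x * y) = mat x * mat y := rfl
theorem mat_inv (x : K) : mat x⁻¹ = star (mat x) := rfl
theorem mat_uni (x : K) : Uni (mat x) := x.1.2

theorem gdist_eq (x y : K) : gdist x y = cd (KK K) (mat x) (mat y) := by
  have : ∀ X : Mat n, √(ip X X) = ‖X‖ := fun X => by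
    rw [← norm_sq_ip, Real.sqrt_sq (norm_nonneg _)]
  simp only [gdist, this]
  rfl

theorem IsSimpleGroup.cg (h : IsSimpleGroup K k) : CG (KK K) k := by
  have e : KK K = Subtype.val '' (K : Set (Matrix.unitaryGroup (Fin n) ℂ)) := by
    ext X
    exact ⟨fun ⟨x, hx⟩ => ⟨x.1, x.2, hx⟩, fun ⟨x, hx, e⟩ => ⟨⟨x, hx⟩, e⟩⟩
  refine ⟨mat_mem 1, ?_, ?_, ?_, ?_, ?_, h.lie⟩
  · rintro _ _ ⟨x, rfl⟩ ⟨y, rfl⟩
    exact mat_mem (x * y)
  · rintro _ ⟨x, rfl⟩
    exact mat_mem x⁻¹
  · rintro _ ⟨x, rfl⟩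
    exact mat_uni x
  · rw [e]
    exact (isClosed_unitary (R := Mat n)).isClosedEmbedding_subtypeVal.isClosedMap _ h.closed
  · rw [e]
    exact h.conn.isPreconnected.image _ continuous_subtype_val.continuousOn

theorem IsSimpleGroup.sa (h : IsSimpleGroup K k) : SA k :=
  ⟨h.cg.skew, h.cg.br_mem, by
    obtain ⟨X, hX, Y, hY, hne⟩ := h.nonab
    exact ⟨X, hX, Y, hY, sub_ne_zero.mpr hne⟩, h.simple⟩

end

end Pool.Agent.P.MP_e311cd_gt
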