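import Mathlib

/-! Compact simple Lie groups as closed subgroups of `U(n)` with the bi-invariant metric
`Re tr (X* Y)`, their finite free quotients, Laplace eigenspaces and isometry. -/

namespace Pool.Agent.P.MP_e311cd_gt

open Set NormedSpace
open scoped ENNReal ContDiff Matrix Matrix.Norms.Frobenius

noncomputable section

/-- complex square matrices -/
abbrev Mat (n : ℕ) : Type := Matrix (Fin n) (Fin n) ℂ

variable {n : ℕ}

/-- the Euclidean inner product `Re tr (X* Y)` -/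
def ip (X Y : Mat n) : ℝ := (Xᴴ * Y).trace.re

/-- the matrix of a group element -/
def mat {K : Subgroup (Matrix.unitaryGroup (Fin n) ℂ)} (x : K) : Mat n := x.1.1

/-- `K` is a compact connected simple Lie group with Lie algebra `k` -/
structure IsSimpleGroup (K : Subgroup (Matrix.unitaryGroup (Fin n) ℂ))
    (k : Submodule ℝ (Mat n)) : Prop where
  closed : IsClosed (K : Set (Matrix.unitaryGroup (Fin n) ℂ))
  conn : IsConnected (K : Set (Matrix.unitaryGroup (Fin n) ℂ))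
  lie : ∀ X, X ∈ k ↔ ∀ t : ℝ, ∃ x : K, mat x = exp (t • X)
  nonab : ∃ X ∈ k, ∃ Y ∈ k, X * Y ≠ Y * X
  simple : ∀ J : Submodule ℝ (Mat n), J ≤ k → (∀ X ∈ k, ∀ Y ∈ J, X * Y - Y * X ∈ J) →
    J = ⊥ ∨ J = k

variable {K : Subgroup (Matrix.unitaryGroup (Fin n) ℂ)}

/-- Riemannian distance of the bi-invariant metric: infimum of the lengths of `C¹` curves -/
def gdist (x y : K) : ℝ≥0∞ :=
  ⨅ (γ : ℝ → Mat n) (_ : ContDiff ℝ 1 γ) (_ : γ 0 = mat x) (_ : γ 1 = mat y)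
    (_ : ∀ t ∈ Icc (0 : ℝ) 1, ∃ z : K, mat z = γ t),
    ENNReal.ofReal (∫ t in (0 : ℝ)..1, √(ip (deriv γ t) (deriv γ t)))

/-- a finite group of isometries acting freely -/
structure IsDeck (Γ : Subgroup (Equiv.Perm K)) : Prop where
  finite : Finite Γ
  isom : ∀ g ∈ Γ, ∀ x y, gdist (g x) (g y) = gdist x y
  free : ∀ g ∈ Γ, ∀ x, g x = x → g = 1

/-- the quotient manifold -/
abbrev Quo (Γ : Subgroup (Equiv.Perm K)) : Type := MulAction.orbitRel.Quotient Γ K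

/-- Riemannian distance of the quotient -/
def qdist (Γ : Subgroup (Equiv.Perm K)) (p q : Quo Γ) : ℝ≥0∞ :=
  ⨅ (x : K) (y : K) (_ : Quotient.mk'' x = p) (_ : Quotient.mk'' y = q), gdist x y

/-- the two quotients are isometric -/
def Isometric (Γ₁ Γ₂ : Subgroup (Equiv.Perm K)) : Prop :=
  ∃ φ : Quo Γ₁ ≃ Quo Γ₂, ∀ p q, qdist Γ₂ (φ p) (φ q) = qdist Γ₁ p q

/-- `X` is an orthonormal basis of `k` -/
def IsONB (k : Submodule ℝ (Mat n)) {m : ℕ} (X : Fin m → Mat n) : Prop :=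
  Submodule.span ℝ (range X) = k ∧ ∀ i j, ip (X i) (X j) = if i = j then 1 else 0

/-- `f` is smooth and `-Δ f = μ f`, where `Δ = ∑ Xᵢ²` for an orthonormal basis of left invariant
vector fields -/
def IsEigen (k : Submodule ℝ (Mat n)) (μ : ℝ) (f : K → ℂ) : Prop :=
  ∃ F : Mat n → ℂ, ContDiff ℝ ∞ F ∧ (∀ x, f x = F (mat x)) ∧
    ∀ (m : ℕ) (X : Fin m → Mat n), IsONB k X → ∀ x,
      -∑ i, iteratedDeriv 2 (fun t : ℝ => F (mat x * exp (t • X i))) 0 = μ * f x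

/-- the `μ`-eigenspace of the Laplacian of the quotient -/
def Eig (k : Submodule ℝ (Mat n)) (Γ : Subgroup (Equiv.Perm K)) (μ : ℝ) : Submodule ℂ (K → ℂ) :=
  Submodule.span ℂ {f | IsEigen k μ f ∧ ∀ g ∈ Γ, ∀ x, f (g x) = f x}

/-- same eigenvalues with the same multiplicities -/
def Isospectral (k : Submodule ℝ (Mat n)) (Γ₁ Γ₂ : Subgroup (Equiv.Perm K)) : Prop :=
  ∀ μ : ℝ, Module.rank ℂ (Eig k Γ₁ μ) = Module.rank ℂ (Eig k Γ₂ μ)

/-- `K` with its bi-invariant metric covers isospectral manifolds -/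
def Covers (K : Subgroup (Matrix.unitaryGroup (Fin n) ℂ)) (k : Submodule ℝ (Mat n)) : Prop :=
  ∃ Γ₁ Γ₂ : Subgroup (Equiv.Perm K), IsDeck Γ₁ ∧ IsDeck Γ₂ ∧ Isospectral k Γ₁ Γ₂ ∧
    ¬Isometric Γ₁ Γ₂

end

end Pool.Agent.P.MP_e311cd_gt
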