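import Pool.Agent.P.MP_e311cd_gt.St

/-! The Riemannian distance: invariance, chords, short geodesics. -/

namespace Pool.Agent.P.MP_e311cd_gt

open Set NormedSpace Filter Topology Asymptotics
open scoped ENNReal RealInnerProductSpace

noncomputable section

namespace DistP

variable {A : Type} [HS A] {K : Set A} {k : Submodule ℝ A}

theorem cd_le {x y : A} {γ : ℝ → A} (h : ContDiff ℝ 1 γ) (h0 : γ 0 = x) (h1 : γ 1 = y)
    (hK : ∀ t ∈ Icc (0 : ℝ) 1, γ t ∈ K) :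
    cd K x y ≤ ENNReal.ofReal (∫ t in (0 : ℝ)..1, ‖deriv γ t‖) :=
  iInf_le_of_le γ (iInf_le_of_le h (iInf_le_of_le h0 (iInf_le_of_le h1 (iInf_le _ hK))))

theorem le_cd {x y : A} {c : ℝ≥0∞} (h : ∀ γ : ℝ → A, ContDiff ℝ 1 γ → γ 0 = x → γ 1 = y →
    (∀ t ∈ Icc (0 : ℝ) 1, γ t ∈ K) → c ≤ ENNReal.ofReal (∫ t in (0 : ℝ)..1, ‖deriv γ t‖)) :
    c ≤ cd K x y :=
  le_iInf fun γ => le_iInf fun a => le_iInf fun b => le_iInf fun d => le_iInf fun e => h γ a b d e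

theorem tr_le (h : CG K k) {a b : A} (ha : a ∈ K) (hb : b ∈ K) (x y : A) :
    cd K (a * x * b) (a * y * b) ≤ cd K x y := by
  refine le_cd fun γ hγ h0 h1 hK => ?_
  refine (cd_le (γ := fun t => a * γ t * b) ((contDiff_const.mul hγ).mul contDiff_const)
    (by rw [h0]) (by rw [h1]) fun t ht => h.mul (h.mul ha (hK t ht)) hb).trans_eq ?_
  congr 2
  funext t
  have hd := (((hγ.differentiable one_ne_zero t).hasDerivAt.const_mul a).mul_const b).deriv
  rw [hd, (h.uni hb).norm_right, (h.uni ha).norm_left]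

theorem tr_eq (h : CG K k) {a b : A} (ha : a ∈ K) (hb : b ∈ K) (x y : A) :
    cd K (a * x * b) (a * y * b) = cd K x y := by
  refine le_antisymm (tr_le h ha hb x y) ?_
  have e : ∀ z, star a * (a * z * b) * star b = z := fun z => by
    rw [← mul_assoc, ← mul_assoc, (h.uni ha).1, one_mul, mul_assoc, (h.uni hb).2, mul_one]
  have := tr_le h (h.star ha) (h.star hb) (a * x * b) (a * y * b)
  rwa [e, e] at this

theorem chord (x y : A) : ENNReal.ofReal ‖x - y‖ ≤ cd K x y := by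
  refine le_cd fun γ hγ h0 h1 _ => ENNReal.ofReal_le_ofReal ?_
  have e : ∫ t in (0 : ℝ)..1, deriv γ t = γ 1 - γ 0 :=
    intervalIntegral.integral_deriv_eq_sub (fun t _ => hγ.differentiable one_ne_zero t)
      ((hγ.continuous_deriv le_rfl).intervalIntegrable _ _)
  rw [norm_sub_rev, ← h0, ← h1, ← e]
  exact intervalIntegral.norm_integral_le_integral_norm zero_le_one

theorem exp_le (h : CG K k) {ξ : A} (hξ : ξ ∈ k) : cd K 1 (exp ξ) ≤ ENNReal.ofReal ‖ξ‖ := by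
  refine (cd_le (γ := fun t : ℝ => exp (t • ξ)) (contDiff_exp_smul ξ) (by simp) (by simp)
    fun t _ => (h.lie ξ).mp hξ t).trans_eq ?_
  have e : ∀ t : ℝ, ‖deriv (fun s : ℝ => exp (s • ξ)) t‖ = ‖ξ‖ := fun t => by
    rw [(hasDerivAt_exp_smul ξ t).deriv, ((h.skew hξ).smul t).uni_exp.norm_left]
  simp [e]

end DistP

open DistP

theorem dist (hG : S_Gauss) : S_Dist := by
  intro A _ K k h
  obtain ⟨ε, hε, hg⟩ := hG A K k h
  refine ⟨fun a ha b hb x y => tr_eq h ha hb x y, chord, ε, hε, fun x hx ξ hξ hn => ?_⟩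
  have e := tr_eq h hx h.one 1 (exp ξ)
  rw [mul_one, mul_one, mul_one] at e
  rw [e]
  refine le_antisymm (exp_le h hξ) (le_cd fun γ hγ h0 h1 hK => ENNReal.ofReal_le_ofReal ?_)
  have := hg 0 k.zero_mem ξ hξ (by simpa using hε) hn γ hγ (by simpa using h0) h1 hK
  simpa using this

theorem lr (hC : S_Chart) (hD : S_Dist) : S_LR := by
  intro A _ K k h R ε hε hm hex hun
  obtain ⟨-, hch, ε₁, hε₁, hd⟩ := hD A K k h
  obtain ⟨δ, hδ, hc⟩ := hC A K k h ε₁ hε₁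
  refine ⟨min ε (min ε₁ δ), lt_min hε (lt_min hε₁ hδ), fun {x z} r => hm x z r,
    fun {x z ξ} r hξ hn => ?_, fun {x z z'} r r' hn => hun x z z' r r' (hn.trans_le (min_le_left _ _))⟩
  obtain ⟨hx, hz⟩ := hm x z r
  obtain ⟨n1, n2, n3⟩ : ‖ξ‖ < ε ∧ ‖ξ‖ < ε₁ ∧ ‖ξ‖ < δ := by simpa only [lt_min_iff] using hn
  have d1 := hd x hx ξ hξ n2
  obtain ⟨w, rw', hw⟩ := hex x z _ (h.mul hx (h.exp_mem hξ)) r
    (by rw [d1]; exact (ENNReal.ofReal_lt_ofReal_iff hε).mpr n1)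
  have hwK := (hm _ _ rw').2
  have c1 : ‖z - w‖ ≤ ‖ξ‖ := by
    have := hch z w
    rwa [hw, d1, ENNReal.ofReal_le_ofReal_iff (norm_nonneg _)] at this
  have c2 : ‖star z * w - 1‖ < δ := by
    rw [← (h.uni hz).1, (h.uni hz).star.norm_sub_left, norm_sub_rev]
    exact c1.trans_lt n3
  obtain ⟨η, hη, hηn, he⟩ := hc _ (h.mul (h.star hz) hwK) c2
  have e : z * exp η = w := by rw [he, ← mul_assoc, (h.uni hz).2, one_mul]
  refine ⟨η, hη, ?_, e ▸ rw'⟩
  have d2 := hd z hz η hη hηn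
  rw [e, hw, d1] at d2
  exact ((ENNReal.ofReal_eq_ofReal_iff (norm_nonneg _) (norm_nonneg _)).mp d2).symm

end

end Pool.Agent.P.MP_e311cd_gt
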