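import Pool.Agent.P.MP_e311cd_gt.St

/-! The Gauss lemma: curves in `K` are at least as long as the change of the radius. -/

namespace Pool.Agent.P.MP_e311cd_gt

open Set NormedSpace Filter Topology Asymptotics
open scoped ENNReal RealInnerProductSpace

namespace GaussP

variable {A : Type} [HS A]

/-- the radius changes by at most the chord, up to second order -/
theorem loc {a b : A} (ha : Skew a) (hb : Skew b) (h : ‖a - b‖ ≤ 2 * ‖exp a - exp b‖) :
    ‖b‖ ≤ ‖a‖ + ‖exp a - exp b‖ + 4 * ‖exp a - exp b‖ ^ 2 := by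
  set s := ‖exp a - exp b‖ with hs
  have hs0 : 0 ≤ s := norm_nonneg _
  rcases (norm_nonneg b).eq_or_lt with h0 | h0
  · rw [← h0]; positivity
  have h1 := (abs_le.1 (hb.duhamel ha)).2
  have h2 : ‖exp (-b) * exp a - 1‖ = s := by
    rw [← exp_neg_mul b, hb.neg.uni_exp.norm_sub_left]
  have h3 := (abs_le.1 (abs_real_inner_le_norm b (exp (-b) * exp a - 1))).1
  have h4 := real_inner_le_norm b a
  have h5 : ‖a - b‖ ^ 2 ≤ (2 * s) ^ 2 := by gcongr
  have h6 : ‖b‖ * ‖a - b‖ ^ 2 ≤ ‖b‖ * (2 * s) ^ 2 := by gcongr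
  rw [h2] at h3
  rw [inner_sub_right b a b, real_inner_self_eq_norm_sq] at h1
  refine le_of_mul_le_mul_left ?_ h0
  nlinarith

/-- `c` bounds the truncated radius of `y` -/
def Rad (k : Submodule ℝ A) (r : ℝ) (y : A) (c : ℝ) : Prop :=
  r ≤ c ∨ ∃ ξ ∈ k, ‖ξ‖ < r ∧ exp ξ = y ∧ ‖ξ‖ ≤ c

theorem step {K : Set A} {k : Submodule ℝ A} (hK : CG K k) {e d r : ℝ}
    (he : ∀ X Y : A, ‖X‖ < e → ‖Y‖ < e → ‖X - Y‖ ≤ 2 * ‖exp X - exp Y‖)
    (hd : ∀ x ∈ K, ‖x - 1‖ < d → ∃ ξ ∈ k, ‖ξ‖ < e ∧ exp ξ = x) (hr : r ≤ d / 2) (hr' : r ≤ e)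
    {y y' : A} {c c' : ℝ} (hy' : y' ∈ K) (hs : ‖y - y'‖ < d / 2) (h : Rad k r y c)
    (hc : c + ‖y - y'‖ + 4 * ‖y - y'‖ ^ 2 ≤ c') : Rad k r y' c' := by
  have h0 := norm_nonneg (y - y')
  rcases h with h | ⟨ξ, hξ, h1, rfl, h2⟩
  · exact Or.inl (by nlinarith)
  have h3 : ‖y' - 1‖ < d := by
    have h4 := (hK.skew hξ).norm_exp_sub_one
    have h5 := norm_sub_le (exp ξ - 1) (exp ξ - y')
    rw [show exp ξ - 1 - (exp ξ - y') = y' - 1 by abel] at h5
    linarith
  obtain ⟨η, hη, h4, rfl⟩ := hd y' hy' h3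
  have h5 := loc (hK.skew hξ) (hK.skew hη) (he ξ η (h1.trans_le hr') h4)
  rcases lt_or_ge ‖η‖ r with h6 | h6
  · exact Or.inr ⟨η, hη, h6, rfl, by linarith⟩
  · exact Or.inl (by linarith)

theorem chord {γ : ℝ → A} (hγ : ContDiff ℝ 1 γ) {a b : ℝ} (hab : a ≤ b) :
    ‖γ a - γ b‖ ≤ ∫ t in a..b, ‖deriv γ t‖ := by
  have h1 : ∫ t in a..b, deriv γ t = γ b - γ a :=
    intervalIntegral.integral_deriv_eq_sub (fun t _ => hγ.differentiable one_ne_zero t)
      ((hγ.continuous_deriv le_rfl).intervalIntegrable _ _)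
  rw [norm_sub_rev, ← h1]
  exact intervalIntegral.norm_integral_le_integral_norm hab

end GaussP

open GaussP in
theorem gauss (h : S_Chart) : S_Gauss := by
  intro A _ K k hK
  obtain ⟨e, he0, he⟩ := exp_lower A
  obtain ⟨d, hd0, hd⟩ := h A K k hK e he0
  refine ⟨min (d / 2) e, by positivity, ?_⟩
  intro ξ hξ η hη h1 h2 γ hγ g0 g1 hm
  have hc : Continuous fun t => ‖deriv γ t‖ := (hγ.continuous_deriv le_rfl).norm
  have key : ∀ δ > 0, ‖η‖ ≤ ‖ξ‖ + (1 + 4 * δ) * ∫ t in (0 : ℝ)..1, ‖deriv γ t‖ := by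
    intro δ hδ
    obtain ⟨θ, hθ, hu⟩ := Metric.uniformContinuousOn_iff.1
      (isCompact_Icc.uniformContinuousOn_of_continuous
        (hγ.continuous.continuousOn (s := Icc (0 : ℝ) 1))) (min (d / 2) δ) (by positivity)
    obtain ⟨m, hm1⟩ := exists_nat_one_div_lt hθ
    have hm0 : (0 : ℝ) < (m : ℝ) + 1 := by positivity
    have ind : ∀ j : ℕ, j ≤ m + 1 → Rad k (min (d / 2) e) (γ (j / (m + 1)))
        (‖ξ‖ + (1 + 4 * δ) * ∫ t in (0 : ℝ)..(j / (m + 1)), ‖deriv γ t‖) := by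
      intro j
      induction j with
      | zero => exact fun _ => Or.inr ⟨ξ, hξ, h1, by simp [g0], by simp⟩
      | succ j ih =>
        intro hj
        have hj' : ((j + 1 : ℕ) : ℝ) ≤ (m : ℝ) + 1 := by exact_mod_cast hj
        have hab : (j : ℝ) / (m + 1) ≤ ((j + 1 : ℕ) : ℝ) / (m + 1) := by
          gcongr; exact Nat.le_succ j
        have hb : ((j + 1 : ℕ) : ℝ) / (m + 1) ∈ Icc (0 : ℝ) 1 :=
          ⟨by positivity, (div_le_one hm0).2 hj'⟩
        have ha : (j : ℝ) / (m + 1) ∈ Icc (0 : ℝ) 1 := ⟨by positivity, hab.trans hb.2⟩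
        have hs := hu _ ha _ hb (by
          rw [Real.dist_eq, abs_sub_comm, ← sub_div, Nat.cast_succ, add_sub_cancel_left,
            abs_of_pos (by positivity)]
          exact hm1)
        rw [dist_eq_norm, lt_min_iff] at hs
        refine step hK he hd (min_le_left _ _) (min_le_right _ _) (hm _ hb) hs.1
          (ih (Nat.le_of_succ_le hj)) ?_
        rw [← intervalIntegral.integral_add_adjacent_intervals (b := (j : ℝ) / (m + 1))
          (c := ((j + 1 : ℕ) : ℝ) / (m + 1)) (hc.intervalIntegrable _ _)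
          (hc.intervalIntegrable _ _)]
        have h3 := chord hγ hab
        have h4 := norm_nonneg (γ (j / (m + 1)) - γ (((j + 1 : ℕ) : ℝ) / (m + 1)))
        have h5 := mul_le_mul_of_nonneg_left hs.2.le h4
        have h6 := mul_le_mul_of_nonneg_left h3 (show 0 ≤ 1 + 4 * δ by positivity)
        nlinarith
    have h3 := ind (m + 1) le_rfl
    rw [Nat.cast_succ, div_self hm0.ne', g1] at h3
    rcases h3 with h3 | ⟨ζ, -, h4, h5, h6⟩
    · exact h2.le.trans h3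
    · have h7 := he ζ η (h4.trans_le (min_le_right _ _)) (h2.trans_le (min_le_right _ _))
      rw [h5, sub_self, norm_zero, mul_zero, norm_le_zero_iff, sub_eq_zero] at h7
      exact h7 ▸ h6
  have hI : 0 ≤ ∫ t in (0 : ℝ)..1, ‖deriv γ t‖ :=
    intervalIntegral.integral_nonneg zero_le_one fun _ _ => norm_nonneg _
  set I := ∫ t in (0 : ℝ)..1, ‖deriv γ t‖
  refine le_of_forall_pos_le_add fun ε hε => (key (ε / (4 * (I + 1))) (by positivity)).trans ?_
  have h3 : 4 * (ε / (4 * (I + 1))) * I ≤ ε := by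
    rw [show 4 * (ε / (4 * (I + 1))) * I = ε * (I / (I + 1)) by field_simp]
    exact mul_le_of_le_one_right hε.le ((div_le_one (by positivity)).2 (by linarith))
  linarith

end Pool.Agent.P.MP_e311cd_gt
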