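import Pool.Agent.P.MP_e311cd_gt.St

/-! Halving and symmetry of a locally isometric correspondence; exponential coordinates. -/

namespace Pool.Agent.P.MP_e311cd_gt

open Set NormedSpace Filter Topology Asymptotics
open scoped ENNReal RealInnerProductSpace

noncomputable section

namespace HalfP

variable {A : Type} [HS A]

theorem norm_mul_sub_one {a b : A} (ha : Uni a) : ‖a * b - 1‖ ≤ ‖a - 1‖ + ‖b - 1‖ := by
  have e : a * b - 1 = (a - 1) + (a * b - a * 1) := by noncomm_ring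
  rw [e]
  refine (norm_add_le _ _).trans ?_
  rw [ha.norm_sub_left]

theorem norm_sub_le' (a b : A) : ‖a - b‖ ≤ ‖a - 1‖ + ‖b - 1‖ := by
  have e : a - b = (a - 1) - (b - 1) := by abel
  rw [e]
  exact norm_sub_le _ _

theorem norm_exp2 {X Y : A} (hX : Skew X) (hY : Skew Y) :
    ‖exp X * exp Y - 1‖ ≤ ‖X‖ + ‖Y‖ :=
  (norm_mul_sub_one hX.uni_exp).trans (add_le_add hX.norm_exp_sub_one hY.norm_exp_sub_one)

theorem exp_half_half (X : A) : exp ((1 / 2 : ℝ) • X) * exp ((1 / 2 : ℝ) • X) = exp X := by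
  rw [← exp_add_smul]
  norm_num

theorem exp_neg_two (X : A) : exp (-X) * exp ((2 : ℝ) • X) = exp X := by
  rw [← neg_one_smul ℝ X, ← exp_add_smul]
  norm_num

theorem norm_half (X : A) : ‖(1 / 2 : ℝ) • X‖ = ‖X‖ / 2 := by
  rw [norm_smul, Real.norm_eq_abs, abs_of_pos (by norm_num : (0 : ℝ) < 1 / 2)]
  ring

theorem norm_two (X : A) : ‖(2 : ℝ) • X‖ = 2 * ‖X‖ := by
  rw [norm_smul, Real.norm_eq_abs, abs_of_pos (by norm_num : (0 : ℝ) < 2)]

/-- uniqueness after a common unitary left factor -/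
theorem un' {K : Set A} {k : Submodule ℝ A} {R : A → A → Prop} {ε : ℝ} (h : LR K k R ε)
    {x w a b : A} (hw : Uni w) (h1 : R x (w * a)) (h2 : R x (w * b))
    (hab : ‖a - 1‖ + ‖b - 1‖ < ε) : a = b := by
  refine hw.left_cancel (h.un h1 h2 ?_)
  rw [hw.norm_sub_left]
  exact (norm_sub_le' a b).trans_lt hab

end HalfP

open HalfP

theorem half (hM : S_Mid) : S_Half := by
  intro A _ K k hK R ε hR
  obtain ⟨εM, hεM, hmid⟩ := hM A K k hK
  have hε := hR.pos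
  refine ⟨min (ε / 4) (εM / 2), by positivity, fun x z ξ hξ η hη hxz hlt hn hxe => ?_⟩
  have hl1 : ‖ξ‖ < ε / 4 := hlt.trans_le (min_le_left _ _)
  have hl2 : ‖ξ‖ < εM / 2 := hlt.trans_le (min_le_right _ _)
  have h0 := norm_nonneg ξ
  have hz : Uni z := hK.uni (hR.mem hxz).2
  have sη := hK.skew hη
  constructor
  · obtain ⟨η', hη', n', r'⟩ := hR.ex hxz (k.neg_mem hξ) (by rw [norm_neg]; linarith)
    rw [norm_neg] at n'
    obtain ⟨Y, hY, nY, rY⟩ := hR.ex r' (k.smul_mem (2 : ℝ) hξ) (by rw [norm_two]; linarith)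
    rw [norm_two] at nY
    rw [mul_assoc, exp_neg_two, mul_assoc] at rY
    have e : exp η' * exp Y = exp η := un' hR hz rY hxe (by
      have h1 := norm_exp2 (hK.skew hη') (hK.skew hY)
      have h2 := sη.norm_exp_sub_one
      linarith)
    have e' : exp (-η') * exp η = exp Y := by
      rw [← e, ← mul_assoc, exp_neg_mul, one_mul]
    obtain ⟨m1, m2⟩ := hmid (-η') (k.neg_mem hη') η hη Y hY (by linarith)
      (by rw [norm_neg]; linarith) (by linarith) e'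
    have : η' = -η := by rw [m2, ← m1, neg_neg]
    rwa [this] at r'
  · have hξ2 := k.smul_mem (1 / 2 : ℝ) hξ
    have hn2 : ‖(1 / 2 : ℝ) • ξ‖ < ε := by rw [norm_half]; linarith
    obtain ⟨M, hMk, nM, rM⟩ := hR.ex hxz hξ2 hn2
    obtain ⟨M', hM', nM', rM'⟩ := hR.ex rM hξ2 hn2
    rw [norm_half] at nM nM'
    rw [mul_assoc, exp_half_half, mul_assoc] at rM'
    have e : exp M * exp M' = exp η := un' hR hz rM' hxe (by
      have h1 := norm_exp2 (hK.skew hMk) (hK.skew hM')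
      have h2 := sη.norm_exp_sub_one
      linarith)
    obtain ⟨m1, -⟩ := hmid M hMk M' hM' η hη (by linarith) (by linarith) (by linarith) e
    rwa [m1] at rM

theorem lin1 (hC : S_Chart) (hH : S_Half) : S_Lin1 := by
  intro A _ K k hK R ε hR h11
  classical
  obtain ⟨ε₁, hε₁, hhalf⟩ := hH A K k hK R ε hR
  obtain ⟨e0, he0, hlow⟩ := exp_lower A
  have hε := hR.pos
  set ε₂ := min (ε / 4) (min e0 ε₁) with hε₂
  have hε₂0 : 0 < ε₂ := by positivity
  have a1 : ε₂ ≤ ε / 4 := min_le_left _ _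
  have a2 : ε₂ ≤ e0 := (min_le_right _ _).trans (min_le_left _ _)
  have a3 : ε₂ ≤ ε₁ := (min_le_right _ _).trans (min_le_right _ _)
  obtain ⟨δ, hδ, hch⟩ := hC A K k hK ε₂ hε₂0
  have hex : ∀ ξ : A, ∃ η : A, ξ ∈ k → ‖ξ‖ < ε →
      η ∈ k ∧ ‖η‖ = ‖ξ‖ ∧ R (exp ξ) (exp η) := fun ξ => by
    by_cases h : ξ ∈ k ∧ ‖ξ‖ < ε
    · obtain ⟨η, h1, h2, h3⟩ := hR.ex h11 h.1 h.2
      rw [one_mul, one_mul] at h3
      exact ⟨η, fun _ _ => ⟨h1, h2, h3⟩⟩
    · exact ⟨0, fun h1 h2 => absurd ⟨h1, h2⟩ h⟩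
  choose d hd using hex
  set ε' := min ε₂ (δ / 2) with hε'
  have b1 : ε' ≤ ε₂ := min_le_left _ _
  have b2 : ε' ≤ δ / 2 := min_le_right _ _
  have hd' : ∀ ξ ∈ k, ‖ξ‖ < ε' → d ξ ∈ k ∧ ‖d ξ‖ = ‖ξ‖ ∧ R (exp ξ) (exp (d ξ)) :=
    fun ξ h1 h2 => hd ξ h1 (by linarith)
  have un1 : ∀ {x a b : A}, R x a → R x b → ‖a - 1‖ + ‖b - 1‖ < ε → a = b :=
    fun h1 h2 h3 => hR.un h1 h2 ((norm_sub_le' _ _).trans_lt h3)
  have chart2 : ∀ X ∈ k, ∀ Y ∈ k, ‖X‖ < ε' → ‖Y‖ < ε' →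
      ∃ ζ ∈ k, ‖ζ‖ < ε₂ ∧ exp ζ = exp X * exp Y := fun X hX Y hY nX nY =>
    hch _ (hK.mul (hK.exp_mem hX) (hK.exp_mem hY)) (by
      have := norm_exp2 (hK.skew hX) (hK.skew hY)
      linarith)
  refine ⟨d, ε', ⟨by positivity, fun h1 h2 => ⟨(hd' _ h1 h2).1, (hd' _ h1 h2).2.1⟩, ?_, ?_, ?_⟩,
    fun ξ h1 h2 => (hd' ξ h1 h2).2.2⟩
  · intro ξ hξ nξ
    obtain ⟨m, n, r⟩ := hd' ξ hξ nξ
    have h0 := norm_nonneg ξ
    have hξ2 := k.smul_mem (1 / 2 : ℝ) hξ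
    obtain ⟨m2, n2, r2⟩ := hd' _ hξ2 (by rw [norm_half]; linarith)
    rw [norm_half] at n2
    have r3 := (hhalf 1 1 ξ hξ (d ξ) m h11 (by linarith) n (by rwa [one_mul, one_mul])).2
    rw [one_mul, one_mul] at r3
    have n3 : ‖(1 / 2 : ℝ) • d ξ‖ = ‖ξ‖ / 2 := by rw [norm_half, n]
    have e := un1 r2 r3 (by
      have h1 := (hK.skew m2).norm_exp_sub_one
      have h2 := ((hK.skew m).smul (1 / 2 : ℝ)).norm_exp_sub_one
      linarith)
    have := hlow _ _ (show ‖d ((1 / 2 : ℝ) • ξ)‖ < e0 by linarith)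
      (show ‖(1 / 2 : ℝ) • d ξ‖ < e0 by linarith)
    rw [e, sub_self, norm_zero, mul_zero, norm_le_zero_iff] at this
    exact sub_eq_zero.mp this
  · intro ξ η hξ hη nξ nη
    obtain ⟨m, n, r⟩ := hd' ξ hξ nξ
    obtain ⟨m', n', r'⟩ := hd' η hη nη
    obtain ⟨ζ, hζ, nζ, eζ⟩ := chart2 (-ξ) (k.neg_mem hξ) η hη (by rwa [norm_neg]) nη
    have h1 : ‖ζ‖ ≤ 2 * ‖ξ - η‖ := by
      have h2 := hlow ζ 0 (by linarith) (by rwa [norm_zero])
      rw [sub_zero, exp_zero, eζ, ← exp_neg_mul ξ, (hK.skew hξ).neg.uni_exp.norm_sub_left] at h2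
      have h3 := (hK.skew hξ).norm_exp_sub (hK.skew hη)
      rw [norm_sub_rev η ξ] at h3
      linarith
    obtain ⟨ζ', hζ', nζ', rζ⟩ := hR.ex r hζ (by linarith)
    rw [eζ, ← mul_assoc, exp_mul_neg, one_mul] at rζ
    have e := un1 rζ r' (by
      have h2 := norm_exp2 (hK.skew m) (hK.skew hζ')
      have h3 := (hK.skew m').norm_exp_sub_one
      linarith)
    have h4 := hlow (d ξ) (d η) (by linarith) (by linarith)
    have h5 : ‖exp (d ξ) - exp (d η)‖ = ‖exp ζ' - 1‖ := by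
      rw [← e, norm_sub_rev, ← (hK.skew m).uni_exp.norm_sub_left (exp ζ') 1, mul_one]
    have h6 := (hK.skew hζ').norm_exp_sub_one
    linarith
  · intro X Y Z hX hY hZ nX nY nZ e
    obtain ⟨mX, dX, rX⟩ := hd' X hX nX
    obtain ⟨mY, dY, rY⟩ := hd' Y hY nY
    obtain ⟨mZ, dZ, rZ⟩ := hd' Z hZ nZ
    have rY' := (hhalf 1 1 Y hY (d Y) mY h11 (by linarith) dY (by rwa [one_mul, one_mul])).1
    rw [one_mul, one_mul] at rY'
    obtain ⟨ζ, hζ, nζ, eζ⟩ := chart2 (-X) (k.neg_mem hX) (-Y) (k.neg_mem hY)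
      (by rwa [norm_neg]) (by rwa [norm_neg])
    obtain ⟨η, hη, nη, rη⟩ := hR.ex rX hζ (by linarith)
    have rη' := rη
    rw [eζ, ← mul_assoc, exp_mul_neg, one_mul] at rη'
    have e1 : exp (d X) * exp η = exp (-d Y) := un1 rη' rY' (by
      have h2 := norm_exp2 (hK.skew mX) (hK.skew hη)
      have h3 := (hK.skew mY).neg.norm_exp_sub_one
      rw [norm_neg] at h3
      linarith)
    have r2 := (hhalf _ _ ζ hζ η hη rX (by linarith) nη rη).1
    have e2 : exp (-ζ) = exp Y * exp X := by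
      rw [← (hK.skew hζ).star_exp, eζ, star_mul, (hK.skew hX).neg.star_exp,
        (hK.skew hY).neg.star_exp, neg_neg, neg_neg]
    have e3 : exp (-η) = exp (d Y) * exp (d X) := by
      have : exp η = exp (-d X) * exp (-d Y) := by
        rw [← e1, ← mul_assoc, exp_neg_mul, one_mul]
      rw [← (hK.skew hη).star_exp, this, star_mul, (hK.skew mX).neg.star_exp,
        (hK.skew mY).neg.star_exp, neg_neg, neg_neg]
    rw [e2, e3, ← mul_assoc, ← mul_assoc, e] at r2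
    refine un1 r2 rZ ?_
    have h1 : ‖exp (d X) * exp (d Y) * exp (d X) - 1‖ ≤ ‖d X‖ + (‖d Y‖ + ‖d X‖) := by
      rw [mul_assoc]
      exact (norm_mul_sub_one (hK.skew mX).uni_exp).trans
        (add_le_add (hK.skew mX).norm_exp_sub_one (norm_exp2 (hK.skew mY) (hK.skew mX)))
    have h3 := (hK.skew mZ).norm_exp_sub_one
    linarith

end

end Pool.Agent.P.MP_e311cd_gt
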