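import Pool.Agent.P.MP_e311cd_gt.St

/-! An automorphism of the Lie algebra is a local homomorphism; continuation along the group. -/

namespace Pool.Agent.P.MP_e311cd_gt

open Set NormedSpace Filter Topology Asymptotics
open scoped ENNReal RealInnerProductSpace

noncomputable section

namespace HomP

variable {A : Type} [HS A] {K : Set A} {k : Submodule ℝ A}

theorem norm_mul_sub_one {a : A} (ha : Uni a) (b : A) : ‖a * b - 1‖ ≤ ‖a - 1‖ + ‖b - 1‖ := by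
  have e : a * b - 1 = (a - 1) + a * (b - 1) := by noncomm_ring
  rw [e, ← ha.norm_left (b - 1)]
  exact norm_add_le _ _

theorem surj {D : A →ₗ[ℝ] A} (h : Iso k D) {Y : A} (hY : Y ∈ k) : ∃ X ∈ k, D X = Y := by
  have hm : ∀ X ∈ k, D X ∈ k := fun X hX => h.mem hX
  have hi : Function.Injective (D.restrict hm) := by
    rw [injective_iff_map_eq_zero]
    intro X hX
    have e : D X = 0 := congrArg Subtype.val hX
    have := h.norm X.2
    rw [e, norm_zero] at this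
    exact Subtype.ext (norm_eq_zero.mp this.symm)
  obtain ⟨X, hX⟩ := LinearMap.injective_iff_surjective.mp hi ⟨Y, hY⟩
  exact ⟨X, X.2, congrArg Subtype.val hX⟩

theorem itw (hK : CG K k) {θ : A →ₗ[ℝ] A} (hθ : Aut k θ) {ξ : A} (hξ : ξ ∈ k) :
    Itw k θ (exp ξ) (exp (θ ξ)) := by
  intro Y hY
  have hd : ∀ t : ℝ, HasDerivAt (fun s : ℝ => θ (Ad (exp (s • ξ)) Y))
      (br (θ ξ) (θ (Ad (exp (t • ξ)) Y))) t := fun t => by
    have h1 := (LinearMap.toContinuousLinearMap θ).hasFDerivAt.comp_hasDerivAt t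
      ((hK.skew hξ).hasDerivAt_Ad Y t)
    rw [← hθ.map_br hξ (hK.Ad_mem ((hK.lie ξ).mp hξ t) hY)]
    exact h1
  simpa using (hK.skew (hθ.mem hξ)).ode hd 1

/-- an element near `1` that acts trivially on `k` is `1` -/
theorem eq_one (hC : S_Chart) (hK : CG K k) (hk : SA k) :
    ∃ δ > 0, ∀ w ∈ K, ‖w - 1‖ < δ → (∀ Y ∈ k, Ad w Y = Y) → w = 1 := by
  obtain ⟨ε, hε, hinj⟩ := exp_inj A
  obtain ⟨δ, hδ, hch⟩ := hC A K k hK ε hε
  refine ⟨δ, hδ, fun w hw hw1 hAd => ?_⟩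
  obtain ⟨ω, hω, hωε, rfl⟩ := hch w hw hw1
  have h0 : ω = 0 := by
    refine hk.center hω fun Y hY => ?_
    have h1 : ∀ s : ℝ, Ad (exp (s • Y)) ω = ω := fun s => by
      have hs := k.smul_mem s hY
      have hu := (hK.skew hs).uni_exp
      have e := (hK.uni hw).mul_exp (s • Y)
      rw [hAd _ hs] at e
      refine hinj _ _ (by rwa [hu.norm_Ad]) hωε ?_
      rw [← hu.Ad_exp]
      exact hu.Ad_of_commute e.symm
    have h2 := (hK.skew hY).hasDerivAt_Ad ω 0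
    simp only [h1] at h2
    exact h2.unique (hasDerivAt_const _ _)
  rw [h0, exp_zero]

/-- the radius of validity can be taken uniform -/
theorem unif (hH : S_Half) (hK : CG K k) {R : A → A → Prop} {ε : ℝ} (hR : LR K k R ε)
    {θ : A →ₗ[ℝ] A} (hθ : Aut k θ) :
    ∃ e > 0, ∀ x z, (∃ ε' > 0, ∀ ξ ∈ k, ‖ξ‖ < ε' → R (x * exp ξ) (z * exp (θ ξ))) →
      ∀ ξ ∈ k, ‖ξ‖ < e → R (x * exp ξ) (z * exp (θ ξ)) := by
  obtain ⟨ε₀, hε₀, hinj⟩ := exp_inj A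
  obtain ⟨ε₁, hε₁, hh⟩ := hH A K k hK R ε hR
  have hε := hR.pos
  refine ⟨min (ε / 2) (min ε₀ ε₁), by positivity, ?_⟩
  rintro x z ⟨ε', hε', h⟩ ξ hξ hn
  simp only [lt_min_iff] at hn
  obtain ⟨n1, n2, n3⟩ := hn
  have hxz : R x z := by simpa using h 0 k.zero_mem (by simpa using hε')
  obtain ⟨η, hη, hηn, hr⟩ := hR.ex hxz hξ (by linarith)
  have hp : ∀ m : ℕ, 0 < (1 / 2 : ℝ) ^ m ∧ (1 / 2 : ℝ) ^ m ≤ 1 := fun m =>
    ⟨by positivity, pow_le_one₀ (by norm_num) (by norm_num)⟩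
  have hn : ∀ (m : ℕ) (X : A), ‖(1 / 2 : ℝ) ^ m • X‖ = (1 / 2 : ℝ) ^ m * ‖X‖ := fun m X => by
    rw [norm_smul, Real.norm_of_nonneg (hp m).1.le]
  have hle : ∀ (m : ℕ) (X : A), ‖(1 / 2 : ℝ) ^ m • X‖ ≤ ‖X‖ := fun m X => by
    rw [hn]; exact mul_le_of_le_one_left (norm_nonneg _) (hp m).2
  have hm : ∀ m : ℕ, R (x * exp ((1 / 2 : ℝ) ^ m • ξ)) (z * exp ((1 / 2 : ℝ) ^ m • η)) := by
    intro m
    induction m with
    | zero => simpa using hr
    | succ m ih =>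
      have := (hh x z _ (k.smul_mem _ hξ) _ (k.smul_mem _ hη) hxz ((hle m ξ).trans_lt n3)
        (by rw [hn, hn, hηn]) ih).2
      rwa [smul_smul, smul_smul, ← pow_succ'] at this
  obtain ⟨m, hm'⟩ := exists_pow_lt_of_lt_one (x := ε' / (‖ξ‖ + 1)) (y := (1 / 2 : ℝ))
    (by positivity) (by norm_num)
  have hs : ‖(1 / 2 : ℝ) ^ m • ξ‖ < ε' := by
    rw [lt_div_iff₀ (by positivity)] at hm'
    rw [hn]
    nlinarith [(hp m).1]
  have h2 := h _ (k.smul_mem _ hξ) hs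
  rw [map_smul] at h2
  have hz := hK.uni (hR.mem hxz).2
  have hθn := hθ.norm hξ
  have a1 : ‖(1 / 2 : ℝ) ^ m • η‖ ≤ ‖ξ‖ := (hle m η).trans hηn.le
  have a2 : ‖(1 / 2 : ℝ) ^ m • θ ξ‖ ≤ ‖ξ‖ := (hle m _).trans hθn.le
  have h3 := hR.un (hm m) h2 (by
    rw [hz.norm_sub_left]
    refine (((hK.skew (hθ.mem hξ)).smul _).norm_exp_sub ((hK.skew hη).smul _)).trans_lt ?_
    refine (norm_sub_le _ _).trans_lt ?_
    linarith)
  have h4 := hinj _ _ (a1.trans_lt n2) (a2.trans_lt n2) (hz.left_cancel h3)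
  have h5 : η = θ ξ := smul_right_injective A (hp m).1.ne' h4
  rwa [h5] at hr

end HomP

open HomP

theorem hom (hC : S_Chart) : S_Hom := by
  intro A _ K k hK hk θ hθ
  refine ⟨fun ξ hξ => itw hK hθ hξ, ?_⟩
  obtain ⟨δ, hδ, h1⟩ := eq_one hC hK hk
  refine ⟨δ / 3, by positivity, fun η hη ξ hξ ζ hζ nη nξ nζ e => ?_⟩
  have m1 := hθ.mem hη
  have m2 := hθ.mem hξ
  have m3 := hθ.mem (k.neg_mem hζ)
  have hw := h1 (exp (θ η) * (exp (θ ξ) * exp (θ (-ζ))))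
    (hK.mul (hK.exp_mem m1) (hK.mul (hK.exp_mem m2) (hK.exp_mem m3))) (by
      have b1 := norm_mul_sub_one (hK.skew m1).uni_exp (exp (θ ξ) * exp (θ (-ζ)))
      have b2 := norm_mul_sub_one (hK.skew m2).uni_exp (exp (θ (-ζ)))
      have c1 := (hK.skew m1).norm_exp_sub_one
      have c2 := (hK.skew m2).norm_exp_sub_one
      have c3 := (hK.skew m3).norm_exp_sub_one
      rw [hθ.norm hη] at c1
      rw [hθ.norm hξ] at c2
      rw [hθ.norm (k.neg_mem hζ), norm_neg] at c3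
      linarith) (fun Y hY => by
      obtain ⟨X, hX, rfl⟩ := surj hθ.toIso hY
      have d3 := hK.Ad_mem (hK.exp_mem (k.neg_mem hζ)) hX
      have d2 := hK.Ad_mem (hK.exp_mem hξ) d3
      rw [Ad_mul, Ad_mul, ← itw hK hθ (k.neg_mem hζ) X hX, ← itw hK hθ hξ _ d3,
        ← itw hK hθ hη _ d2, ← Ad_mul, ← Ad_mul, e, exp_mul_neg, Ad_one])
  rw [map_neg] at hw
  calc exp (θ η) * exp (θ ξ) = exp (θ η) * (exp (θ ξ) * exp (-θ ζ)) * exp (θ ζ) := by
        rw [mul_assoc, mul_assoc, exp_neg_mul, mul_one]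
    _ = exp (θ ζ) := by rw [hw, one_mul]

theorem glob (hC : S_Chart) (hH : S_Half) (hHom : S_Hom) : S_Glob := by
  intro A _ K k hK hk R ε hR z₀ θ hθ h0 x hx
  obtain ⟨hI, ε₂, hε₂, hh⟩ := hHom A K k hK hk θ hθ
  obtain ⟨e, he, hu⟩ := unif hH hK hR hθ
  obtain ⟨δ, hδ, hch⟩ := hC A K k hK (min e ε₂) (by positivity)
  let S : A → Prop := fun x => ∃ z, (∀ Y ∈ k, Ad z (θ Y) = Ad z₀ (θ (Ad x Y))) ∧
    ∃ ε' > 0, ∀ ξ ∈ k, ‖ξ‖ < ε' → R (x * exp ξ) (z * exp (θ ξ))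
  have hstep : ∀ x, ∀ η ∈ k, ‖η‖ < min (δ / 2) ε₂ → S x → S (x * exp η) := by
    rintro x η hη nη ⟨z, hz, hz'⟩
    refine ⟨z * exp (θ η), fun Y hY => ?_, min (δ / 2) ε₂, by positivity, fun ξ hξ nξ => ?_⟩
    · rw [Ad_mul, ← hI η hη Y hY, hz _ (hK.Ad_mem (hK.exp_mem hη) hY), Ad_mul]
    · simp only [lt_min_iff] at nη nξ
      obtain ⟨ζ, hζ, nζ, eζ⟩ := hch (exp η * exp ξ) (hK.mul (hK.exp_mem hη) (hK.exp_mem hξ)) (by
        have b1 := norm_mul_sub_one (hK.skew hη).uni_exp (exp ξ)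
        have c1 := (hK.skew hη).norm_exp_sub_one
        have c2 := (hK.skew hξ).norm_exp_sub_one
        linarith [nη.1, nξ.1])
      simp only [lt_min_iff] at nζ
      rw [mul_assoc, mul_assoc, hh η hη ξ hξ ζ hζ nη.2 nξ.2 nζ.2 eζ.symm, ← eζ]
      exact hu x z hz' ζ hζ nζ.1
  obtain ⟨δ', hδ', hch'⟩ := hC A K k hK (min (δ / 2) ε₂) (by positivity)
  have hnear : ∀ x ∈ K, ∀ y ∈ K, ‖y - x‖ < δ' → S x → S y := by
    intro x hx y hy hxy hS
    have ux := hK.uni hx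
    obtain ⟨η, hη, nη, eη⟩ := hch' (star x * y) (hK.mul (hK.star hx) hy) (by
      rw [← ux.1, ux.star.norm_sub_left]; exact hxy)
    have := hstep x η hη nη hS
    rwa [eη, ← mul_assoc, ux.2, one_mul] at this
  have h1 : S 1 := ⟨z₀, fun Y _ => by rw [Ad_one], by simpa using h0⟩
  refine hK.conn.induction₂' (fun a b => S a → S b) (fun a ha => ?_)
    (fun _ _ _ _ _ _ f g => g ∘ f) hK.one hx h1
  have hb : ∀ᶠ b in 𝓝[K] a, ‖b - a‖ < δ' :=
    mem_nhdsWithin_of_mem_nhds (by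
      filter_upwards [Metric.ball_mem_nhds a hδ'] with b hb
      rwa [mem_ball_iff_norm] at hb)
  filter_upwards [hb, self_mem_nhdsWithin] with b hb hbK
  exact ⟨hnear a ha b hbK hb, hnear b hbK a ha (by rwa [norm_sub_rev])⟩

end

end Pool.Agent.P.MP_e311cd_gt
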