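import Pool.Agent.P.MP_e311cd_gt.St

/-! The third order jet of a symmetric product of exponentials. -/

namespace Pool.Agent.P.MP_e311cd_gt

open Set NormedSpace Filter Topology Asymptotics
open scoped ENNReal RealInnerProductSpace

noncomputable section

namespace JetP

variable {A : Type} [HS A]

/-- a cubic polynomial -/
def pl (a₀ a₁ a₂ a₃ : A) (t : ℝ) : A := a₀ + t • a₁ + t ^ 2 • a₂ + t ^ 3 • a₃

/-- `f` agrees with a cubic polynomial up to order four -/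
def J (f : ℝ → A) (a₀ a₁ a₂ a₃ : A) : Prop :=
  (fun t => f t - pl a₀ a₁ a₂ a₃ t) =O[𝓝 0] fun t : ℝ => t ^ 4

theorem bdd {r : ℝ → A} (h : Continuous r) : r =O[𝓝 0] fun _ : ℝ => (1 : ℝ) :=
  (h.tendsto 0).isBigO_one ℝ

theorem pl_bdd (a₀ a₁ a₂ a₃ : A) : pl a₀ a₁ a₂ a₃ =O[𝓝 0] fun _ : ℝ => (1 : ℝ) :=
  bdd (by unfold pl; fun_prop)

variable {f g : ℝ → A} {a₀ a₁ a₂ a₃ b₀ b₁ b₂ b₃ : A}

theorem J.bdd (h : J f a₀ a₁ a₂ a₃) : f =O[𝓝 0] fun _ : ℝ => (1 : ℝ) := by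
  have h1 : (fun t : ℝ => t ^ 4) =O[𝓝 0] fun _ : ℝ => (1 : ℝ) :=
    ((continuous_pow 4).tendsto 0).isBigO_one ℝ
  simpa using (IsBigO.trans h h1).add (pl_bdd a₀ a₁ a₂ a₃)

theorem J.of_eq (h : ∀ t, f t = pl a₀ a₁ a₂ a₃ t) : J f a₀ a₁ a₂ a₃ := by
  simpa [J, h] using isBigO_zero _ _

theorem J.add (h : J f a₀ a₁ a₂ a₃) (h' : J g b₀ b₁ b₂ b₃) :
    J (fun t => f t + g t) (a₀ + b₀) (a₁ + b₁) (a₂ + b₂) (a₃ + b₃) :=
  (IsBigO.add h h').congr_left fun t => by unfold pl; module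

theorem J.smul (h : J f a₀ a₁ a₂ a₃) (c : ℝ) :
    J (fun t => c • f t) (c • a₀) (c • a₁) (c • a₂) (c • a₃) :=
  (IsBigO.const_smul_left h c).congr_left fun t => by
    simp only [pl, Pi.smul_apply]; module

theorem J.mul (h : J f a₀ a₁ a₂ a₃) (h' : J g b₀ b₁ b₂ b₃) :
    J (fun t => f t * g t) (a₀ * b₀) (a₀ * b₁ + a₁ * b₀) (a₀ * b₂ + a₁ * b₁ + a₂ * b₀)
      (a₀ * b₃ + a₁ * b₂ + a₂ * b₁ + a₃ * b₀) := by
  have h1 := IsBigO.mul h h'.bdd
  have h2 := (pl_bdd a₀ a₁ a₂ a₃).mul h'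
  have h3 := (isBigO_refl (fun t : ℝ => t ^ 4) (𝓝 0)).smul (JetP.bdd (r := fun t : ℝ =>
    a₁ * b₃ + a₂ * b₂ + a₃ * b₁ + t • (a₂ * b₃ + a₃ * b₂) + t ^ 2 • (a₃ * b₃)) (by fun_prop))
  simp only [mul_one, one_mul, smul_eq_mul] at h1 h2 h3
  refine ((h1.add h2).add h3).congr_left fun t => ?_
  simp only [pl, mul_sub, sub_mul, mul_add, add_mul, smul_mul_assoc, mul_smul_comm]
  module

theorem J.exp (a b : A) : J (fun t : ℝ => exp (t • a + t ^ 3 • b)) 1 a ((1 / 2 : ℝ) • (a * a))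
    (b + (1 / 6 : ℝ) • (a * a * a)) := by
  have hw : J (fun t : ℝ => t • a + t ^ 3 • b) 0 a 0 b := J.of_eq fun t => by simp [pl]
  have h0 : J (fun _ : ℝ => (1 : A)) 1 0 0 0 := J.of_eq fun t => by simp [pl]
  have h1 := ((h0.add hw).add ((hw.mul hw).smul (1 / 2))).add (((hw.mul hw).mul hw).smul (1 / 6))
  simp only [mul_zero, zero_mul, add_zero, zero_add, smul_zero] at h1
  have h2 : Tendsto (fun t : ℝ => t • a + t ^ 3 • b) (𝓝 0) (𝓝 0) :=
    Continuous.tendsto' (by fun_prop) _ _ (by simp)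
  have h3 := ((exp_hasFPowerSeriesAt_zero (𝕂 := ℝ) (𝔸 := A)).isBigO_sub_partialSum_pow
    4).comp_tendsto h2
  have h4 : (fun t : ℝ => t • a + t ^ 3 • b) =O[𝓝 0] fun t : ℝ => t := by
    have := (isBigO_refl (fun t : ℝ => t) (𝓝 0)).smul
      (JetP.bdd (r := fun t : ℝ => a + t ^ 2 • b) (by fun_prop))
    simp only [smul_eq_mul, mul_one] at this
    exact this.congr_left fun t => by module
  refine ((h3.trans (h4.norm_left.pow 4)).add h1).congr_left fun t => ?_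
  simp only [Function.comp, zero_add, FormalMultilinearSeries.partialSum, expSeries_apply_eq,
    Finset.sum_range_succ, Finset.sum_range_zero, pow_succ _ 2, pow_succ _ 1, pow_one, pow_zero,
    Nat.factorial]
  module

end JetP

open JetP in
theorem jet : S_Jet := by
  intro A _ X Y
  have hX := J.exp X 0
  have hY := J.exp Y 0
  simp only [smul_zero, add_zero, zero_add] at hX hY
  refine (IsBigO.sub ((hX.mul hY).mul hX) (J.exp ((2 : ℝ) • X + Y) (C3 X Y))).congr_left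
    fun t => ?_
  simp only [pl, C3, br, mul_sub, mul_add, add_mul, smul_mul_assoc, mul_smul_comm, one_mul,
    mul_one, mul_assoc, sub_mul]
  module

end

end Pool.Agent.P.MP_e311cd_gt
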