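import Pool.Agent.P.MP_e311cd_gt.St

/-! A local isometry in exponential coordinates is linear and preserves double brackets. -/

namespace Pool.Agent.P.MP_e311cd_gt

open Set NormedSpace Filter Topology Asymptotics
open scoped ENNReal RealInnerProductSpace

noncomputable section

namespace Lin2P

variable {A : Type} [HS A] {K : Set A} {k : Submodule ℝ A} {d : A → A} {ε : ℝ}

/-- the scales -/
def tm (m : ℕ) : ℝ := (1 / 2) ^ m

theorem tm_pos (m : ℕ) : 0 < tm m := by unfold tm; positivity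

theorem tm_le (m : ℕ) : tm m ≤ 1 := pow_le_one₀ (by norm_num) (by norm_num)

theorem tm_lim : Tendsto tm atTop (𝓝 0) :=
  tendsto_pow_atTop_nhds_zero_of_lt_one (by norm_num) (by norm_num)

theorem norm_tm (m : ℕ) (ξ : A) : ‖tm m • ξ‖ = tm m * ‖ξ‖ := by
  rw [norm_smul, Real.norm_of_nonneg (tm_pos m).le]

theorem ev_small {f : ℝ → A} (hf : Continuous f) {a : A} (h0 : f 0 = a) {e : ℝ} (he : 0 < e) :
    ∀ᶠ m in atTop, ‖f (tm m) - a‖ < e := by
  have := Metric.tendsto_nhds.mp ((hf.tendsto' 0 a h0).comp tm_lim) e he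
  simpa only [dist_eq_norm, Function.comp] using this

theorem ev_zero {f : ℝ → A} (hf : Continuous f) (h0 : f 0 = 0) {e : ℝ} (he : 0 < e) :
    ∀ᶠ m in atTop, ‖f (tm m)‖ < e := by
  simpa only [sub_zero] using ev_small hf h0 he

theorem ev_smul (ξ : A) {e : ℝ} (he : 0 < e) : ∀ᶠ m in atTop, ‖tm m • ξ‖ < e :=
  ev_zero (f := fun t => t • ξ) (by fun_prop) (zero_smul _ _) he

theorem eq_zero {v : A} {C : ℝ} (j : ℕ)
    (h : ∀ᶠ m in atTop, tm m ^ j * ‖v‖ ≤ C * tm m ^ (j + 1)) : v = 0 := by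
  have h1 : Tendsto (fun m => C * tm m) atTop (𝓝 0) := by simpa using tm_lim.const_mul C
  refine norm_le_zero_iff.mp (ge_of_tendsto h1 (h.mono fun m hm => ?_))
  refine le_of_mul_le_mul_left (hm.trans (le_of_eq ?_)) (pow_pos (tm_pos m) j)
  ring

theorem scale (h : PreD k d ε) {ξ : A} (hξ : ξ ∈ k) (hn : ‖ξ‖ < ε) (m : ℕ) :
    d (tm m • ξ) = tm m • d ξ := by
  induction m with
  | zero => simp [tm]
  | succ m ih =>
    have e : tm (m + 1) = 1 / 2 * tm m := pow_succ' _ _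
    rw [e, mul_smul, mul_smul, h.half (k.smul_mem _ hξ), ih]
    rw [norm_tm]
    exact (mul_le_of_le_one_left (norm_nonneg _) (tm_le m)).trans_lt hn

/-- the extension of `d` by homogeneity -/
structure Glob (k : Submodule ℝ A) (d : A → A) (ε : ℝ) (D : A → A) : Prop where
  eq : ∀ {ξ}, ξ ∈ k → ‖ξ‖ < ε → D ξ = d ξ
  mem : ∀ {ξ}, ξ ∈ k → D ξ ∈ k ∧ ‖D ξ‖ = ‖ξ‖
  smul : ∀ {ξ}, ξ ∈ k → ∀ m, D (tm m • ξ) = tm m • D ξ
  lip : ∀ {ξ η}, ξ ∈ k → η ∈ k → ‖D ξ - D η‖ ≤ 4 * ‖ξ - η‖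

theorem exists_glob (h : PreD k d ε) : ∃ D, Glob k d ε D := by
  choose μ hμ using fun ξ : A => (ev_smul ξ h.pos).exists
  let D : A → A := fun ξ => (tm (μ ξ))⁻¹ • d (tm (μ ξ) • ξ)
  have inj : ∀ (m : ℕ) {a b : A}, tm m • a = tm m • b → a = b := fun m a b e =>
    smul_right_injective A (tm_pos m).ne' e
  have key : ∀ ξ ∈ k, ∀ m, ‖tm m • ξ‖ < ε → d (tm m • ξ) = tm m • D ξ := fun ξ hξ m hm => by
    apply inj (μ ξ)
    rw [← scale h (k.smul_mem _ hξ) hm, smul_comm, scale h (k.smul_mem _ hξ) (hμ ξ),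
      smul_comm (tm (μ ξ)) (tm m)]
    simp only [D]
    rw [smul_inv_smul₀ (tm_pos _).ne']
  refine ⟨D, fun {ξ} hξ hn => ?_, fun {ξ} hξ => ?_, fun {ξ} hξ m => ?_, fun {ξ η} hξ hη => ?_⟩
  · simpa [tm] using (key ξ hξ 0 (by simpa [tm] using hn)).symm
  · obtain ⟨h1, h2⟩ := h.mem (k.smul_mem _ hξ) (hμ ξ)
    refine ⟨k.smul_mem _ h1, ?_⟩
    rw [key ξ hξ _ (hμ ξ), norm_tm, norm_tm] at h2
    exact mul_left_cancel₀ (tm_pos _).ne' h2
  · have h1 := hμ (tm m • ξ)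
    have e : tm (μ (tm m • ξ) + m) = tm (μ (tm m • ξ)) * tm m := pow_add _ _ _
    apply inj (μ (tm m • ξ))
    rw [← key _ (k.smul_mem _ hξ) _ h1, smul_smul, smul_smul, ← e]
    exact key ξ hξ _ (by rwa [e, ← smul_smul])
  · obtain ⟨m, h1, h2⟩ := ((ev_smul ξ h.pos).and (ev_smul η h.pos)).exists
    have h3 := h.lip (k.smul_mem _ hξ) (k.smul_mem _ hη) h1 h2
    rw [key ξ hξ m h1, key η hη m h2, ← smul_sub, ← smul_sub, norm_tm, norm_tm] at h3
    exact le_of_mul_le_mul_left (h3.trans (le_of_eq (by ring))) (tm_pos m)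

theorem C3_mem (hK : CG K k) {X Y : A} (hX : X ∈ k) (hY : Y ∈ k) : C3 X Y ∈ k :=
  k.smul_mem _ (k.sub_mem (hK.br_mem hY (hK.br_mem hY hX)) (hK.br_mem hX (hK.br_mem hX hY)))

theorem jet_ev (hJ : S_Jet) (X Y : A) : ∃ M : ℝ, ∀ᶠ m in atTop,
    ‖exp (tm m • X) * exp (tm m • Y) * exp (tm m • X) -
      exp (tm m • ((2 : ℝ) • X + Y) + tm m ^ 3 • C3 X Y)‖ ≤ M * tm m ^ 4 := by
  obtain ⟨M, hM⟩ := ((hJ A X Y).comp_tendsto tm_lim).bound
  refine ⟨M, hM.mono fun m hm => ?_⟩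
  rwa [Function.comp_apply, Function.comp_apply,
    Real.norm_of_nonneg (pow_pos (tm_pos m) 4).le] at hm

variable {D : A → A}

theorem main (hC : S_Chart) (hJ : S_Jet) (hK : CG K k) (h : PreD k d ε) (hD : Glob k d ε D)
    {X Y : A} (hX : X ∈ k) (hY : Y ∈ k) : ∃ M : ℝ, ∀ᶠ m in atTop,
      ‖D (tm m • ((2 : ℝ) • X + Y) + tm m ^ 3 • C3 X Y) -
        (tm m • ((2 : ℝ) • D X + D Y) + tm m ^ 3 • C3 (D X) (D Y))‖ ≤ M * tm m ^ 4 := by
  obtain ⟨e, he, hl⟩ := exp_lower A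
  obtain ⟨δ, hδ, hc⟩ := hC A K k hK (min ε e) (lt_min h.pos he)
  obtain ⟨M, hM⟩ := jet_ev hJ X Y
  obtain ⟨M', hM'⟩ := jet_ev hJ (D X) (D Y)
  have hW : ∀ U V : A, ∀ᶠ m in atTop, ‖tm m • U + tm m ^ 3 • V‖ < e := fun U V =>
    ev_zero (f := fun t => t • U + t ^ 3 • V) (by fun_prop) (by simp) he
  have h1 : ∀ᶠ m in atTop, ‖exp (tm m • X) * exp (tm m • Y) * exp (tm m • X) - 1‖ < δ :=
    ev_small (f := fun t => exp (t • X) * exp (t • Y) * exp (t • X))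
      (((contDiff_exp_smul (m := 0) X).continuous.mul
        (contDiff_exp_smul (m := 0) Y).continuous).mul (contDiff_exp_smul (m := 0) X).continuous)
      (by simp) hδ
  refine ⟨8 * M + 2 * M', ?_⟩
  filter_upwards [hM, hM', hW ((2 : ℝ) • X + Y) (C3 X Y), hW ((2 : ℝ) • D X + D Y) (C3 (D X) (D Y)),
    h1, ev_smul X h.pos, ev_smul Y h.pos] with m a1 a2 a3 a4 a5 a6 a7
  have hX' := k.smul_mem (tm m) hX
  have hY' := k.smul_mem (tm m) hY
  obtain ⟨Z, hZ, hn, eZ⟩ := hc _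
    (hK.mul (hK.mul (hK.exp_mem hX') (hK.exp_mem hY')) (hK.exp_mem hX')) a5
  have hn1 := hn.trans_le (min_le_left _ _)
  have hn2 := hn.trans_le (min_le_right _ _)
  have e2 := h.sym hX' hY' hZ a6 a7 hn1 eZ.symm
  rw [← hD.eq hX' a6, ← hD.eq hY' a7, ← hD.eq hZ hn1, hD.smul hX, hD.smul hY] at e2
  rw [← eZ] at a1
  rw [e2] at a2
  have b1 := hl _ _ hn2 a3
  have b2 := hl _ _ ((hD.mem hZ).2.trans_lt hn2) a4
  have b3 := hD.lip hZ (k.add_mem (k.smul_mem (tm m) (k.add_mem (k.smul_mem 2 hX) hY))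
    (k.smul_mem (tm m ^ 3) (C3_mem hK hX hY)))
  rw [norm_sub_rev] at b3
  refine (norm_sub_le_norm_sub_add_norm_sub _ (D Z) _).trans ?_
  linarith

theorem add (hC : S_Chart) (hJ : S_Jet) (hK : CG K k) (h : PreD k d ε) (hD : Glob k d ε D)
    {U Y : A} (hU : U ∈ k) (hY : Y ∈ k) : D (U + Y) = D U + D Y := by
  have key : ∀ X ∈ k, D ((2 : ℝ) • X + Y) = (2 : ℝ) • D X + D Y := fun X hX => by
    obtain ⟨M, hM⟩ := main hC hJ hK h hD hX hY
    have hS := k.add_mem (k.smul_mem 2 hX) hY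
    refine sub_eq_zero.mp (eq_zero (C := 4 * ‖C3 X Y‖ + |M| + ‖C3 (D X) (D Y)‖) 1
      (hM.mono fun m hm => ?_))
    have t0 := tm_pos m
    have t1 := tm_le m
    have n3 : ∀ V : A, ‖tm m ^ 3 • V‖ ≤ ‖V‖ * tm m ^ 2 := fun V => by
      rw [norm_smul, Real.norm_of_nonneg (pow_pos t0 3).le, mul_comm]
      exact mul_le_mul_of_nonneg_left (pow_le_pow_of_le_one t0.le t1 (by norm_num)) (norm_nonneg _)
    have b1 := hD.lip (k.add_mem (k.smul_mem (tm m) hS) (k.smul_mem (tm m ^ 3) (C3_mem hK hX hY)))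
      (k.smul_mem (tm m) hS)
    rw [add_sub_cancel_left, hD.smul hS, norm_sub_rev] at b1
    have b2 : M * tm m ^ 4 ≤ |M| * tm m ^ 2 :=
      mul_le_mul (le_abs_self M) (pow_le_pow_of_le_one t0.le t1 (by norm_num)) (pow_pos t0 4).le
        (abs_nonneg M)
    have b3 := n3 (C3 X Y)
    have b4 := n3 (C3 (D X) (D Y))
    rw [pow_one, ← norm_tm]
    generalize D (tm m • ((2 : ℝ) • X + Y) + tm m ^ 3 • C3 X Y) = P at hm b1
    have e : tm m • (D ((2 : ℝ) • X + Y) - ((2 : ℝ) • D X + D Y)) =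
        tm m • D ((2 : ℝ) • X + Y) - P +
          (P - (tm m • ((2 : ℝ) • D X + D Y) + tm m ^ 3 • C3 (D X) (D Y))) +
          tm m ^ 3 • C3 (D X) (D Y) := by module
    rw [e]
    refine norm_add₃_le.trans ?_
    rw [show (1 + 1 : ℕ) = 2 from rfl]
    linarith
  have h1 := key (tm 1 • U) (k.smul_mem _ hU)
  have e : (2 : ℝ) * tm 1 = 1 := by norm_num [tm]
  rwa [hD.smul hU, smul_smul, smul_smul, e, one_smul, one_smul] at h1

theorem br_C3 (X Y : A) : br X (br X Y) = (-3 : ℝ) • (C3 X Y + C3 (-X) Y) := by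
  simp only [C3, br_neg_left, br_neg_right]
  module

end Lin2P

open Lin2P

theorem lin2 (hC : S_Chart) (hJ : S_Jet) : S_Lin2 := by
  intro A _ K k hK d ε h
  obtain ⟨D0, hD⟩ := exists_glob h
  let D1 : k →+ A := AddMonoidHom.mk' (fun ξ => D0 ξ) fun ξ η => add hC hJ hK h hD ξ.2 η.2
  have hc : Continuous D1 := AddMonoidHomClass.continuous_of_bound D1 1 fun ξ => by
    rw [one_mul]
    exact (hD.mem ξ.2).2.le
  obtain ⟨D, eD⟩ := LinearMap.exists_extend (D1.toRealLinearMap hc).toLinearMap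
  have e : ∀ {ξ}, ξ ∈ k → D ξ = D0 ξ := fun {ξ} hξ => LinearMap.congr_fun eD ⟨ξ, hξ⟩
  have h3 : ∀ X ∈ k, ∀ Y ∈ k, D (C3 X Y) = C3 (D X) (D Y) := fun X hX Y hY => by
    obtain ⟨M, hM⟩ := main hC hJ hK h hD hX hY
    refine sub_eq_zero.mp (eq_zero (C := M) 3 (hM.mono fun m hm => ?_))
    rw [← e (k.add_mem (k.smul_mem (tm m) (k.add_mem (k.smul_mem 2 hX) hY))
      (k.smul_mem (tm m ^ 3) (C3_mem hK hX hY))), ← e hX, ← e hY, map_add, map_smul, map_smul,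
      map_add, map_smul, add_sub_add_left_eq_sub, ← smul_sub, norm_smul,
      Real.norm_of_nonneg (pow_pos (tm_pos m) 3).le] at hm
    exact hm
  refine ⟨D, ⟨fun hX => e hX ▸ (hD.mem hX).1, fun hX => by rw [e hX, (hD.mem hX).2]⟩,
    fun X hX Y hY => ?_, ε, h.pos, fun ξ hξ hn => by rw [e hξ, hD.eq hξ hn]⟩
  rw [br_C3, br_C3, map_smul, map_add, h3 X hX Y hY, h3 _ (k.neg_mem hX) Y hY, map_neg]

end

end Pool.Agent.P.MP_e311cd_gt
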