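import Pool.Agent.P.MP_e311cd_gt.St

/-! Uniqueness of midpoints. -/

namespace Pool.Agent.P.MP_e311cd_gt

open Set NormedSpace Filter Topology Asymptotics
open scoped ENNReal RealInnerProductSpace

noncomputable section

namespace MidP

variable {A : Type} [HS A] {K : Set A} {k : Submodule ℝ A}

/-- the triangle inequality in exponential coordinates -/
theorem tri (hG : S_Gauss) (h : CG K k) : ∃ ε > 0, ∀ a ∈ k, ∀ b ∈ k, ∀ Y ∈ k, ‖a‖ < ε → ‖Y‖ < ε →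
    exp a * exp b = exp Y → ‖Y‖ ≤ ‖a‖ + ‖b‖ := by
  obtain ⟨ε, hε, H⟩ := hG A K k h
  refine ⟨ε, hε, fun a ha b hb Y hY h1 h2 e => ?_⟩
  have h3 := H a ha Y hY h1 h2 (fun t => exp a * exp (t • b))
    (contDiff_const.mul (contDiff_exp_smul b)) (by simp) (by simpa using e)
    (fun t _ => h.mul (h.exp_mem ha) ((h.lie b).mp hb t))
  have h4 : ∀ t : ℝ, ‖deriv (fun t : ℝ => exp a * exp (t • b)) t‖ = ‖b‖ := fun t => by
    rw [((hasDerivAt_exp_smul b t).const_mul (exp a)).deriv, (h.skew ha).uni_exp.norm_left,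
      ((h.skew hb).smul t).uni_exp.norm_left]
  simpa [h4] using h3

theorem deriv_nonneg {g : ℝ → ℝ} {d : ℝ} (hd : HasDerivAt g d 0) (h0 : g 0 = 0)
    (h : ∀ s ∈ Ioo (0 : ℝ) 1, 0 ≤ g s) : 0 ≤ d := by
  refine ge_of_tendsto hd.tendsto_slope_zero_right ?_
  filter_upwards [Ioo_mem_nhdsGT zero_lt_one] with s hs
  rw [zero_add, h0, sub_zero, smul_eq_mul]
  exact mul_nonneg (inv_nonneg.2 hs.1.le) (h s hs)

end MidP

open MidP in
theorem mid (hC : S_Chart) (hG : S_Gauss) : S_Mid := by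
  intro A _ K k h
  obtain ⟨e1, he1, H1⟩ := tri hG h
  obtain ⟨e2, he2, H2⟩ := exp_lower A
  obtain ⟨δ, hδ, H3⟩ := hC A K k h (min e1 e2) (lt_min he1 he2)
  refine ⟨min δ (min e1 e2), lt_min hδ (lt_min he1 he2), ?_⟩
  intro M hM M' hM' Y hY hYe h1 h2 e
  simp only [lt_min_iff] at hYe
  obtain ⟨hY0, hY1, hY2⟩ := hYe
  have hm := norm_nonneg M
  have hMM : ‖M'‖ = ‖M‖ := by linarith
  have sM := h.skew hM
  have sM' := h.skew hM'
  have key : ∀ s ∈ Ioo (0 : ℝ) 1, 0 ≤ 2 * ⟪M, exp (s • M') - 1⟫ +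
      (8 * ‖M‖ ^ 3 + 4 * ‖M‖ ^ 2) * s ^ 2 - 2 * ‖M‖ ^ 2 * s := by
    intro s hs
    have g1 : ‖exp (s • M') - 1‖ ≤ s * ‖M‖ := by
      have := (sM'.smul s).norm_exp_sub_one
      rwa [norm_smul, Real.norm_of_nonneg hs.1.le, hMM] at this
    have g2 : ‖exp M * exp (s • M') - exp M‖ ≤ s * ‖M‖ := by
      have := sM.uni_exp.norm_sub_left (exp (s • M')) 1
      rw [mul_one] at this
      rw [this]; exact g1
    have g3 : ‖exp M * exp (s • M') - 1‖ < δ := by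
      have := norm_sub_le_norm_sub_add_norm_sub (exp M * exp (s • M')) (exp M) 1
      have g4 := sM.norm_exp_sub_one
      nlinarith [hs.2]
    obtain ⟨η, hη, hηe, eη⟩ := H3 _ (h.mul (h.exp_mem hM) ((h.lie M').mp hM' s)) g3
    simp only [lt_min_iff] at hηe
    have g4 : ‖Y‖ ≤ ‖η‖ + ‖(1 - s) • M'‖ := by
      refine H1 η hη _ (k.smul_mem _ hM') Y hY hηe.1 hY1 ?_
      rw [eη, mul_assoc, ← exp_add_smul, add_sub_cancel, one_smul, e]
    rw [norm_smul, Real.norm_of_nonneg (sub_nonneg.2 hs.2.le), hMM] at g4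
    have g5 : ‖η - M‖ ≤ 2 * (s * ‖M‖) := by
      have := H2 η M hηe.2 (by linarith)
      rw [eη] at this
      linarith
    have g6 := sM.duhamel (h.skew hη)
    rw [eη, ← mul_assoc, exp_neg_mul, one_mul] at g6
    have g7 : ‖η‖ ^ 2 = ‖M‖ ^ 2 + 2 * ⟪M, η - M⟫ + ‖η - M‖ ^ 2 := by
      rw [← norm_add_sq_real, add_sub_cancel]
    have g8 : ‖η - M‖ ^ 2 ≤ (2 * (s * ‖M‖)) ^ 2 := pow_le_pow_left₀ (norm_nonneg _) g5 2
    have g9 : ((1 + s) * ‖M‖) ^ 2 ≤ ‖η‖ ^ 2 :=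
      pow_le_pow_left₀ (mul_nonneg (by linarith [hs.1]) hm) (by linarith) 2
    have g10 := (abs_le.1 g6).1
    have g11 := mul_le_mul_of_nonneg_left g8 hm
    nlinarith [sq_nonneg (s * ‖M‖)]
  have hd : HasDerivAt (fun s : ℝ => 2 * ⟪M, exp (s • M') - 1⟫ +
      (8 * ‖M‖ ^ 3 + 4 * ‖M‖ ^ 2) * s ^ 2 - 2 * ‖M‖ ^ 2 * s) (2 * ⟪M, M'⟫ - 2 * ‖M‖ ^ 2) 0 := by
    have d1 := ((hasDerivAt_const (0 : ℝ) M).inner ℝ
      ((hasDerivAt_exp_smul M' 0).sub_const 1)).const_mul 2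
    have d2 := (hasDerivAt_pow 2 (0 : ℝ)).const_mul (8 * ‖M‖ ^ 3 + 4 * ‖M‖ ^ 2)
    have d3 := (hasDerivAt_id (0 : ℝ)).const_mul (2 * ‖M‖ ^ 2)
    refine ((d1.add d2).sub d3).congr_deriv ?_
    simp
  have hge := deriv_nonneg hd (by simp) key
  have heq : M = M' := by
    have g1 := norm_sub_sq_real M M'
    rw [hMM] at g1
    have g2 : ‖M - M'‖ ^ 2 = 0 := le_antisymm (by linarith) (sq_nonneg _)
    exact sub_eq_zero.1 (norm_eq_zero.1 (pow_eq_zero_iff two_ne_zero |>.1 g2))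
  subst heq
  have e2M : exp ((2 : ℝ) • M) = exp Y := by
    rw [← e, show (2 : ℝ) = 1 + 1 by norm_num, exp_add_smul, one_smul]
  have g1 := H2 ((2 : ℝ) • M) Y (by rw [norm_smul, Real.norm_two]; linarith) hY2
  rw [e2M, sub_self, norm_zero, mul_zero, norm_le_zero_iff, sub_eq_zero] at g1
  have g2 : M = (1 / 2 : ℝ) • Y := by rw [← g1, smul_smul]; norm_num
  exact ⟨g2, g2⟩

end

end Pool.Agent.P.MP_e311cd_gt
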