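import Pool.Agent.P.MP_e311cd_gt.St

/-! Two roots that are neither orthogonal nor proportional. -/

namespace Pool.Agent.P.MP_e311cd_gt

open Set NormedSpace Filter Topology
open scoped ENNReal RealInnerProductSpace

namespace PairP

variable {A : Type} [HS A] {k t : Submodule ℝ A}

/-- a maximal commuting subspace -/
structure MA (k t : Submodule ℝ A) : Prop where
  le : t ≤ k
  comm : ∀ H ∈ t, ∀ H' ∈ t, br H H' = 0
  max : ∀ X ∈ k, (∀ H ∈ t, br H X = 0) → X ∈ t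

theorem exists_MA (k : Submodule ℝ A) : ∃ t, MA k t := by
  obtain ⟨t, ⟨h1, h2⟩, h3⟩ := (wellFounded_gt (α := Submodule ℝ A)).has_min
    {t | t ≤ k ∧ ∀ H ∈ t, ∀ H' ∈ t, br H H' = 0} ⟨⊥, bot_le, by simp⟩
  refine ⟨t, h1, h2, fun X hX hc => ?_⟩
  by_contra hn
  refine h3 (t ⊔ ℝ ∙ X) ⟨sup_le h1 ((Submodule.span_singleton_le_iff_mem _ _).mpr hX), ?_⟩ ?_
  · intro H hH H' hH'
    obtain ⟨a, ha, b, hb, rfl⟩ := Submodule.mem_sup.mp hH
    obtain ⟨a', ha', b', hb', rfl⟩ := Submodule.mem_sup.mp hH'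
    obtain ⟨r, rfl⟩ := Submodule.mem_span_singleton.mp hb
    obtain ⟨r', rfl⟩ := Submodule.mem_span_singleton.mp hb'
    rw [br_add_left, br_add_right, br_add_right, h2 a ha a' ha', br_smul_right, hc a ha,
      br_smul_left, br_comm X a', hc a' ha', br_smul_left, br_smul_right, br_self]
    simp
  · exact lt_of_le_of_ne le_sup_left fun e => hn
      (e ▸ Submodule.mem_sup_right (Submodule.mem_span_singleton_self X))

theorem tri (sa : SA k) (ma : MA k t) {E F : A} (hE : E ∈ k) (hF : F ∈ k) {a : A → ℝ}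
    (hw : ∀ H ∈ t, WP H E F (a H)) (hne : E ≠ 0) {H₀ : A} (h0 : H₀ ∈ t) (ha : a H₀ ≠ 0) :
    ∃ h ∈ t, ∃ E' F', Tr k h E' F' ∧ (∀ H ∈ t, WP H E' F' (a H)) ∧
      ∀ H ∈ t, a H * ‖h‖ ^ 2 = 2 * ⟪H, h⟫ := by
  have hG : br E F ∈ t := ma.max _ (sa.br_mem hE hF) fun H hH => by
    rw [br_br, (hw H hH).1, (hw H hH).2, br_smul_left, br_neg_right, br_smul_right]
    simp
  have i1 : ∀ H ∈ t, ⟪H, br E F⟫ = a H * ‖E‖ ^ 2 := fun H hH => by
    rw [real_inner_comm, br_comm, inner_neg_left, (sa.skew hF).inner_br, neg_neg, br_comm,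
      (hw H hH).2, neg_neg, inner_smul_right, real_inner_self_eq_norm_sq]
  have hEp : 0 < ‖E‖ ^ 2 := by positivity
  have hG0 : br E F ≠ 0 := fun e => by
    have := i1 H₀ h0
    rw [e, inner_zero_right] at this
    exact mul_ne_zero ha hEp.ne' this.symm
  have hGp : 0 < ‖br E F‖ ^ 2 := by positivity
  have i2 := i1 _ hG
  rw [real_inner_self_eq_norm_sq] at i2
  have haG : 0 < a (br E F) := by
    by_contra hh
    nlinarith [not_lt.mp hh]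
  set G := br E F with hGdef
  set g := a G
  set s := √(4 / g) with hs
  have hs2 : s * s = 4 / g := Real.mul_self_sqrt (by positivity)
  have hw' : ∀ H ∈ t, WP H (s • E) (s • F) (a H) := fun H hH =>
    ⟨by rw [br_smul_right, (hw H hH).1, smul_comm], by
      rw [br_smul_right, (hw H hH).2, smul_neg, smul_comm]⟩
  refine ⟨(2 / g) • G, t.smul_mem _ hG, s • E, s • F, ⟨k.smul_mem _ (ma.le hG), k.smul_mem _ hE,
    k.smul_mem _ hF, ?_, ?_, smul_ne_zero (by positivity) hG0⟩, hw', fun H hH => ?_⟩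
  · have := (hw' G hG).smul (2 / g)
    rwa [div_mul_cancel₀ _ haG.ne'] at this
  · rw [br_smul_left, br_smul_right, smul_smul, smul_smul, hs2]
    congr 1
    ring
  · rw [inner_smul_right, i1 H hH, norm_smul, mul_pow, i2, Real.norm_eq_abs, sq_abs]
    field_simp

end PairP

open PairP

theorem pair (hJ : S_JE) (hN : S_NN) (hR : S_Rk1) : S_Pair := by
  intro A _ k sa hd
  obtain ⟨t, ma⟩ := exists_MA k
  have je : ∀ X ∈ k, X ≠ 0 → ∃ E ∈ k, ∃ F ∈ k, ∃ a : A → ℝ, (∀ H ∈ t, WP H E F (a H)) ∧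
      ⟪E, X⟫ ≠ 0 := fun X hX hne => by
    simpa using hJ A t k (fun H hH => sa.skew (ma.le hH)) ma.comm
      (fun H hH X hX => sa.br_mem (ma.le hH) hX) X hX 0 k.zero_mem (Or.inl hne)
  obtain ⟨H₀, hH₀, X, hX, hne⟩ : ∃ H ∈ t, ∃ X ∈ k, br H X ≠ 0 := by
    by_contra hc
    push Not at hc
    obtain ⟨X, hX, Y, hY, hne⟩ := sa.nonab
    exact hne (hc X (ma.max X hX fun H hH => hc H hH X hX) Y hY)
  obtain ⟨E, hE, F, hF, a, hw, hi⟩ := je _ (sa.br_mem (ma.le hH₀) hX) hne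
  obtain ⟨h₁, m₁, E₁, F₁, t₁, w₁, f₁⟩ := tri sa ma hE hF hw (by rintro rfl; simp at hi) hH₀
    fun h0 => hi (by
      rw [real_inner_comm, (sa.skew (ma.le hH₀)).inner_br, (hw H₀ hH₀).1, h0]
      simp)
  have n₁ : 0 < ‖h₁‖ ^ 2 := by have := t₁.ne; positivity
  obtain ⟨H', hH', hne', ho⟩ : ∃ H' ∈ t, H' ≠ 0 ∧ ⟪H', h₁⟫ = 0 := by
    by_contra hc
    push Not at hc
    have ht : ∀ H ∈ t, ∃ r : ℝ, H = r • h₁ := fun H hH => by
      refine ⟨⟪H, h₁⟫ / ‖h₁‖ ^ 2, sub_eq_zero.mp ?_⟩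
      by_contra hn
      refine hc _ (t.sub_mem hH (t.smul_mem _ m₁)) hn ?_
      rw [inner_sub_left, real_inner_smul_left, real_inner_self_eq_norm_sq,
        div_mul_cancel₀ _ n₁.ne', sub_self]
    refine absurd (hR A k sa h₁ E₁ F₁ t₁ fun X hX h0 => ht X (ma.max X hX fun H hH => ?_))
      (not_le.mpr hd)
    obtain ⟨r, rfl⟩ := ht H hH
    rw [br_smul_left, h0, smul_zero]
  obtain ⟨Z, hZ, hZne⟩ : ∃ Z ∈ k, br H' (br h₁ Z) ≠ 0 := by
    by_contra hc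
    push Not at hc
    exact (hN A k sa H' (ma.le hH') h₁ t₁.hm hc).elim hne' t₁.ne
  obtain ⟨E', hE', F', hF', b, hw', hi'⟩ :=
    je _ (sa.br_mem (ma.le hH') (sa.br_mem t₁.hm hZ)) hZne
  have e : ⟪E', br H' (br h₁ Z)⟫ = -(b H' * b h₁ * ⟪Z, E'⟫) := by
    rw [real_inner_comm, (sa.skew (ma.le hH')).inner_br, (hw' H' hH').1, inner_smul_right,
      (sa.skew t₁.hm).inner_br, (hw' h₁ m₁).2, inner_neg_right, inner_smul_right]
    ring
  rw [e, neg_ne_zero] at hi'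
  have b1 : b H' ≠ 0 := left_ne_zero_of_mul (left_ne_zero_of_mul hi')
  have b2 : b h₁ ≠ 0 := right_ne_zero_of_mul (left_ne_zero_of_mul hi')
  obtain ⟨h₂, m₂, E₂, F₂, t₂, w₂, f₂⟩ := tri sa ma hE' hF' hw' (by rintro rfl; simp at hi') hH' b1
  have n₂ : 0 < ‖h₂‖ ^ 2 := by have := t₂.ne; positivity
  have g1 := f₁ h₂ m₂
  have g2 := f₂ h₁ m₁
  have g3 := f₂ H' hH'
  rw [real_inner_comm] at g1
  have p0 : ⟪h₁, h₂⟫ ≠ 0 := fun h0 => by
    rw [h0, mul_zero] at g2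
    exact mul_ne_zero b2 n₂.ne' g2
  have p1 : ⟪H', h₂⟫ ≠ 0 := fun h0 => by
    rw [h0, mul_zero] at g3
    exact mul_ne_zero b1 n₂.ne' g3
  have cs : ⟪h₁, h₂⟫ ^ 2 < ‖h₁‖ ^ 2 * ‖h₂‖ ^ 2 := by
    have v0 : (‖h₁‖ ^ 2) • h₂ - ⟪h₁, h₂⟫ • h₁ ≠ 0 := fun h0 => by
      have := congrArg (fun v => ⟪H', v⟫) h0
      simp only [inner_sub_right, inner_smul_right, ho, mul_zero, sub_zero, inner_zero_right] at this
      exact mul_ne_zero n₁.ne' p1 this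
    have v1 : 0 < ‖(‖h₁‖ ^ 2) • h₂ - ⟪h₁, h₂⟫ • h₁‖ ^ 2 := by positivity
    rw [norm_sub_sq_real, norm_smul, norm_smul, inner_smul_left, inner_smul_right,
      real_inner_comm h₁ h₂, mul_pow, mul_pow, Real.norm_eq_abs, Real.norm_eq_abs, sq_abs,
      sq_abs] at v1
    simp only [conj_trivial] at v1
    nlinarith
  have pr : a h₂ * b h₁ * (‖h₁‖ ^ 2 * ‖h₂‖ ^ 2) = 4 * ⟪h₁, h₂⟫ ^ 2 := by
    linear_combination (b h₁ * ‖h₂‖ ^ 2) * g1 + (2 * ⟪h₁, h₂⟫) * g2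
  have nn := mul_pos n₁ n₂
  have p2 : 0 < ⟪h₁, h₂⟫ ^ 2 := by positivity
  refine ⟨h₁, E₁, F₁, h₂, E₂, F₂, a h₂, b h₁, t₁, t₂, ma.comm _ m₁ _ m₂, w₁ _ m₂, w₂ _ m₁, ?_, ?_⟩
  · by_contra hh
    nlinarith [not_lt.mp hh]
  · by_contra hh
    nlinarith [not_lt.mp hh]

end Pool.Agent.P.MP_e311cd_gt
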