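import Pool.Agent.P.MP_e311cd_gt.St

/-! An isometry of the quotients gives a locally isometric correspondence. -/

namespace Pool.Agent.P.MP_e311cd_gt

open Set NormedSpace Filter Topology Asymptotics
open scoped ENNReal RealInnerProductSpace

noncomputable section

namespace QuoP

variable {n : ℕ} {K : Subgroup (Matrix.unitaryGroup (Fin n) ℂ)} {k : Submodule ℝ (Mat n)}

theorem mk_eq {Γ : Subgroup (Equiv.Perm K)} {x y : K} :
    (Quotient.mk'' x : Quo Γ) = Quotient.mk'' y ↔ ∃ g ∈ Γ, x = g y := by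
  rw [Quotient.eq'', MulAction.orbitRel_apply]
  exact ⟨fun ⟨g, hg⟩ => ⟨g.1, g.2, hg.symm⟩, fun ⟨g, hg, e⟩ => ⟨⟨g, hg⟩, e.symm⟩⟩

theorem gap (h : IsSimpleGroup K k) {Γ : Subgroup (Equiv.Perm K)} (hΓ : IsDeck Γ)
    (hf : ∀ g ∈ Γ, ∃ a b : K, ∀ x, g x = a * x * b) :
    ∃ ε > 0, ∀ g ∈ Γ, g ≠ 1 → ∀ x, ε ≤ ‖mat (g x) - mat x‖ := by
  have h1 : ∀ g : Γ, ∃ δ > 0, g.1 ≠ 1 → ∀ x, δ ≤ ‖mat (g.1 x) - mat x‖ := by
    intro g
    by_cases hg : g.1 = 1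
    · exact ⟨1, one_pos, fun h' => absurd hg h'⟩
    obtain ⟨a, b, hab⟩ := hf g.1 g.2
    have hc : Continuous fun X : Mat n => ‖mat a * X * mat b - X‖ :=
      (((continuous_const.mul continuous_id).mul continuous_const).sub continuous_id).norm
    obtain ⟨_, ⟨x₀, rfl⟩, hm⟩ := h.cg.compact.exists_isMinOn ⟨_, mat_mem 1⟩ hc.continuousOn
    refine ⟨‖mat a * mat x₀ * mat b - mat x₀‖, ?_, fun _ x => ?_⟩
    · refine norm_pos_iff.mpr (sub_ne_zero.mpr fun e => hg (hΓ.free g.1 g.2 x₀ ?_))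
      rw [hab]
      exact mat_inj e
    · rw [hab]
      exact hm (mat_mem x)
  choose δ hδ hδ' using h1
  have := hΓ.finite
  obtain ⟨g₀, hg₀⟩ := Finite.exists_min δ
  exact ⟨δ g₀, hδ g₀, fun g hg hne x => (hg₀ ⟨g, hg⟩).trans (hδ' ⟨g, hg⟩ hne x)⟩

theorem qdist_le {Γ : Subgroup (Equiv.Perm K)} (x y : K) {g : Equiv.Perm K} (hg : g ∈ Γ) :
    qdist Γ (Quotient.mk'' x) (Quotient.mk'' y) ≤ gdist x (g y) :=
  iInf_le_of_le x <| iInf_le_of_le (g y) <| iInf_le_of_le rfl <|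
    iInf_le_of_le (mk_eq.mpr ⟨g, hg, rfl⟩) le_rfl

theorem le_qdist {Γ : Subgroup (Equiv.Perm K)} (hΓ : IsDeck Γ) (x y : K) {c : ℝ≥0∞}
    (hc : ∀ g ∈ Γ, c ≤ gdist x (g y)) : c ≤ qdist Γ (Quotient.mk'' x) (Quotient.mk'' y) := by
  refine le_iInf fun x' => le_iInf fun y' => le_iInf fun hx => le_iInf fun hy => ?_
  obtain ⟨g₁, hg₁, rfl⟩ := mk_eq.mp hx
  obtain ⟨g₂, hg₂, rfl⟩ := mk_eq.mp hy
  have := hc (g₁⁻¹ * g₂) (Γ.mul_mem (Γ.inv_mem hg₁) hg₂)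
  rw [← hΓ.isom g₁ hg₁] at this
  simpa using this

theorem qdist_att {Γ : Subgroup (Equiv.Perm K)} (hΓ : IsDeck Γ) (x y : K) :
    ∃ g ∈ Γ, gdist x (g y) = qdist Γ (Quotient.mk'' x) (Quotient.mk'' y) := by
  have := hΓ.finite
  obtain ⟨g₀, hg₀⟩ := Finite.exists_min fun g : Γ => gdist x (g.1 y)
  exact ⟨g₀.1, g₀.2, le_antisymm (le_qdist hΓ x y fun g hg => hg₀ ⟨g, hg⟩) (qdist_le x y g₀.2)⟩

theorem qdist_near {Γ : Subgroup (Equiv.Perm K)} (hΓ : IsDeck Γ)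
    (hch : ∀ x y : K, ENNReal.ofReal ‖mat x - mat y‖ ≤ gdist x y) {ε : ℝ} (hε : 0 < ε)
    (hg : ∀ g ∈ Γ, g ≠ 1 → ∀ x, 2 * ε ≤ ‖mat (g x) - mat x‖) {x y : K}
    (hxy : gdist x y < ENNReal.ofReal ε) :
    qdist Γ (Quotient.mk'' x) (Quotient.mk'' y) = gdist x y := by
  have h0 := qdist_le x y Γ.one_mem
  rw [Equiv.Perm.one_apply] at h0
  refine le_antisymm h0 (le_qdist hΓ x y fun g hgΓ => ?_)
  by_cases h1 : g = 1
  · rw [h1, Equiv.Perm.one_apply]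
  have h2 : ‖mat x - mat y‖ < ε := (ENNReal.ofReal_lt_ofReal_iff hε).mp ((hch x y).trans_lt hxy)
  have h3 := hg g hgΓ h1 y
  have h4 := norm_sub_le_norm_sub_add_norm_sub (mat (g y)) (mat x) (mat y)
  rw [norm_sub_rev (mat (g y)) (mat x)] at h4
  exact hxy.le.trans ((ENNReal.ofReal_le_ofReal (by linarith)).trans (hch x (g y)))

end QuoP

open QuoP

theorem quo (hD : S_Dist) : S_Quo := by
  intro n K k h Γ₁ Γ₂ d₁ d₂ f₁ f₂ ⟨φ, hφ⟩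
  have hch : ∀ x y : K, ENNReal.ofReal ‖mat x - mat y‖ ≤ gdist x y := fun x y => by
    rw [gdist_eq]
    exact (hD _ _ _ h.cg).2.1 _ _
  obtain ⟨e₁, he₁, g₁⟩ := gap h d₁ f₁
  obtain ⟨e₂, he₂, g₂⟩ := gap h d₂ f₂
  have hm : 0 < min (e₁ / 2) e₂ := lt_min (half_pos he₁) he₂
  refine ⟨fun x z => φ (Quotient.mk'' x) = Quotient.mk'' z, min (e₁ / 2) e₂, hm, fun x => ?_,
    fun x z y hR hxy => ?_, fun x z z' hR hR' hn => ?_, fun x z z' hR => ?_,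
    fun x z g hg hR => ?_⟩
  · obtain ⟨z, hz⟩ := Quotient.exists_rep (φ (Quotient.mk'' x))
    exact ⟨z, hz.symm⟩
  · obtain ⟨w, hw⟩ := Quotient.exists_rep (φ (Quotient.mk'' y))
    obtain ⟨g, hg, e⟩ := qdist_att d₂ z w
    have hw' : φ (Quotient.mk'' y) = Quotient.mk'' w := hw.symm
    refine ⟨g w, hw'.trans (mk_eq.mpr ⟨g, hg, rfl⟩).symm, ?_⟩
    rw [e, ← hw', ← hR, hφ]
    refine qdist_near d₁ hch hm (fun g hg hne x => le_trans ?_ (g₁ g hg hne x)) hxy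
    linarith [min_le_left (e₁ / 2) e₂]
  · obtain ⟨g, hg, e⟩ := mk_eq.mp (hR.symm.trans hR')
    by_cases h1 : g = 1
    · rw [e, h1]; rfl
    · have := g₂ g hg h1 z'
      rw [← e] at this
      linarith [min_le_right (e₁ / 2) e₂]
  · beta_reduce at hR ⊢
    rw [hR, eq_comm]
    exact mk_eq
  · beta_reduce at hR ⊢
    rw [← hR, (mk_eq.mpr ⟨g, hg, rfl⟩ : (Quotient.mk'' (g x) : Quo Γ₁) = Quotient.mk'' x)]

end

end Pool.Agent.P.MP_e311cd_gt
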