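import Pool.Agent.P.MP_e311cd_gt.St

/-! Rigidity of locally isometric correspondences. -/

namespace Pool.Agent.P.MP_e311cd_gt

open Set NormedSpace Filter Topology
open scoped ENNReal RealInnerProductSpace

namespace RigP

variable {A : Type} [HS A] {K : Set A} {k : Submodule ℝ A}

theorem scale {f g : A →ₗ[ℝ] A} {ε : ℝ} (hε : 0 < ε) (h : ∀ ξ ∈ k, ‖ξ‖ < ε → f ξ = g ξ) {Y : A}
    (hY : Y ∈ k) : f Y = g Y := by
  have hp : 0 < ε / (‖Y‖ + 1) := by positivity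
  have := h ((ε / (‖Y‖ + 1)) • Y) (k.smul_mem _ hY) (by
    rw [norm_smul, Real.norm_of_nonneg hp.le, div_mul_eq_mul_div, div_lt_iff₀ (by positivity)]
    nlinarith)
  rw [map_smul, map_smul] at this
  exact smul_right_injective A hp.ne' this

theorem core (hG : S_Glob) (cg : CG K k) (sa : SA k) {R : A → A → Prop} {ε : ℝ} (lr : LR K k R ε)
    {G₁ G₂ : Set (A × A)} (h1 : ∀ g ∈ G₁, g.1 ∈ K ∧ g.2 ∈ K) (h2 : ∀ g ∈ G₂, g.1 ∈ K ∧ g.2 ∈ K)
    (i1 : ∀ x z, ∀ g ∈ G₁, R x z → R (g.1 * x * star g.2) z)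
    (i2 : ∀ x z z', R x z → (R x z' ↔ ∃ g ∈ G₂, z' = g.1 * z * star g.2))
    {z₀ : A} {θ : A →ₗ[ℝ] A} (hθ : Aut k θ)
    (h0 : ∃ ε' > 0, ∀ ξ ∈ k, ‖ξ‖ < ε' → R (exp ξ) (z₀ * exp (θ ξ))) :
    ∃ P : A →ₗ[ℝ] A, Iso k P ∧ ∀ g ∈ G₁, ∃ g' ∈ G₂, Itw k P g.1 g'.1 ∧ Itw k θ g.2 g'.2 := by
  have hg := hG A K k cg sa R ε lr z₀ θ hθ h0
  obtain ⟨e0, he0, h0⟩ := h0
  have r0 : R 1 z₀ := by simpa using h0 0 k.zero_mem (by simpa using he0)
  have hz₀ := (lr.mem r0).2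
  refine ⟨AdL z₀ ∘ₗ θ, ⟨fun hX => cg.Ad_mem hz₀ (hθ.mem hX), fun hX => ?_⟩, ?_⟩
  · rw [LinearMap.comp_apply, AdL_apply, (cg.uni hz₀).norm_Ad, hθ.norm hX]
  rintro ⟨a, b⟩ hab
  obtain ⟨ha, hb⟩ : a ∈ K ∧ b ∈ K := h1 _ hab
  obtain ⟨z, hz1, e1, he1, hz2⟩ := hg (a * star b) (cg.mul ha (cg.star hb))
  have r1 : R (a * star b) z := by simpa using hz2 0 k.zero_mem (by simpa using he1)
  have r2 : R (a * star b) z₀ := by simpa using i1 1 z₀ _ hab r0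
  obtain ⟨⟨a', b'⟩, hab', hz⟩ := (i2 _ _ _ r2).mp r1
  obtain ⟨ha', hb'⟩ : a' ∈ K ∧ b' ∈ K := h2 _ hab'
  simp only at hz
  obtain ⟨e2, he2, hinj⟩ := exp_inj A
  have hzK := (lr.mem r1).2
  have key : Itw k θ b b' := fun Y hY =>
    scale (f := θ ∘ₗ AdL b) (g := AdL b' ∘ₗ θ)
      (ε := min (min e0 e1) (min e2 (ε / 2))) (by have := lr.pos; positivity) (fun ξ hξ hn => by
      simp only [lt_min_iff] at hn
      obtain ⟨⟨n0, n1⟩, n2, n3⟩ := hn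
      have ub := cg.uni hb
      have ub' := cg.uni hb'
      have m1 := cg.Ad_mem hb hξ
      have m2 := cg.Ad_mem hb' (hθ.mem hξ)
      have s1 := hz2 (Ad b ξ) m1 (by rwa [ub.norm_Ad])
      have s2 := i1 _ _ _ hab (h0 ξ hξ n0)
      have s3 := (i2 _ _ _ s2).mpr ⟨_, hab', rfl⟩
      have q1 : a * exp ξ * star b = a * star b * exp (Ad b ξ) := by
        rw [← ub.Ad_exp, Ad]
        have : a * star b * (b * exp ξ * star b) = a * (star b * b) * exp ξ * star b := by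
          noncomm_ring
        rw [this, ub.1, mul_one]
      have q2 : a' * (z₀ * exp (θ ξ)) * star b' = z * exp (Ad b' (θ ξ)) := by
        rw [← ub'.Ad_exp, Ad, hz]
        have : a' * z₀ * star b' * (b' * exp (θ ξ) * star b') =
            a' * z₀ * (star b' * b') * exp (θ ξ) * star b' := by noncomm_ring
        rw [this, ub'.1, mul_one]
        noncomm_ring
      simp only at s3
      rw [q1, q2] at s3
      have l1 : ‖θ (Ad b ξ)‖ = ‖ξ‖ := by rw [hθ.norm m1, ub.norm_Ad]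
      have l2 : ‖Ad b' (θ ξ)‖ = ‖ξ‖ := by rw [ub'.norm_Ad, hθ.norm hξ]
      have s4 := lr.un s1 s3 (by
        rw [(cg.uni hzK).norm_sub_left]
        refine ((cg.skew m2).norm_exp_sub (cg.skew (hθ.mem m1))).trans_lt
          ((norm_sub_le _ _).trans_lt ?_)
        linarith)
      exact hinj _ _ (by rwa [LinearMap.comp_apply, AdL_apply, l1])
        (by rwa [LinearMap.comp_apply, AdL_apply, l2]) ((cg.uni hzK).left_cancel s4)) hY
  refine ⟨(a', b'), hab', fun Y hY => ?_, key⟩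
  have := hz1 (Ad b Y) (cg.Ad_mem hb hY)
  rw [Ad_mul, (cg.uni hb).Ad_star_Ad, key Y hY, hz, Ad_mul, Ad_mul,
    (cg.uni hb').Ad_star_Ad] at this
  exact this.symm

end RigP

open RigP

theorem rig (h1 : S_Lin1) (h2 : S_Lin2) (hA : S_Aut) (hG : S_Glob) : S_Rig := by
  intro A _ K k cg sa R ε lr tot G₁ G₂ m1 m2 i1 i2
  obtain ⟨z₀, r0⟩ := tot 1 cg.one
  have hz₀ := (lr.mem r0).2
  have lr0 : LR K k (fun x z => z ∈ K ∧ R x (z₀ * z)) ε :=
    ⟨lr.pos, fun h => ⟨(lr.mem h.2).1, h.1⟩, fun h hξ hn => by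
      obtain ⟨η, hη, e, r⟩ := lr.ex h.2 hξ hn
      exact ⟨η, hη, e, cg.mul h.1 (cg.exp_mem hη), by rwa [← mul_assoc]⟩,
    fun h h' hn => (cg.uni hz₀).left_cancel
      (lr.un h.2 h'.2 (by rwa [(cg.uni hz₀).norm_sub_left]))⟩
  obtain ⟨d, e1, pd, hd⟩ := h1 A K k cg _ ε lr0 ⟨cg.one, by rwa [mul_one]⟩
  obtain ⟨D, iso, tri, e2, he2, hD⟩ := h2 A K k cg d e1 pd
  have loc : ∀ ξ ∈ k, ‖ξ‖ < min e1 e2 → R (exp ξ) (z₀ * exp (D ξ)) := fun ξ hξ hn => by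
    rw [← hD ξ hξ (hn.trans_le (min_le_right _ _))]
    exact (hd ξ hξ (hn.trans_le (min_le_left _ _))).2
  have hpos : 0 < min e1 e2 := lt_min pd.pos he2
  rcases hA A k sa D iso tri with hθ | hθ
  · obtain ⟨P, hP, h⟩ := core hG cg sa lr m1 m2 i1 i2 hθ ⟨_, hpos, loc⟩
    exact ⟨P, D, hP, iso, Or.inl h⟩
  · have lr' : LR K k (fun x z => R (star x) z) ε :=
      ⟨lr.pos, fun h => ⟨by simpa using cg.star (lr.mem h).1, (lr.mem h).2⟩, fun {x z ξ} h hξ hn => by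
        have hx : x ∈ K := by simpa using cg.star (lr.mem h).1
        have ux := cg.uni hx
        obtain ⟨η, hη, e, r⟩ := lr.ex h (k.neg_mem (cg.Ad_mem hx hξ))
          (by rwa [norm_neg, ux.norm_Ad])
        refine ⟨η, hη, by rw [e, norm_neg, ux.norm_Ad], ?_⟩
        rwa [ux.star.mul_exp, ← Ad_neg, ux.Ad_star_Ad, ← (cg.skew hξ).star_exp, ← star_mul] at r,
      fun h h' hn => lr.un h h' hn⟩
    obtain ⟨P, hP, h⟩ := core hG cg sa lr' (G₁ := Prod.swap '' G₁) (G₂ := G₂)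
      (by rintro _ ⟨g, hg, rfl⟩; exact (m1 g hg).symm) m2
      (by
        rintro x z _ ⟨g, hg, rfl⟩ r
        simpa [star_mul, mul_assoc] using i1 _ _ g hg r)
      (fun x z z' r => i2 _ _ _ r) hθ ⟨_, hpos, fun ξ hξ hn => by
        have := loc (-ξ) (k.neg_mem hξ) (by rwa [norm_neg])
        rwa [map_neg, ← (cg.skew hξ).star_exp] at this⟩
    refine ⟨P, -D, hP, hθ.toIso, Or.inr fun g hg => ?_⟩
    obtain ⟨g', hg', -, i⟩ := h _ ⟨g, hg, rfl⟩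
    exact ⟨g', hg', i⟩

end Pool.Agent.P.MP_e311cd_gt
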