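import Pool.Agent.P.MP_e311cd_gt.St

/-! A compact simple Lie algebra of rank one has dimension at most three. -/

namespace Pool.Agent.P.MP_e311cd_gt

open Set NormedSpace Filter Topology Asymptotics
open scoped ENNReal RealInnerProductSpace

noncomputable section

namespace Rk1P

variable {A : Type} [HS A] {k : Submodule ℝ A} {h E F X Y : A} {j : ℝ}

theorem inner_br' (hX : Skew X) (Y Z : A) : ⟪Y, br X Z⟫ = -⟪br X Y, Z⟫ := by
  rw [hX.inner_br, neg_neg]

theorem norm_eq (hh : Skew h) (w : WP h X Y j) (hj : j ≠ 0) : ⟪X, X⟫ = ⟪Y, Y⟫ := by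
  have := hh.inner_br X Y
  rw [w.1, w.2, inner_neg_right, neg_neg, real_inner_smul_left, real_inner_smul_right] at this
  exact (mul_left_cancel₀ hj this).symm

theorem both_ne (hh : Skew h) (w : WP h X Y j) (hj : j ≠ 0) (hne : X ≠ 0 ∨ Y ≠ 0) :
    0 < ⟪X, X⟫ ∧ 0 < ⟪Y, Y⟫ := by
  have e := norm_eq hh w hj
  rcases hne with h1 | h1
  · exact ⟨real_inner_self_pos.2 h1, e ▸ real_inner_self_pos.2 h1⟩
  · exact ⟨e ▸ real_inner_self_pos.2 h1, real_inner_self_pos.2 h1⟩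

theorem lower_wp (t : WP h E F 2) (w : WP h X Y j) :
    WP h (br E X + br F Y) (br E Y - br F X) (j - 2) := by
  constructor
  · rw [br_add_right, br_br h E, br_br h F, t.1, t.2, w.1, w.2]
    simp only [br_neg_left, br_neg_right, br_smul_left, br_smul_right]
    module
  · rw [br_sub_right, br_br h E, br_br h F, t.1, t.2, w.1, w.2]
    simp only [br_neg_left, br_neg_right, br_smul_left, br_smul_right]
    module

theorem lower_ne (sa : SA k) (t : Tr k h E F) (w : WP h X Y j) (hj : 0 < j)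
    (hne : X ≠ 0 ∨ Y ≠ 0) : br E X + br F Y ≠ 0 ∨ br E Y - br F X ≠ 0 := by
  by_contra hc
  rw [not_or, not_not, not_not, add_eq_zero_iff_eq_neg, sub_eq_zero] at hc
  have h1 := (both_ne (sa.skew t.hm) w hj.ne' hne).1
  have h2 := (sa.skew t.Em).inner_br X (br F Y)
  have h3 := (sa.skew t.Fm).inner_br X (br E Y)
  rw [br_br, t.EF, br_smul_left, w.2, inner_add_right, hc.1, inner_neg_left, real_inner_smul_right,
    inner_neg_right, real_inner_smul_right] at h2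
  rw [← hc.2] at h3
  have h4 := real_inner_self_nonneg (x := br F Y)
  have h5 := real_inner_self_nonneg (x := br E Y)
  nlinarith [mul_pos hj h1]

/-- the orthogonal complement of the triple -/
def V (k : Submodule ℝ A) (h E F : A) : Submodule ℝ A where
  carrier := {X | X ∈ k ∧ ⟪h, X⟫ = 0 ∧ ⟪E, X⟫ = 0 ∧ ⟪F, X⟫ = 0}
  zero_mem' := by simp
  add_mem' := by
    rintro X Y ⟨a0, a1, a2, a3⟩ ⟨b0, b1, b2, b3⟩
    exact ⟨k.add_mem a0 b0, by simp [inner_add_right, a1, a2, a3, b1, b2, b3]⟩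
  smul_mem' := by
    rintro r X ⟨a0, a1, a2, a3⟩
    exact ⟨k.smul_mem r a0, by simp [real_inner_smul_right, a1, a2, a3]⟩

theorem V_h (sa : SA k) (t : Tr k h E F) (hX : X ∈ V k h E F) : br h X ∈ V k h E F := by
  obtain ⟨a0, a1, a2, a3⟩ := hX
  refine ⟨sa.br_mem t.hm a0, ?_, ?_, ?_⟩ <;> rw [inner_br' (sa.skew t.hm)]
  · simp
  · simp [t.wp.1, real_inner_smul_left, a3]
  · simp [t.wp.2, real_inner_smul_left, a2]

theorem V_E (sa : SA k) (t : Tr k h E F) (hX : X ∈ V k h E F) : br E X ∈ V k h E F := by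
  obtain ⟨a0, a1, a2, a3⟩ := hX
  refine ⟨sa.br_mem t.Em a0, ?_, ?_, ?_⟩ <;> rw [inner_br' (sa.skew t.Em)]
  · simp [br_comm E h, t.wp.1, real_inner_smul_left, a3]
  · simp
  · simp [t.EF, real_inner_smul_left, a1]

theorem V_F (sa : SA k) (t : Tr k h E F) (hX : X ∈ V k h E F) : br F X ∈ V k h E F := by
  obtain ⟨a0, a1, a2, a3⟩ := hX
  refine ⟨sa.br_mem t.Fm a0, ?_, ?_, ?_⟩ <;> rw [inner_br' (sa.skew t.Fm)]
  · simp [br_comm F h, t.wp.2, real_inner_smul_left, a2]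
  · simp [br_comm F E, t.EF, real_inner_smul_left, a1]
  · simp

theorem V_ne (h E F : A) (hk : 3 < Module.finrank ℝ k) : ∃ X ∈ V k h E F, X ≠ 0 := by
  let φ : k →ₗ[ℝ] ℝ × ℝ × ℝ := ((innerₛₗ ℝ h).prod ((innerₛₗ ℝ E).prod (innerₛₗ ℝ F))).comp k.subtype
  obtain ⟨X, h1, h2⟩ := (Submodule.ne_bot_iff _).1
    (LinearMap.ker_ne_bot_of_finrank_lt (f := φ) (by simpa using hk))
  have h3 : (⟪h, X.1⟫, ⟪E, X.1⟫, ⟪F, X.1⟫) = (0, 0, 0) := h1
  simp only [Prod.mk.injEq] at h3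
  exact ⟨X, ⟨X.2, h3⟩, fun e => h2 (Subtype.ext e)⟩

theorem down (sa : SA k) (t : Tr k h E F) (hc : ∀ X ∈ k, br h X = 0 → ∃ r : ℝ, X = r • h)
    (m : ℕ) : ∀ X ∈ V k h E F, ∀ Y ∈ V k h E F, X ≠ 0 ∨ Y ≠ 0 → WP h X Y m →
      ∃ X ∈ k, ∃ Y ∈ k, (X ≠ 0 ∨ Y ≠ 0) ∧ WP h X Y 1 := by
  induction m using Nat.twoStepInduction with
  | zero =>
    intro X hX Y hY hne w
    have key : ∀ Z ∈ V k h E F, br h Z = 0 → Z = 0 := fun Z hZ e => by
      obtain ⟨r, rfl⟩ := hc Z hZ.1 e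
      have h1 := hZ.2.1
      rw [real_inner_smul_right, mul_eq_zero, inner_self_eq_zero] at h1
      rw [h1.resolve_right t.ne, zero_smul]
    exact absurd hne (by
      rw [key X hX (by simpa using w.1), key Y hY (by simpa using w.2)]; simp)
  | one => exact fun X hX Y hY hne w => ⟨X, hX.1, Y, hY.1, hne, by simpa using w⟩
  | more m ih _ =>
    intro X hX Y hY hne w
    refine ih _ (add_mem (V_E sa t hX) (V_F sa t hY)) _ (sub_mem (V_E sa t hY) (V_F sa t hX))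
      (lower_ne sa t w (by positivity) hne) ?_
    simpa using lower_wp t.wp w

theorem wt_one (hJ : S_JE) (hS : S_Su2) (sa : SA k) (t : Tr k h E F)
    (hc : ∀ X ∈ k, br h X = 0 → ∃ r : ℝ, X = r • h) (hk : 3 < Module.finrank ℝ k) :
    ∃ X ∈ k, ∃ Y ∈ k, (X ≠ 0 ∨ Y ≠ 0) ∧ WP h X Y 1 := by
  obtain ⟨Z, hZ, hZ0⟩ := V_ne h E F hk
  obtain ⟨X, hX, Y, hY, a, w, hne⟩ := hJ A {h} (V k h E F)
    (by rintro _ rfl; exact sa.skew t.hm) (by rintro _ rfl _ rfl; exact br_self _)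
    (by rintro _ rfl X hX; exact V_h sa t hX) Z hZ 0 (zero_mem _) (Or.inl hZ0)
  have hX0 : X ≠ 0 := by
    rintro rfl
    simp at hne
  have w1 := w h rfl
  obtain ⟨m, hm⟩ := w1.int (sa.skew t.hm)
    (hS A h E F (sa.skew t.hm) (sa.skew t.Em) t.wp t.EF).1 (Or.inl hX0)
  rw [hm] at w1
  obtain ⟨n, rfl | rfl⟩ := m.eq_nat_or_neg
  · exact down sa t hc n X hX Y hY (Or.inl hX0) (by simpa using w1)
  · refine down sa t hc n X hX (-Y) (neg_mem hY) (Or.inl hX0) ⟨?_, ?_⟩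
    · simpa using w1.1
    · rw [br_neg_right, w1.2]
      simp

end Rk1P

open Rk1P in
theorem rk1 (hJ : S_JE) (hS : S_Su2) : S_Rk1 := by
  intro A _ k sa h E F t hc
  by_contra hk
  rw [not_le] at hk
  have hh := sa.skew t.hm
  obtain ⟨X, hX, Y, hY, hne, w⟩ := wt_one hJ hS sa t hc hk
  obtain ⟨r, hr⟩ := hc _ (sa.br_mem hX hY) (by
    rw [br_br, w.1, w.2]
    simp [br_neg_right])
  have hr0 : 0 < r := by
    have h1 := (sa.skew hX).inner_br Y h
    rw [hr, br_comm X h, w.1, one_smul, inner_neg_right, neg_neg, real_inner_smul_left] at h1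
    exact pos_of_mul_pos_left (h1 ▸ (both_ne hh w one_ne_zero hne).2) real_inner_self_nonneg
  have hs : √(4 / r) * (√(4 / r) * r) = 2 * 2 := by
    rw [← mul_assoc, Real.mul_self_sqrt (by positivity)]
    field_simp
    norm_num
  have t2 : Tr k ((2 : ℝ) • h) (√(4 / r) • X) (√(4 / r) • Y) := by
    refine ⟨k.smul_mem _ t.hm, k.smul_mem _ hX, k.smul_mem _ hY, ⟨?_, ?_⟩, ?_,
      smul_ne_zero two_ne_zero t.ne⟩
    · rw [br_smul_left, br_smul_right, w.1, one_smul]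
    · rw [br_smul_left, br_smul_right, w.2, one_smul, smul_neg, smul_neg]
    · rw [br_smul_left, br_smul_right, hr, smul_smul, smul_smul, smul_smul, mul_assoc, hs]
  obtain ⟨X', -, Y', -, hne', w'⟩ := wt_one hJ hS sa t2 (fun Z hZ e => by
    rw [br_smul_left, smul_eq_zero] at e
    obtain ⟨s, rfl⟩ := hc Z hZ (e.resolve_left two_ne_zero)
    exact ⟨s / 2, by rw [smul_smul, div_mul_cancel₀ _ two_ne_zero]⟩) hk
  have w2 := w'.smul (1 / 2)
  rw [smul_smul, one_div_mul_cancel two_ne_zero, one_smul, mul_one] at w2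
  obtain ⟨m, hm⟩ := w2.int hh (hS A h E F hh (sa.skew t.Em) t.wp t.EF).1 hne'
  have h2 : (2 * m : ℤ) = 1 := by
    have : (2 * m : ℝ) = 1 := by linarith
    exact_mod_cast this
  omega

end

end Pool.Agent.P.MP_e311cd_gt
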