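import Pool.Agent.P.MP_e311cd_gt.St

/-! `su(2)` triples, rank two root data and the torsion points of the torus. -/

namespace Pool.Agent.P.MP_e311cd_gt

open Set NormedSpace Filter Topology Asymptotics
open scoped ENNReal RealInnerProductSpace

noncomputable section

namespace Su2P

variable {A : Type} [HS A] {K : Set A} {k : Submodule ℝ A}

theorem br_eq_zero_of_sq {X V : A} (hX : Skew X) (h : br X (br X V) = 0) : br X V = 0 := by
  have h1 := hX.inner_br V (br X V)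
  rw [h, inner_zero_right, neg_zero, inner_self_eq_zero] at h1
  exact h1

theorem swap_zero (hk : SA k) {X Y : A} (hX : X ∈ k) (hY : Y ∈ k)
    (h : ∀ Z ∈ k, br X (br Y Z) = 0) {W : A} (hW : W ∈ k) : br Y (br X W) = 0 := by
  have h1 := (hk.skew hY).inner_br (br X W) (br Y (br X W))
  rw [(hk.skew hX).inner_br W, h _ (hk.br_mem hY (hk.br_mem hX hW)), inner_zero_right, neg_zero,
    neg_zero, inner_self_eq_zero] at h1
  exact h1

theorem ideal_step (hk : SA k) {X Y : A} (hX : X ∈ k) (hY : Y ∈ k)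
    (h : ∀ Z ∈ k, br X (br Y Z) = 0) {W Z : A} (hW : W ∈ k) (hZ : Z ∈ k) :
    br X (br (br W Y) Z) = 0 := by
  have key : ∀ W ∈ k, br (br Y W) (br X Z) + br (br X W) (br Y Z) = 0 := fun W hW => by
    have h1 := h _ (hk.br_mem hW hZ)
    rw [br_br Y W Z, br_add_right, br_br X (br Y W) Z, br_br X W (br Y Z), h W hW, h Z hZ,
      br_zero_left, br_zero_right, zero_add, add_zero] at h1
    exact h1
  have h2 := key _ (hk.br_mem hX hW)
  rw [swap_zero hk hX hY h hW, br_zero_left, zero_add] at h2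
  have h3 : br X (br W (br Y Z)) = 0 := by
    apply br_eq_zero_of_sq (hk.skew hX)
    rw [br_br X W (br Y Z), h Z hZ, br_zero_right, add_zero, br_br X (br X W) (br Y Z), h Z hZ,
      br_zero_right, add_zero, h2]
  have h4 : br (br W Y) Z = br W (br Y Z) - br Y (br W Z) := by
    rw [br_br W Y Z, add_sub_cancel_right]
  rw [h4, br_sub_right, h3, h _ (hk.br_mem hW hZ), sub_zero]

theorem tr_E_ne {h E F : A} (T : Tr k h E F) : E ≠ 0 := fun e => by
  have h1 := T.EF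
  rw [e, br_zero_left] at h1
  exact T.ne ((smul_eq_zero.mp h1.symm).resolve_left two_ne_zero)

theorem wp_neg_right {H E F : A} {a : ℝ} (h : WP H E F a) : WP H E (-F) (-a) :=
  ⟨by rw [h.1, neg_smul, smul_neg, neg_neg], by rw [br_neg_right, h.2, neg_smul, neg_neg]⟩

theorem wp_neg_left {H E F : A} {a : ℝ} (h : WP H E F a) : WP (-H) E F (-a) := by
  simpa using h.smul (-1)

theorem tr_neg {h E F : A} (T : Tr k h E F) : Tr k (-h) E (-F) where
  hm := k.neg_mem T.hm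
  Em := T.Em
  Fm := k.neg_mem T.Fm
  wp := by simpa using wp_neg_right (wp_neg_left T.wp)
  EF := by rw [br_neg_right, T.EF, smul_neg]
  ne := neg_ne_zero.mpr T.ne

theorem rd_core (hS : S_Su2) (hK : CG K k) {h₁ E₁ F₁ h₂ E₂ F₂ : A} (T₁ : Tr k h₁ E₁ F₁)
    (T₂ : Tr k h₂ E₂ F₂) (hc : br h₁ h₂ = 0) {c : ℤ} (h0 : c = 1 ∨ c = 2 ∨ c = 3)
    (ha : WP h₂ E₁ F₁ (-1)) (hb : WP h₁ E₂ F₂ (-c)) :
    RD K k c h₁ h₂ (exp ((Real.pi / 2) • E₁)) (exp ((Real.pi / 2) • E₂)) := by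
  obtain ⟨e1, r1⟩ := hS A h₁ E₁ F₁ (hK.skew T₁.hm) (hK.skew T₁.Em) T₁.wp T₁.EF
  obtain ⟨e2, r2⟩ := hS A h₂ E₂ F₂ (hK.skew T₂.hm) (hK.skew T₂.Em) T₂.wp T₂.EF
  refine ⟨h0, T₁.hm, T₂.hm, hc, e1, e2, hK.exp_mem (k.smul_mem _ T₁.Em),
    hK.exp_mem (k.smul_mem _ T₂.Em), ?_, ?_, ?_, ?_,
    ⟨E₁, T₁.Em, F₁, T₁.Fm, tr_E_ne T₁, T₁.wp, ha⟩, ⟨E₂, T₂.Em, F₂, T₂.Fm, tr_E_ne T₂, hb, T₂.wp⟩⟩
  · rw [r1 _ _ T₁.wp]; module
  · rw [r1 _ _ ha]; module
  · rw [r2 _ _ hb]; module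
  · rw [r2 _ _ T₂.wp]; module

theorem rd_neg (hS : S_Su2) (hK : CG K k) {h₁ E₁ F₁ h₂ E₂ F₂ : A} (T₁ : Tr k h₁ E₁ F₁)
    (T₂ : Tr k h₂ E₂ F₂) (hc : br h₁ h₂ = 0) {a b : ℤ} (ha : WP h₂ E₁ F₁ (-a))
    (hb : WP h₁ E₂ F₂ (-b)) (h1 : 0 < a) (h2 : 0 < b) (h3 : a * b < 4) :
    ∃ c h₁ h₂ n₁ n₂, RD K k c h₁ h₂ n₁ n₂ := by
  by_cases e : a = 1
  · subst e
    exact ⟨b, _, _, _, _, rd_core hS hK T₁ T₂ hc (by omega) (by simpa using ha) hb⟩
  · have e' : b = 1 := by nlinarith [show 2 ≤ a by omega]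
    subst e'
    exact ⟨a, _, _, _, _, rd_core hS hK T₂ T₁ (by rw [br_comm, hc, neg_zero]) (by omega)
      (by simpa using hb) ha⟩

theorem exp_int {X : A} (h : exp X = 1) (m : ℤ) : exp ((m : ℝ) • X) = 1 := by
  induction m using Int.induction_on with
  | zero => simp
  | succ i ih =>
    rw [Int.cast_add, exp_add_smul, ih, Int.cast_one, one_smul, h, one_mul]
  | pred i ih =>
    have h1 := exp_add_smul ((-(i : ℤ) - 1 : ℤ) : ℝ) 1 X
    rw [one_smul, h, mul_one] at h1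
    rw [← h1, ← ih]
    congr 2
    push_cast
    ring

theorem commute_comb {h₁ h₂ : A} (hc : br h₁ h₂ = 0) (a b c d : ℝ) :
    Commute (a • h₁ + b • h₂) (c • h₁ + d • h₂) := by
  have h := br_eq_zero.mp hc
  exact ((((Commute.refl h₁).smul_left a).smul_right c).add_right
    ((h.smul_left a).smul_right d)).add_left
    (((h.symm.smul_left b).smul_right c).add_right (((Commute.refl h₂).smul_left b).smul_right d))

theorem dvd_of_wp {h₁ h₂ E F : A} (s1 : Skew h₁) (s2 : Skew h₂) (hE : E ≠ 0) {a b : ℤ}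
    (w1 : WP h₁ E F a) (w2 : WP h₂ E F b) {N : ℤ} (hN : N ≠ 0) {u : ℤ × ℤ}
    (h : TE N h₁ h₂ u = 1) : N ∣ u.1 * a + u.2 * b := by
  have hN' : (N : ℝ) ≠ 0 := Int.cast_ne_zero.mpr hN
  obtain ⟨m, hm⟩ := (((w1.smul u.1).add (w2.smul u.2)).smul (1 / N)).int
    (((s1.smul _).add (s2.smul _)).smul _) (by
      rw [smul_smul, mul_one_div]; exact h) (Or.inl hE)
  refine ⟨m, ?_⟩
  have : ((u.1 * a + u.2 * b : ℤ) : ℝ) = ((N * m : ℤ) : ℝ) := by
    push_cast
    rw [← hm]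
    field_simp
  exact_mod_cast this

end Su2P

open Su2P

theorem su2 : S_Su2 := by
  intro A _ h E F hh hE w hEF
  have w' : WP E F h 2 := ⟨hEF, by rw [br_comm, w.1]⟩
  have hb := (hE.smul (Real.pi / 2)).uni_exp
  have h1 : Ad (exp ((Real.pi / 2) • E)) h = -h := by
    rw [((w'.smul (Real.pi / 2)).rot (hE.smul _)).2, div_mul_cancel₀ _ (two_ne_zero' ℝ),
      Real.cos_pi, Real.sin_pi]
    module
  refine ⟨?_, fun H a hH => ?_⟩
  · have hz := (hh.smul Real.pi).uni_exp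
    have h2 : Ad (exp (Real.pi • h)) E = E := by
      rw [((w.smul Real.pi).rot (hh.smul _)).1, mul_comm, Real.cos_two_pi, Real.sin_two_pi]
      module
    have h3 : Commute E (exp (Real.pi • h)) := by
      have := hz.Ad_mul_self E
      rwa [h2] at this
    have h4 := hb.Ad_of_commute (h3.smul_left (Real.pi / 2)).exp_left
    rw [hb.Ad_exp, Ad_smul, h1, smul_neg] at h4
    rw [two_mul, exp_add_smul]
    nth_rewrite 1 [← h4]
    exact exp_neg_mul _
  · have h2 : Commute E (H - (a / 2) • h) := by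
      rw [← br_eq_zero, br_sub_right, br_smul_right, br_comm E H, br_comm E h, hH.1, w.1]
      module
    have h3 := hb.Ad_of_commute (h2.smul_left (Real.pi / 2)).exp_left
    rw [Ad_sub, Ad_smul, h1] at h3
    linear_combination (norm := module) h3

theorem nn : S_NN := by
  intro A _ k hk X hX Y hY h
  let J : Submodule ℝ A :=
    { carrier := {Y | Y ∈ k ∧ ∀ Z ∈ k, br X (br Y Z) = 0}
      add_mem' := fun ha hb => ⟨k.add_mem ha.1 hb.1, fun Z hZ => by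
        rw [br_add_left, br_add_right, ha.2 Z hZ, hb.2 Z hZ, add_zero]⟩
      zero_mem' := ⟨k.zero_mem, fun Z _ => by simp⟩
      smul_mem' := fun r Y hY => ⟨k.smul_mem r hY.1, fun Z hZ => by
        rw [br_smul_left, br_smul_right, hY.2 Z hZ, smul_zero]⟩ }
  rcases hk.simple J (fun Z hZ => hZ.1) (fun W hW Y hY =>
    ⟨hk.br_mem hW hY.1, fun Z hZ => ideal_step hk hX hY.1 hY.2 hW hZ⟩) with h1 | h1
  · have : Y ∈ J := ⟨hY, h⟩
    rw [h1, Submodule.mem_bot] at this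
    exact Or.inr this
  · have h2 : X ∈ J := h1 ▸ hX
    refine Or.inl (hk.center hX fun Z hZ => ?_)
    rw [br_comm, br_eq_zero_of_sq (hk.skew hX) (h2.2 Z hZ), neg_zero]

theorem rd (hS : S_Su2) (hP : S_Pair) : S_RD := by
  intro A _ K k hK hk hd
  obtain ⟨h₁, E₁, F₁, h₂, E₂, F₂, a, b, T₁, T₂, hc, ha, hb, h1, h2⟩ := hP A k hk hd
  obtain ⟨a, rfl⟩ := ha.int (hK.skew T₂.hm)
    (hS A h₂ E₂ F₂ (hK.skew T₂.hm) (hK.skew T₂.Em) T₂.wp T₂.EF).1 (Or.inl (tr_E_ne T₁))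
  obtain ⟨b, rfl⟩ := hb.int (hK.skew T₁.hm)
    (hS A h₁ E₁ F₁ (hK.skew T₁.hm) (hK.skew T₁.Em) T₁.wp T₁.EF).1 (Or.inl (tr_E_ne T₂))
  have h3 : 0 < a * b := by exact_mod_cast h1
  have h4 : a * b < 4 := by exact_mod_cast h2
  rcases pos_and_pos_or_neg_and_neg_of_mul_pos h3 with ⟨h5, h6⟩ | ⟨h5, h6⟩
  · exact rd_neg hS hK T₁ (tr_neg T₂) (by rw [br_neg_right, hc, neg_zero]) (wp_neg_left ha)
      (wp_neg_right hb) h5 h6 h4
  · exact rd_neg hS hK T₁ T₂ hc (a := -a) (b := -b) (by simpa using ha) (by simpa using hb)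
      (by omega) (by omega) (by rwa [neg_mul_neg])

theorem tor : S_Tor := by
  intro A _ K k hK c h₁ h₂ n₁ n₂ R N hN hco
  have s1' := hK.skew R.m1
  have s2' := hK.skew R.m2
  have hN' : (N : ℝ) ≠ 0 := Int.cast_ne_zero.mpr hN
  refine ⟨fun u => hK.exp_mem (k.smul_mem _ (k.add_mem (k.smul_mem _ R.m1) (k.smul_mem _ R.m2))),
    fun u v => ?_, fun u => ⟨fun h => ?_, ?_⟩, fun u => ?_, fun u => ?_⟩
  · unfold TE
    rw [← exp_add_of_commute (((commute_comb R.comm _ _ _ _).smul_left _).smul_right _)]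
    congr 1
    simp only [Prod.fst_add, Prod.snd_add, Int.cast_add]
    module
  · obtain ⟨E, -, F, -, hE, w1, w2⟩ := R.wa
    obtain ⟨E', -, F', -, hE', w1', w2'⟩ := R.wb
    have d1 := dvd_of_wp s1' s2' hE (a := 2) (b := -1) (by simpa using w1) (by simpa using w2) hN h
    have d2 := dvd_of_wp s1' s2' hE' (a := -c) (b := 2) (by simpa using w1') (by simpa using w2')
      hN h
    exact ⟨hco.dvd_of_dvd_mul_left (((d1.mul_left 2).add d2).trans (dvd_of_eq (by ring))),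
      hco.dvd_of_dvd_mul_left (((d1.mul_left c).add (d2.mul_left 2)).trans (dvd_of_eq (by ring)))⟩
  · rintro ⟨⟨m1, e1⟩, m2, e2⟩
    have e : (2 * Real.pi / N) • ((u.1 : ℝ) • h₁ + (u.2 : ℝ) • h₂) =
        (m1 : ℝ) • (2 * Real.pi) • h₁ + (m2 : ℝ) • (2 * Real.pi) • h₂ := by
      rw [e1, e2, smul_add, smul_smul, smul_smul, smul_smul, smul_smul]
      congr 2 <;> push_cast <;> field_simp
    unfold TE
    rw [e, exp_add_of_commute (((((br_eq_zero.mp R.comm).smul_left _).smul_left _).smul_right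
      _).smul_right _), exp_int R.e1, exp_int R.e2, one_mul]
  · unfold TE
    rw [(hK.uni R.n1).mul_exp, Ad_smul, Ad_add, Ad_smul, Ad_smul, R.r11, R.r12]
    congr 3
    simp only [s1, Int.cast_add, Int.cast_neg]
    module
  · unfold TE
    rw [(hK.uni R.n2).mul_exp, Ad_smul, Ad_add, Ad_smul, Ad_smul, R.r21, R.r22]
    congr 3
    simp only [s2, Int.cast_sub, Int.cast_mul]
    module

end

end Pool.Agent.P.MP_e311cd_gt
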