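import Pool.Agent.P.MP_e311cd_gt.St

/-! The transplantation between the two quotients. -/

namespace Pool.Agent.P.MP_e311cd_gt

open Set NormedSpace Filter Topology Asymptotics
open scoped ENNReal RealInnerProductSpace

noncomputable section

namespace SunP

variable {G : Type} [Group G] {c N : ℤ} {E : ℤ × ℤ → G} {n₁ n₂ : G}

theorem E_congr (h : TD c N E n₁ n₂) {u v : ℤ × ℤ} (h1 : N ∣ u.1 - v.1) (h2 : N ∣ u.2 - v.2) :
    E u = E v := by
  have h0 : E (u - v) = 1 := (h.ker _).2 ⟨h1, h2⟩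
  rw [← sub_add_cancel u v, h.add, h0, one_mul]

theorem E_comm (h : TD c N E n₁ n₂) (u v : ℤ × ℤ) : E u * E v = E v * E u := by
  rw [← h.add, ← h.add, add_comm]

/-- the first reflection as an additive map -/
def S1 : ℤ × ℤ →+ ℤ × ℤ where
  toFun := s1
  map_zero' := by simp [s1]
  map_add' u v := by
    refine Prod.ext ?_ ?_ <;> simp only [s1, Prod.fst_add, Prod.snd_add]
    ring

/-- the second reflection as an additive map -/
def S2 (c : ℤ) : ℤ × ℤ →+ ℤ × ℤ where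
  toFun := s2 c
  map_zero' := by simp [s2]
  map_add' u v := by
    refine Prod.ext ?_ ?_ <;> simp only [s2, Prod.fst_add, Prod.snd_add]
    ring

theorem S1_apply (u : ℤ × ℤ) : S1 u = (-u.1 + u.2, u.2) := rfl
theorem S2_apply (c : ℤ) (u : ℤ × ℤ) : S2 c u = (u.1, c * u.1 - u.2) := rfl

theorem mul_n1 (h : TD c N E n₁ n₂) (w : ℤ × ℤ) : E w * n₁ = n₁ * E (S1 w) := by
  have e : s1 (S1 w) = w := by
    refine Prod.ext ?_ ?_ <;> simp only [s1, S1_apply]
    ring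
  rw [h.r1, e]

theorem mul_n2 (h : TD c N E n₁ n₂) (w : ℤ × ℤ) : E w * n₂ = n₂ * E (S2 c w) := by
  have e : s2 c (S2 c w) = w := by
    refine Prod.ext ?_ ?_ <;> simp only [s2, S2_apply]
    ring
  rw [h.r2, e]

theorem sl1 {q y y' : ℤ} (hq : q ∣ qq c y) (hy : y' = c - y) {w : ℤ × ℤ}
    (hw : q ∣ w.2 - y' * w.1) : q ∣ (S1 w).2 - y * (S1 w).1 := by
  have e : (S1 w).2 - y * (S1 w).1 = (w.2 - y' * w.1) * (1 - y) + qq c y * w.1 := by
    simp only [S1_apply, qq, hy]; ring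
  rw [e]
  exact (hw.mul_right _).add (hq.mul_right _)

theorem sl2 {q y y' : ℤ} (hy : y' = c - y) {w : ℤ × ℤ}
    (hw : q ∣ w.2 - y' * w.1) : q ∣ (S2 c w).2 - y * (S2 c w).1 := by
  have e : (S2 c w).2 - y * (S2 c w).1 = -(w.2 - y' * w.1) := by
    simp only [S2_apply, hy]; ring
  rw [e]
  exact hw.neg_right

/-- a reflection with coroot `r` that exchanges the two slopes -/
def Word (c z : ℤ) (E : ℤ × ℤ → G) (r : ℤ × ℤ) (n : G) : Prop :=
  ∃ σ : ℤ × ℤ →+ ℤ × ℤ, (∀ w, E w * n = n * E (σ w)) ∧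
    (∀ w : ℤ × ℤ, qq c z ∣ w.2 - (c - z) * w.1 → qq c z ∣ (σ w).2 - z * (σ w).1) ∧
    ∀ w, ∃ m : ℤ, w - σ w = m • r

theorem word1 (h : TD c N E n₁ n₂) (z : ℤ) : Word c z E (1, 0) n₁ :=
  ⟨S1, mul_n1 h, fun _ hw => sl1 dvd_rfl rfl hw, fun w => ⟨2 * w.1 - w.2, by
    refine Prod.ext ?_ ?_ <;>
      simp only [S1_apply, Prod.fst_sub, Prod.snd_sub, Prod.smul_mk, smul_eq_mul] <;> ring⟩⟩

theorem word2 (h : TD c N E n₁ n₂) (z : ℤ) : Word c z E (0, 1) n₂ :=
  ⟨S2 c, mul_n2 h, fun _ hw => sl2 rfl hw, fun w => ⟨2 * w.2 - c * w.1, by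
    refine Prod.ext ?_ ?_ <;>
      simp only [S2_apply, Prod.fst_sub, Prod.snd_sub, Prod.smul_mk, smul_eq_mul] <;> ring⟩⟩

theorem word3 (h : TD c N E n₁ n₂) (z : ℤ) : Word c z E (1, 1) (n₁ * n₂ * n₁) :=
  ⟨S1.comp ((S2 c).comp S1), fun w => by
    simp only [AddMonoidHom.comp_apply]
    rw [← mul_assoc, ← mul_assoc, mul_n1 h, mul_assoc n₁, mul_n2 h, mul_assoc n₁, mul_assoc n₂,
      mul_n1 h]
    simp only [mul_assoc],
  fun _ hw => sl1 dvd_rfl rfl (sl2 (y' := z) (by ring) (sl1 dvd_rfl rfl hw)),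
  fun w => ⟨c * w.1 - c * w.2 + 2 * w.2, by
    refine Prod.ext ?_ ?_ <;>
      simp only [AddMonoidHom.comp_apply, S1_apply, S2_apply, Prod.fst_sub, Prod.snd_sub,
        Prod.smul_mk, smul_eq_mul] <;> ring⟩⟩

theorem word4 (h : TD c N E n₁ n₂) (z : ℤ) : Word c z E (1, c) (n₂ * n₁ * n₂) :=
  ⟨(S2 c).comp (S1.comp (S2 c)), fun w => by
    simp only [AddMonoidHom.comp_apply]
    rw [← mul_assoc, ← mul_assoc, mul_n2 h, mul_assoc n₂, mul_n1 h, mul_assoc n₂, mul_assoc n₁,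
      mul_n2 h]
    simp only [mul_assoc],
  fun _ hw => sl2 rfl (sl1 (y' := z) (dvd_of_eq (qq_sub c z).symm) (by ring) (sl2 rfl hw)),
  fun w => ⟨2 * w.1 - c * w.1 + w.2, by
    refine Prod.ext ?_ ?_ <;>
      simp only [AddMonoidHom.comp_apply, S1_apply, S2_apply, Prod.fst_sub, Prod.snd_sub,
        Prod.smul_mk, smul_eq_mul] <;> ring⟩⟩

theorem roots2 {a b : ℂ} (ha : a ^ 2 = 1) (hb : b ^ 2 = 1) : a = 1 ∨ b = 1 ∨ a * b = 1 := by
  by_contra hn
  push Not at hn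
  obtain ⟨h1, h2, h3⟩ := hn
  have e1 : a + 1 = 0 := (mul_eq_zero.1 (show (a - 1) * (a + 1) = 0 by
    linear_combination ha)).resolve_left (sub_ne_zero.2 h1)
  have e2 : b + 1 = 0 := (mul_eq_zero.1 (show (b - 1) * (b + 1) = 0 by
    linear_combination hb)).resolve_left (sub_ne_zero.2 h2)
  exact h3 (by linear_combination b * e1 - e2)

theorem roots3 {a b : ℂ} (ha : a ^ 3 = 1) (hb : b ^ 3 = 1) :
    a = 1 ∨ b = 1 ∨ a * b = 1 ∨ a * b ^ 2 = 1 := by
  by_contra hn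
  push Not at hn
  obtain ⟨h1, h2, h3, h4⟩ := hn
  have e1 : a ^ 2 + a + 1 = 0 := (mul_eq_zero.1 (show (a - 1) * (a ^ 2 + a + 1) = 0 by
    linear_combination ha)).resolve_left (sub_ne_zero.2 h1)
  have e2 : b ^ 2 + b + 1 = 0 := (mul_eq_zero.1 (show (b - 1) * (b ^ 2 + b + 1) = 0 by
    linear_combination hb)).resolve_left (sub_ne_zero.2 h2)
  rcases mul_eq_zero.1 (show (a - b) * (a + b + 1) = 0 by linear_combination e1 - e2) with e | e
  · exact h4 (by linear_combination b ^ 2 * e + hb)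
  · exact h3 (by linear_combination a * e - e1)

/-- reduction modulo `P` -/
def red (P : ℕ) : ℤ × ℤ →+ ZMod P × ZMod P :=
  (Int.castAddHom (ZMod P)).prodMap (Int.castAddHom (ZMod P))

/-- integer representatives -/
def lift {P : ℕ} (v : ZMod P × ZMod P) : ℤ × ℤ := ((v.1.val : ℤ), (v.2.val : ℤ))

theorem red_apply (P : ℕ) (u : ℤ × ℤ) : red P u = ((u.1 : ZMod P), (u.2 : ZMod P)) := rfl

theorem red_lift {P : ℕ} [NeZero P] (v : ZMod P × ZMod P) : red P (lift v) = v := by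
  simp [red_apply, lift]

theorem red_smul (P : ℕ) (u : ℤ × ℤ) : red P ((P : ℤ) • u) = 0 := by
  simp [red_apply]

theorem exists_word (h : TD c N E n₁ n₂) (z : ℤ) {P : ℕ}
    (hP : (P : ℤ) = pp c) (χ : AddChar (ZMod P × ZMod P) ℂ) :
    ∃ n r, Word c z E r n ∧ χ (red P r) = 1 := by
  have hp : ∀ u, χ (red P u) ^ P = 1 := fun u => by
    rw [← AddChar.map_nsmul_eq_pow, ← map_nsmul, ← natCast_zsmul, red_smul, AddChar.map_zero_eq_one]
  have h11 : χ (red P (1, 1)) = χ (red P (1, 0)) * χ (red P (0, 1)) := by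
    rw [← AddChar.map_add_eq_mul, ← map_add]; rfl
  have h12 : χ (red P (1, 2)) = χ (red P (1, 0)) * χ (red P (0, 1)) ^ 2 := by
    rw [← AddChar.map_nsmul_eq_pow, ← map_nsmul, ← AddChar.map_add_eq_mul, ← map_add]; rfl
  by_cases h2 : c = 2
  · have hP3 : P = 3 := by
      rw [pp, if_pos h2] at hP
      exact_mod_cast hP
    have ha := hp (1, 0)
    have hb := hp (0, 1)
    rw [show χ (red P (1, 0)) ^ P = χ (red P (1, 0)) ^ 3 by congr 1] at ha
    rw [show χ (red P (0, 1)) ^ P = χ (red P (0, 1)) ^ 3 by congr 1] at hb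
    rcases roots3 ha hb with e | e | e | e
    · exact ⟨_, _, word1 h z, e⟩
    · exact ⟨_, _, word2 h z, e⟩
    · exact ⟨_, _, word3 h z, h11.trans e⟩
    · refine ⟨_, _, word4 h z, ?_⟩
      rw [show ((1, c) : ℤ × ℤ) = (1, 2) by rw [h2]]
      exact h12.trans e
  · have hP2 : P = 2 := by
      rw [pp, if_neg h2] at hP
      exact_mod_cast hP
    have ha := hp (1, 0)
    have hb := hp (0, 1)
    rw [show χ (red P (1, 0)) ^ P = χ (red P (1, 0)) ^ 2 by congr 1] at ha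
    rw [show χ (red P (0, 1)) ^ P = χ (red P (0, 1)) ^ 2 by congr 1] at hb
    rcases roots2 ha hb with e | e | e
    · exact ⟨_, _, word1 h z, e⟩
    · exact ⟨_, _, word2 h z, e⟩
    · exact ⟨_, _, word3 h z, h11.trans e⟩

theorem dvd_map (σ : ℤ × ℤ →+ ℤ × ℤ) {m : ℤ} {u : ℤ × ℤ} (h1 : m ∣ u.1) (h2 : m ∣ u.2) :
    m ∣ (σ u).1 ∧ m ∣ (σ u).2 := by
  obtain ⟨a, ha⟩ := h1
  obtain ⟨b, hb⟩ := h2
  have e : u = m • ((a, b) : ℤ × ℤ) := Prod.ext ha hb
  rw [e, map_zsmul]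
  exact ⟨Dvd.intro _ rfl, Dvd.intro _ rfl⟩

theorem pp_dvd (c : ℤ) : pp c ∣ 6 := by
  unfold pp
  split_ifs <;> norm_num

end SunP

open SunP in
theorem sun (h0 : S_Sun0) : S_Sun := by
  intro G _ c x z E n₁ n₂ h hg V hV
  obtain ⟨P, hP, hP0⟩ : ∃ P : ℕ, (P : ℤ) = pp c ∧ P ≠ 0 := by
    unfold pp
    split_ifs
    · exact ⟨3, rfl, by norm_num⟩
    · exact ⟨2, rfl, by norm_num⟩
  have : NeZero P := ⟨hP0⟩
  set p := pp c with hp
  set q := qq c x with hq
  set q' := qq c z with hq'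
  have hN : NN c x z = p ^ 2 * q * q' := rfl
  let e : ZMod P × ZMod P → G := fun v => E ((p * q * q') • lift v)
  have he : ∀ u, e (red P u) = E ((p * q * q') • u) := by
    intro u
    have key : ∀ a : ℤ, NN c x z ∣ p * q * q' * ((a : ZMod P).val : ℤ) - p * q * q' * a := by
      intro a
      rw [ZMod.val_intCast, hN, hP]
      refine ⟨-(a / p), ?_⟩
      have := Int.emod_add_mul_ediv a p
      linear_combination (p * q * q') * this
    exact E_congr h (key u.1) (key u.2)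
  choose n r hw hr using fun χ => exists_word h z hP χ
  refine h0 G (ZMod P × ZMod P) e _ _ V n ?_ hV ?_ ?_ ?_
  · intro u v
    rw [← red_lift u, ← red_lift v, ← map_add, he, he, he, smul_add, h.add]
  · rintro g ⟨a, -, ha⟩ y v
    rw [ha, ha, ← add_neg' h.add]
    simp only [e, mul_assoc]
    rw [E_comm h]
  · rintro g ⟨⟨u, u'⟩, hu, hgu⟩ χ
    obtain ⟨σ, hσ1, hσ2, hσ3⟩ := hw χ
    obtain ⟨a1, a2, a3, a4, a5, a6, a7, a8⟩ := mem_Om.1 hu
    simp only [qq_sub] at a1 a2 a3 a4 a5 a6 a7 a8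
    rw [← hp] at a1 a2
    rw [← hq] at a3 a4 a5
    rw [← hq'] at a6 a7 a8
    have hcop : IsCoprime (q * q') (p ^ 2) :=
      ((hg.cx.mul_left hg.cz).of_isCoprime_of_dvd_right (pp_dvd c)).pow_right
    obtain ⟨k0, k1, hk⟩ := hcop
    obtain ⟨w1, hw1⟩ := a1
    obtain ⟨w2, hw2⟩ := a2
    set w : ℤ × ℤ := (w1, w2) with hwdef
    have hu' : u' = p • (u + p • w) := by
      refine Prod.ext ?_ ?_ <;>
        simp only [hwdef, Prod.smul_fst, Prod.smul_snd, Prod.fst_add, Prod.snd_add, smul_eq_mul]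
      · linear_combination hw1
      · linear_combination hw2
    set t : ℤ × ℤ := u + p • w with ht
    have hσu : σ u' = p • σ t := by rw [hu', map_zsmul]
    obtain ⟨m, hm⟩ := hσ3 t
    set u'' : ℤ × ℤ := σ u' + (p * q * q') • (k0 • (t - σ t)) with hu''
    have hmem : (u, u'') ∈ Om c x z := by
      obtain ⟨b4, b5⟩ := dvd_map σ a4 a5
      have b8 := hσ2 u' a8
      refine mem_Om.2 ⟨?_, ?_, a3, ?_, ?_, a6, a7, ?_⟩
      · refine ⟨w1 - k1 * p * (t.1 - (σ t).1), ?_⟩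
        have e1 : t.1 = u.1 + p * w1 := rfl
        simp only [hu'', hσu, Prod.smul_fst, Prod.fst_add, Prod.fst_sub, smul_eq_mul, ← hp]
        linear_combination p * (t.1 - (σ t).1) * hk + p * e1
      · refine ⟨w2 - k1 * p * (t.2 - (σ t).2), ?_⟩
        have e1 : t.2 = u.2 + p * w2 := rfl
        simp only [hu'', hσu, Prod.smul_snd, Prod.snd_add, Prod.snd_sub, smul_eq_mul, ← hp]
        linear_combination p * (t.2 - (σ t).2) * hk + p * e1
      · simp only [hu'', Prod.smul_fst, Prod.fst_add, smul_eq_mul, ← hq]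
        exact b4.add ⟨p * q' * (k0 * (t - σ t).1), by ring⟩
      · simp only [hu'', Prod.smul_snd, Prod.snd_add, smul_eq_mul, ← hq]
        exact b5.add ⟨p * q' * (k0 * (t - σ t).2), by ring⟩
      · simp only [hu'', Prod.smul_fst, Prod.smul_snd, Prod.fst_add, Prod.snd_add, smul_eq_mul,
          ← hq']
        refine (b8.add (Dvd.intro (p * q * (k0 * ((t - σ t).2 - z * (t - σ t).1))) rfl)).trans
          (dvd_of_eq ?_)
        ring
    obtain ⟨g₁, hg₁, hg₁'⟩ := exists_Gam h.add hmem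
    refine ⟨g₁, hg₁, red P (k0 • (t - σ t)), ?_, fun y => ?_⟩
    · rw [hm, smul_smul, map_zsmul, AddChar.map_zsmul_eq_zpow, hr, one_zpow]
    · rw [hgu, hg₁', he, ← add_neg' h.add, ← add_neg' h.add]
      have e3 : E (σ (-u')) = E (-u'') * E ((p * q * q') • k0 • (t - σ t)) := by
        rw [← h.add, map_neg, hu'']
        congr 1
        abel
      rw [mul_assoc, hσ1, e3]
      simp only [mul_assoc]
  · intro v
    have hmem : ((q * q') • lift v, (p * q * q') • lift v) ∈ Om c x z := by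
      refine mem_Om.2 ⟨?_, ?_, ?_, ?_, ?_, ?_, ?_, ?_⟩ <;>
        simp only [Prod.smul_fst, Prod.smul_snd, smul_eq_mul, ← hp, ← hq, ← hq']
      · exact ⟨0, by ring⟩
      · exact ⟨0, by ring⟩
      · exact ⟨q' * ((lift v).2 - x * (lift v).1), by ring⟩
      · exact ⟨p * q' * (lift v).1, by ring⟩
      · exact ⟨p * q' * (lift v).2, by ring⟩
      · exact ⟨q * (lift v).1, by ring⟩
      · exact ⟨q * (lift v).2, by ring⟩
      · exact ⟨p * q * ((lift v).2 - z * (lift v).1), by ring⟩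
    obtain ⟨g₁, hg₁, hg₁'⟩ := exists_Gam h.add hmem
    refine ⟨E ((q * q') • lift v), g₁, hg₁, fun y => ?_⟩
    rw [hg₁']
    simp only [e, mul_assoc, inv_mul_cancel, mul_one]

end

end Pool.Agent.P.MP_e311cd_gt
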