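import Pool.Agent.P.MP_e311cd_gt.St

/-! Transplantation, and the space of eigenfunctions. -/

namespace Pool.Agent.P.MP_e311cd_gt

open Set NormedSpace Filter Topology Asymptotics
open scoped ENNReal RealInnerProductSpace

noncomputable section

namespace Sun0P

section Tr

variable {G T : Type} [Group G] [AddCommGroup T] [Fintype T]

/-- the Fourier component of a function under right translations -/
def PF (e : T → G) (χ : AddChar T ℂ) (f : G → ℂ) (y : G) : ℂ := ∑ v, χ (-v) * f (y * e v)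

/-- the transplantation map -/
def TT (e : T → G) (n : AddChar T ℂ → G) : (G → ℂ) →ₗ[ℂ] (G → ℂ) where
  toFun f y := ∑ χ, PF e χ f (y * n χ)
  map_add' f g := by
    funext y
    simp only [PF, Pi.add_apply, mul_add, Finset.sum_add_distrib]
  map_smul' c f := by
    funext y
    simp only [PF, Pi.smul_apply, smul_eq_mul, RingHom.id_apply, Finset.mul_sum, mul_left_comm]

theorem TT_apply (e : T → G) (n : AddChar T ℂ → G) (f : G → ℂ) (y : G) :
    TT e n f y = ∑ χ, PF e χ f (y * n χ) := rfl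

theorem PF_mul {e : T → G} (he : ∀ u v, e (u + v) = e u * e v) (χ : AddChar T ℂ) (f : G → ℂ)
    (y : G) (w : T) : PF e χ f (y * e w) = χ w * PF e χ f y := by
  unfold PF
  rw [Finset.mul_sum, ← Equiv.sum_comp (Equiv.addLeft w)
    (fun v => χ w * (χ (-v) * f (y * e v)))]
  refine Finset.sum_congr rfl fun v _ => ?_
  show _ = χ w * (χ (-(w + v)) * f (y * e (w + v)))
  rw [he, ← mul_assoc (χ w), ← AddChar.map_add_eq_mul, mul_assoc]
  congr 2
  abel

theorem PF_inv {e : T → G} {g : Equiv.Perm G} (hg : ∀ y v, g (y * e v) = g y * e v)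
    (χ : AddChar T ℂ) {f : G → ℂ} (hf : ∀ x, f (g x) = f x) (y : G) :
    PF e χ f (g y) = PF e χ f y := by
  unfold PF
  simp only [← hg, hf]

theorem sum_PF {e : T → G} (he : ∀ u v, e (u + v) = e u * e v) (f : G → ℂ) (y : G) :
    ∑ χ, PF e χ f y = Fintype.card T * f y := by
  classical
  have e0 : e 0 = 1 := by
    have := he 0 0
    rw [add_zero] at this
    exact left_eq_mul.mp this
  unfold PF
  rw [Finset.sum_comm]
  simp only [← Finset.sum_mul, AddChar.sum_apply_eq_ite, neg_eq_zero, ite_mul, zero_mul]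
  rw [Finset.sum_ite_eq' Finset.univ (0 : T), if_pos (Finset.mem_univ _), e0, mul_one]

end Tr

section Eigen

open scoped ContDiff Matrix Matrix.Norms.Frobenius

variable {n : ℕ} {K : Subgroup (Matrix.unitaryGroup (Fin n) ℂ)} {k : Submodule ℝ (Mat n)}

theorem contDiffAt_curve {F : Mat n → ℂ} (hF : ContDiff ℝ ∞ F) (x X : Mat n) :
    ContDiffAt ℝ (2 : ℕ) (fun t : ℝ => F (x * exp (t • X))) 0 := by
  have h1 : ContDiff ℝ ∞ fun t : ℝ => x * exp (t • X) :=
    contDiff_const.mul (contDiff_exp_smul X)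
  exact (contDiff_infty.mp (hF.comp h1) 2).contDiffAt

/-- the eigenfunctions -/
def EV (k : Submodule ℝ (Mat n)) (μ : ℝ) : Submodule ℂ (K → ℂ) where
  carrier := {f | IsEigen k μ f}
  zero_mem' := ⟨fun _ => 0, contDiff_const, fun _ => rfl, fun m X _ x => by simp⟩
  add_mem' := by
    rintro f g ⟨F, hF, hf, h⟩ ⟨F', hF', hg, h'⟩
    refine ⟨fun X => F X + F' X, hF.add hF', fun x => by rw [Pi.add_apply, hf, hg],
      fun m X hX x => ?_⟩
    simp only [iteratedDeriv_fun_add (contDiffAt_curve hF _ _) (contDiffAt_curve hF' _ _),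
      Finset.sum_add_distrib, Pi.add_apply]
    rw [neg_add, h m X hX x, h' m X hX x, mul_add]
  smul_mem' := by
    rintro c f ⟨F, hF, hf, h⟩
    refine ⟨fun X => c • F X, hF.const_smul c, fun x => by rw [Pi.smul_apply, hf],
      fun m X hX x => ?_⟩
    simp only [iteratedDeriv_fun_const_smul (contDiffAt_curve hF _ _), Pi.smul_apply,
      ← Finset.smul_sum]
    rw [← smul_neg, h m X hX x, smul_eq_mul, smul_eq_mul, mul_left_comm]

theorem onb_Ad (h : IsSimpleGroup K k) {m : ℕ} {X : Fin m → Mat n} (hX : IsONB k X) (a : K) :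
    IsONB k fun i => Ad (mat a) (X i) := by
  refine ⟨?_, fun i j => ?_⟩
  · have e : range (fun i => Ad (mat a) (X i)) = AdL (mat a) '' range X := by
      rw [← range_comp]; rfl
    rw [e, Submodule.span_image, hX.1]
    refine le_antisymm ?_ fun Y hY => ?_
    · rintro _ ⟨Y, hY, rfl⟩
      exact h.cg.Ad_mem (mat_mem a) hY
    · exact ⟨Ad (star (mat a)) Y, h.cg.Ad_mem (mat_mem a⁻¹) hY, (mat_uni a).Ad_Ad_star Y⟩
  · rw [ip_eq, (mat_uni a).inner_Ad]
    exact hX.2 i j

theorem eigen_right (h : IsSimpleGroup K k) {μ : ℝ} {f : K → ℂ} (hf : IsEigen k μ f) (a : K) :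
    IsEigen k μ fun y => f (y * a) := by
  obtain ⟨F, hF, hf, he⟩ := hf
  refine ⟨fun X => F (X * mat a), hF.comp (contDiff_id.mul contDiff_const), fun x => hf _,
    fun m X hX x => ?_⟩
  rw [← he m _ (onb_Ad h hX a⁻¹) (x * a)]
  have e : ∀ (t : ℝ) (Y : Mat n), mat x * exp (t • Y) * mat a =
      mat (x * a) * exp (t • Ad (mat a⁻¹) Y) := by
    intro t Y
    have e1 := (mat_uni a).mul_exp (Ad (star (mat a)) (t • Y))
    rw [(mat_uni a).Ad_Ad_star, Ad_smul] at e1
    rw [mat_mul, mul_assoc (mat x), mul_assoc (mat x)]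
    exact congrArg (mat x * ·) e1.symm
  simp only [e]

end Eigen

end Sun0P

open Sun0P in
theorem sun0 : S_Sun0 := by
  intro G T _ _ _ e Γ₁ Γ₂ V n he hV h1 h2 h3
  have := Fintype.ofFinite T
  have hm : ∀ f ∈ V ⊓ Inv Γ₁, TT e n f ∈ V ⊓ Inv Γ₂ := by
    rintro f ⟨hf, hf'⟩
    refine ⟨?_, fun g hg y => ?_⟩
    · have e1 : TT e n f = ∑ χ, ∑ v, χ (-v) • fun y => f (y * (n χ * e v)) := by
        funext y
        simp only [TT_apply, PF, Finset.sum_apply, Pi.smul_apply, smul_eq_mul, mul_assoc]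
      rw [e1]
      exact V.sum_mem fun χ _ => V.sum_mem fun v _ => V.smul_mem _ (hV f hf _)
    · rw [TT_apply, TT_apply]
      refine Finset.sum_congr rfl fun χ _ => ?_
      obtain ⟨g₁, hg₁, v, hv, hy⟩ := h2 g hg χ
      rw [hy, PF_mul he, hv, one_mul, PF_inv (h1 g₁ hg₁) χ (hf' g₁ hg₁)]
  refine LinearMap.rank_le_of_injective ((TT e n).restrict hm) ?_
  rw [injective_iff_map_eq_zero]
  rintro ⟨f, hf, hf'⟩ h0
  have h4 : TT e n f = 0 := congrArg Subtype.val h0
  have h5 : ∀ χ y, PF e χ f (y * n χ) = 0 := by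
    intro χ y
    refine Fintype.linearIndependent_iff.mp (AddChar.linearIndependent T ℂ)
      (fun χ => PF e χ f (y * n χ)) ?_ χ
    funext w
    obtain ⟨a, g₁, hg₁, hy⟩ := h3 w
    have h6 := congrFun h4 (a * y)
    rw [TT_apply] at h6
    rw [Finset.sum_apply]
    refine Eq.trans (Finset.sum_congr rfl fun χ _ => ?_) h6
    rw [mul_assoc, hy, PF_mul he, PF_inv (h1 g₁ hg₁) χ (hf' g₁ hg₁), Pi.smul_apply, smul_eq_mul,
      mul_comm]
  refine Subtype.ext (funext fun y => ?_)
  have h7 := sum_PF he f y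
  rw [Finset.sum_eq_zero fun χ _ => by simpa using h5 χ (y * (n χ)⁻¹)] at h7
  exact (mul_eq_zero.mp h7.symm).resolve_left (Nat.cast_ne_zero.mpr Fintype.card_ne_zero)

open Sun0P in
theorem eig : S_Eig := by
  intro n K k h μ
  refine ⟨EV k μ, fun f hf a => eigen_right h hf a, fun Γ => ?_⟩
  exact Submodule.span_eq (EV k μ ⊓ Inv Γ)

end

end Pool.Agent.P.MP_e311cd_gt
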