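import Pool.Agent.P.MP_e311cd_gt.Asm
import Pool.Agent.P.MP_e311cd_gt.Chart
import Pool.Agent.P.MP_e311cd_gt.Gauss
import Pool.Agent.P.MP_e311cd_gt.Mid
import Pool.Agent.P.MP_e311cd_gt.Dist
import Pool.Agent.P.MP_e311cd_gt.Quo
import Pool.Agent.P.MP_e311cd_gt.Half
import Pool.Agent.P.MP_e311cd_gt.Jet
import Pool.Agent.P.MP_e311cd_gt.Lin2
import Pool.Agent.P.MP_e311cd_gt.Aut
import Pool.Agent.P.MP_e311cd_gt.Hom
import Pool.Agent.P.MP_e311cd_gt.Rig
import Pool.Agent.P.MP_e311cd_gt.JE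
import Pool.Agent.P.MP_e311cd_gt.Su2
import Pool.Agent.P.MP_e311cd_gt.Rk1
import Pool.Agent.P.MP_e311cd_gt.Pair
import Pool.Agent.P.MP_e311cd_gt.Ar
import Pool.Agent.P.MP_e311cd_gt.ArC
import Pool.Agent.P.MP_e311cd_gt.Sun0
import Pool.Agent.P.MP_e311cd_gt.Sun

/-! Groups of dimension greater than three cover isospectral manifolds. -/

namespace Pool.Agent.P.MP_e311cd_gt

theorem hDist : S_Dist := dist (gauss chart)

theorem hHalf : S_Half := half (mid chart (gauss chart))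

theorem hGlob : S_Glob := glob chart hHalf (hom chart)

theorem hRig : S_Rig := rig (lin1 chart hHalf) (lin2 chart jet) aut hGlob

theorem covers {n : ℕ} {K : Subgroup (Matrix.unitaryGroup (Fin n) ℂ)} {k : Submodule ℝ (Mat n)}
    (h : IsSimpleGroup K k) (hd : 3 < Module.finrank ℝ k) : Covers K k :=
  asm hDist (lr chart hDist) (quo hDist) hRig (rd su2 (pair je nn (rk1 je su2))) (wt je) tor ar0
    free arC (sun sun0) eig h hd

end Pool.Agent.P.MP_e311cd_gt
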