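import Pool.Agent.P.MP_e311cd_gt.St

/-! Joint eigenvectors of commuting skew elements; intertwining maps match weights. -/

namespace Pool.Agent.P.MP_e311cd_gt

open Set NormedSpace Filter Topology Asymptotics
open scoped ENNReal RealInnerProductSpace

noncomputable section

namespace JEP

variable {A : Type} [HS A]

/-- the symmetric map `(E, F) ↦ (-[H, F], [H, E])` on pairs of elements of `V` -/
def sy (V : Submodule ℝ A) (H : A) (hH : ∀ X ∈ V, br H X ∈ V) :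
    WithLp 2 (V × V) →ₗ[ℝ] WithLp 2 (V × V) where
  toFun p := WithLp.toLp 2 (-⟨br H p.snd, hH _ p.snd.2⟩, ⟨br H p.fst, hH _ p.fst.2⟩)
  map_add' p q := by
    refine (WithLp.ext_iff 2).mpr (Prod.ext (Subtype.ext ?_) (Subtype.ext ?_))
    · simp [br_add_right, add_comm]
    · simp [br_add_right]
  map_smul' r p := by
    refine (WithLp.ext_iff 2).mpr (Prod.ext (Subtype.ext ?_) (Subtype.ext ?_))
    · simp [br_smul_right]
    · simp [br_smul_right]

theorem sy_fst (V : Submodule ℝ A) (H : A) (hH : ∀ X ∈ V, br H X ∈ V) (p : WithLp 2 (V × V)) :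
    ((sy V H hH p).fst : A) = -br H p.snd := rfl

theorem sy_snd (V : Submodule ℝ A) (H : A) (hH : ∀ X ∈ V, br H X ∈ V) (p : WithLp 2 (V × V)) :
    ((sy V H hH p).snd : A) = br H p.fst := rfl

theorem inner_pair (V : Submodule ℝ A) (p q : WithLp 2 (V × V)) :
    ⟪p, q⟫ = ⟪(p.fst : A), (q.fst : A)⟫ + ⟪(p.snd : A), (q.snd : A)⟫ := rfl

theorem sy_symm (V : Submodule ℝ A) {H : A} (hH : ∀ X ∈ V, br H X ∈ V) (hs : Skew H) :
    LinearMap.IsSymmetric (𝕜 := ℝ) (E := WithLp 2 (V × V)) (sy V H hH) := fun p q => by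
  rw [inner_pair, inner_pair, sy_fst, sy_snd, sy_fst, sy_snd, inner_neg_left, inner_neg_right,
    hs.inner_br, hs.inner_br]
  ring

theorem sy_comm (V : Submodule ℝ A) {H H' : A} (hH : ∀ X ∈ V, br H X ∈ V)
    (hH' : ∀ X ∈ V, br H' X ∈ V) (h : br H H' = 0) : Commute (sy V H hH) (sy V H' hH') := by
  have e : ∀ X : A, br H (br H' X) = br H' (br H X) := fun X => by
    rw [br_br, h, br_zero_left, zero_add]
  refine LinearMap.ext fun p => ?_
  refine (WithLp.ext_iff 2).mpr (Prod.ext (Subtype.ext ?_) (Subtype.ext ?_))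
  · change -br H (br H' p.fst) = -br H' (br H p.fst)
    rw [e]
  · change br H (-br H' p.snd) = br H' (-br H p.snd)
    rw [br_neg_right, br_neg_right, e]

theorem abs_le_of_wp {H X Y : A} {a : ℝ} (h : WP H X Y a) (hne : X ≠ 0 ∨ Y ≠ 0) :
    |a| ≤ 2 * ‖H‖ := by
  have h1 := norm_br_le H X
  have h2 := norm_br_le H Y
  rw [h.1, norm_smul, Real.norm_eq_abs] at h1
  rw [h.2, norm_neg, norm_smul, Real.norm_eq_abs] at h2
  have h3 : 0 < ‖X‖ + ‖Y‖ := by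
    rcases hne with h3 | h3
    · exact add_pos_of_pos_of_nonneg (norm_pos_iff.mpr h3) (norm_nonneg _)
    · exact add_pos_of_nonneg_of_pos (norm_nonneg _) (norm_pos_iff.mpr h3)
  exact le_of_mul_le_mul_right (by linarith) h3

theorem rot_TE {h₁ h₂ E F : A} {a : ℤ × ℤ} (s₁ : Skew h₁) (s₂ : Skew h₂) (w₁ : WP h₁ E F a.1)
    (w₂ : WP h₂ E F a.2) (N : ℤ) (u : ℤ × ℤ) :
    Ad (TE N h₁ h₂ u) E = Real.cos (2 * Real.pi / N * dt a u) • E +
        Real.sin (2 * Real.pi / N * dt a u) • F ∧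
      Ad (TE N h₁ h₂ u) F = Real.cos (2 * Real.pi / N * dt a u) • F -
        Real.sin (2 * Real.pi / N * dt a u) • E := by
  have h := (((w₁.smul u.1).add (w₂.smul u.2)).smul (2 * Real.pi / N)).rot
    (((s₁.smul u.1).add (s₂.smul u.2)).smul _)
  have e : (u.1 : ℝ) * a.1 + u.2 * a.2 = dt a u := by
    rw [dt]; push_cast; ring
  rw [e] at h
  exact h

/-- two pairs rotated by the same unitary and not orthogonal have the same angle -/
theorem cos_sub_eq_one {g X Y E F : A} {σ τ : ℝ} (hg : Uni g)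
    (hX : Ad g X = Real.cos σ • X + Real.sin σ • Y) (hY : Ad g Y = Real.cos σ • Y - Real.sin σ • X)
    (hE : Ad g E = Real.cos τ • E + Real.sin τ • F) (hF : Ad g F = Real.cos τ • F - Real.sin τ • E)
    (hne : ⟪X, E⟫ + ⟪Y, F⟫ ≠ 0) : Real.cos (τ - σ) = 1 := by
  have h1 := hg.inner_Ad X E
  have h2 := hg.inner_Ad X F
  have h3 := hg.inner_Ad Y E
  have h4 := hg.inner_Ad Y F
  simp only [hX, hY, hE, hF, inner_add_left, inner_add_right, inner_sub_left, inner_sub_right,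
    real_inner_smul_left, real_inner_smul_right] at h1 h2 h3 h4
  have hc := Real.cos_sub τ σ
  have hs := Real.sin_sub τ σ
  have hcs := Real.sin_sq_add_cos_sq (τ - σ)
  have e1 : (1 - Real.cos (τ - σ)) * (⟪X, E⟫ + ⟪Y, F⟫) =
      Real.sin (τ - σ) * (⟪X, F⟫ - ⟪Y, E⟫) := by
    rw [hc, hs]; linear_combination -h1 - h4
  have e2 : (1 - Real.cos (τ - σ)) * (⟪X, F⟫ - ⟪Y, E⟫) =
      -Real.sin (τ - σ) * (⟪X, E⟫ + ⟪Y, F⟫) := by
    rw [hc, hs]; linear_combination -h2 + h3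
  have e3 : (2 - 2 * Real.cos (τ - σ)) * (⟪X, E⟫ + ⟪Y, F⟫) = 0 := by
    linear_combination (1 - Real.cos (τ - σ)) * e1 + Real.sin (τ - σ) * e2 -
      (⟪X, E⟫ + ⟪Y, F⟫) * hcs
  linarith [(mul_eq_zero.mp e3).resolve_right hne]

end JEP

open JEP in
theorem je : S_JE := by
  classical
  intro A _ t V hs hc hV X hX Y hY hne
  have h := LinearMap.IsSymmetric.iSup_iInf_eq_top_of_commute (𝕜 := ℝ) (E := WithLp 2 (V × V))
    (T := fun H : t => sy V H (hV H H.2)) (fun H => sy_symm V _ (hs H H.2))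
    (fun H H' _ => sy_comm V _ _ (hc H H.2 H' H'.2))
  by_contra hcon
  push Not at hcon
  have key : ∀ p : WithLp 2 (V × V), ⟪(p.fst : A), X⟫ + ⟪(p.snd : A), Y⟫ = 0 := fun p => by
    have hp : p ∈ (⊤ : Submodule ℝ (WithLp 2 (V × V))) := Submodule.mem_top
    rw [← h] at hp
    refine Submodule.iSup_induction _
      (motive := fun p : WithLp 2 (V × V) => ⟪(p.fst : A), X⟫ + ⟪(p.snd : A), Y⟫ = 0) hp ?_ ?_ ?_
    · intro χ q hq
      refine hcon _ q.fst.2 _ q.snd.2 (fun H => if hH : H ∈ t then χ ⟨H, hH⟩ else 0) fun H hH => ?_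
      have h1 := Module.End.mem_eigenspace_iff.mp ((Submodule.mem_iInf _).mp hq ⟨H, hH⟩)
      have h2 : -br H q.snd = χ ⟨H, hH⟩ • (q.fst : A) := congrArg (fun z => (z.fst : A)) h1
      have h3 : br H q.fst = χ ⟨H, hH⟩ • (q.snd : A) := congrArg (fun z => (z.snd : A)) h1
      rw [dif_pos hH]
      exact ⟨h3, by rw [← h2, neg_neg]⟩
    · simp
    · intro p q hp hq
      change ⟪(p.fst : A) + q.fst, X⟫ + ⟪(p.snd : A) + q.snd, Y⟫ = 0
      rw [inner_add_left, inner_add_left]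
      linarith
  have h1 : ⟪X, X⟫ + ⟪Y, Y⟫ = 0 := key (WithLp.toLp 2 (⟨X, hX⟩, ⟨Y, hY⟩))
  have h2 := real_inner_self_nonneg (x := X)
  have h3 := real_inner_self_nonneg (x := Y)
  rcases hne with h4 | h4
  · exact h4 (inner_self_eq_zero (𝕜 := ℝ).mp (by linarith))
  · exact h4 (inner_self_eq_zero (𝕜 := ℝ).mp (by linarith))

open JEP in
theorem wt (hJ : S_JE) : S_Wt := by
  intro A _ h₁ h₂ s₁ s₂ hc e₁ e₂
  have n₁ := norm_nonneg h₁
  have n₂ := norm_nonneg h₂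
  have hB := Int.le_ceil (2 * ‖h₁‖ + 2 * ‖h₂‖)
  refine ⟨⌈2 * ‖h₁‖ + 2 * ‖h₂‖⌉, Int.ceil_nonneg (by positivity), fun P E F a w₁ w₂ hP => ?_⟩
  obtain ⟨X, -, Y, -, b, hb, hne⟩ := hJ A {h₁, h₂} ⊤ (by rintro H (rfl | rfl); exacts [s₁, s₂])
    (by
      rintro H (rfl | rfl) H' (rfl | rfl)
      exacts [br_self _, hc, by rw [br_comm, hc, neg_zero], br_self _])
    (fun _ _ _ _ => Submodule.mem_top) (P E) Submodule.mem_top (P F) Submodule.mem_top (Or.inl hP)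
  have hXY : X ≠ 0 ∨ Y ≠ 0 := by
    by_contra h
    push Not at h
    exact hne (by simp [h.1, h.2])
  have b₁ := hb h₁ (Or.inl rfl)
  have b₂ := hb h₂ (Or.inr rfl)
  obtain ⟨m₁, hm₁⟩ := b₁.int s₁ e₁ hXY
  obtain ⟨m₂, hm₂⟩ := b₂.int s₂ e₂ hXY
  rw [hm₁] at b₁
  rw [hm₂] at b₂
  have c₁ := abs_le_of_wp b₁ hXY
  have c₂ := abs_le_of_wp b₂ hXY
  refine ⟨(m₁, m₂), ?_, ?_, fun N u v hN hE hF => ?_⟩
  · have : |(m₁ : ℝ)| ≤ ⌈2 * ‖h₁‖ + 2 * ‖h₂‖⌉ := by linarith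
    exact_mod_cast this
  · have : |(m₂ : ℝ)| ≤ ⌈2 * ‖h₁‖ + 2 * ‖h₂‖⌉ := by linarith
    exact_mod_cast this
  · obtain ⟨r₁, r₂⟩ := rot_TE s₁ s₂ w₁ w₂ N u
    obtain ⟨r₃, r₄⟩ := rot_TE (a := (m₁, m₂)) s₁ s₂ b₁ b₂ N v
    rw [r₁, map_add, map_smul, map_smul] at hE
    rw [r₂, map_sub, map_smul, map_smul] at hF
    have hg : Uni (TE N h₁ h₂ v) := (((s₁.smul v.1).add (s₂.smul v.2)).smul _).uni_exp
    obtain ⟨m, hm⟩ := (Real.cos_eq_one_iff _).mp (cos_sub_eq_one hg r₃ r₄ hE.symm hF.symm hne)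
    have hN' : (N : ℝ) ≠ 0 := by exact_mod_cast hN
    have hpi : Real.pi ≠ 0 := Real.pi_ne_zero
    have e : ((dt a u - dt (m₁, m₂) v : ℤ) : ℝ) = ((N * m : ℤ) : ℝ) := by
      push_cast
      field_simp at hm
      linarith
    exact (Int.modEq_iff_dvd.mpr ⟨m, by exact_mod_cast e⟩).symm

end

end Pool.Agent.P.MP_e311cd_gt
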