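import Pool.Agent.P.MP_e311cd_gt.Conc

/-! Statements of the packages. -/

namespace Pool.Agent.P.MP_e311cd_gt

open Set NormedSpace Filter Topology Asymptotics
open scoped ENNReal RealInnerProductSpace

noncomputable section

section Defs

variable {A : Type} [HS A]

/-- a locally isometric correspondence -/
structure LR (K : Set A) (k : Submodule ℝ A) (R : A → A → Prop) (ε : ℝ) : Prop where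
  pos : 0 < ε
  mem : ∀ {x z}, R x z → x ∈ K ∧ z ∈ K
  ex : ∀ {x z ξ}, R x z → ξ ∈ k → ‖ξ‖ < ε → ∃ η ∈ k, ‖η‖ = ‖ξ‖ ∧ R (x * exp ξ) (z * exp η)
  un : ∀ {x z z'}, R x z → R x z' → ‖z - z'‖ < ε → z = z'

/-- a linear isometry of `k` -/
structure Iso (k : Submodule ℝ A) (D : A →ₗ[ℝ] A) : Prop where
  mem : ∀ {X}, X ∈ k → D X ∈ k
  norm : ∀ {X}, X ∈ k → ‖D X‖ = ‖X‖

/-- an isometric automorphism of `k` -/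
structure Aut (k : Submodule ℝ A) (θ : A →ₗ[ℝ] A) : Prop extends Iso k θ where
  map_br : ∀ {X Y}, X ∈ k → Y ∈ k → θ (br X Y) = br (θ X) (θ Y)

/-- `P` intertwines `Ad a` and `Ad a'` on `k` -/
def Itw (k : Submodule ℝ A) (P : A →ₗ[ℝ] A) (a a' : A) : Prop :=
  ∀ Y ∈ k, P (Ad a Y) = Ad a' (P Y)

/-- the cubic term of `log (exp X * exp Y * exp X)` -/
def C3 (X Y : A) : A := (1 / 6 : ℝ) • (br Y (br Y X) - br X (br X Y))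

/-- a local isometry in exponential coordinates -/
structure PreD (k : Submodule ℝ A) (d : A → A) (ε : ℝ) : Prop where
  pos : 0 < ε
  mem : ∀ {ξ}, ξ ∈ k → ‖ξ‖ < ε → d ξ ∈ k ∧ ‖d ξ‖ = ‖ξ‖
  half : ∀ {ξ}, ξ ∈ k → ‖ξ‖ < ε → d ((1 / 2 : ℝ) • ξ) = (1 / 2 : ℝ) • d ξ
  lip : ∀ {ξ η}, ξ ∈ k → η ∈ k → ‖ξ‖ < ε → ‖η‖ < ε → ‖d ξ - d η‖ ≤ 4 * ‖ξ - η‖
  sym : ∀ {X Y Z}, X ∈ k → Y ∈ k → Z ∈ k → ‖X‖ < ε → ‖Y‖ < ε → ‖Z‖ < ε →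
    exp X * exp Y * exp X = exp Z → exp (d X) * exp (d Y) * exp (d X) = exp (d Z)

/-- an `su(2)` triple -/
structure Tr (k : Submodule ℝ A) (h E F : A) : Prop where
  hm : h ∈ k
  Em : E ∈ k
  Fm : F ∈ k
  wp : WP h E F 2
  EF : br E F = (2 : ℝ) • h
  ne : h ≠ 0

/-- two coroots that generate a rank two root system -/
structure RD (K : Set A) (k : Submodule ℝ A) (c : ℤ) (h₁ h₂ n₁ n₂ : A) : Prop where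
  hc : c = 1 ∨ c = 2 ∨ c = 3
  m1 : h₁ ∈ k
  m2 : h₂ ∈ k
  comm : br h₁ h₂ = 0
  e1 : exp ((2 * Real.pi) • h₁) = 1
  e2 : exp ((2 * Real.pi) • h₂) = 1
  n1 : n₁ ∈ K
  n2 : n₂ ∈ K
  r11 : Ad n₁ h₁ = -h₁
  r12 : Ad n₁ h₂ = h₁ + h₂
  r21 : Ad n₂ h₁ = h₁ + (c : ℝ) • h₂
  r22 : Ad n₂ h₂ = -h₂
  wa : ∃ E ∈ k, ∃ F ∈ k, E ≠ 0 ∧ WP h₁ E F 2 ∧ WP h₂ E F (-1)
  wb : ∃ E ∈ k, ∃ F ∈ k, E ≠ 0 ∧ WP h₁ E F (-c) ∧ WP h₂ E F 2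

/-- torsion points of the torus -/
def TE (N : ℤ) (h₁ h₂ : A) (u : ℤ × ℤ) : A :=
  exp ((2 * Real.pi / N) • ((u.1 : ℝ) • h₁ + (u.2 : ℝ) • h₂))

end Defs

/-! ### arithmetic -/

def dt (w u : ℤ × ℤ) : ℤ := w.1 * u.1 + w.2 * u.2
def s1 (u : ℤ × ℤ) : ℤ × ℤ := (-u.1 + u.2, u.2)
def s2 (c : ℤ) (u : ℤ × ℤ) : ℤ × ℤ := (u.1, c * u.1 - u.2)
def pp (c : ℤ) : ℤ := if c = 2 then 3 else 2
def qq (c x : ℤ) : ℤ := x ^ 2 - c * x + c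
def NN (c x z : ℤ) : ℤ := pp c ^ 2 * qq c x * qq c z

theorem qq_sub (c z : ℤ) : qq c (c - z) = qq c z := by unfold qq; ring
theorem NN_sub (c x z : ℤ) : NN c x (c - z) = NN c x z := by rw [NN, NN, qq_sub]

structure Good (c x z : ℤ) : Prop where
  hc : c = 1 ∨ c = 2 ∨ c = 3
  cx : IsCoprime (qq c x) 6
  cz : IsCoprime (qq c z) 6
  xz : IsCoprime (qq c x) (qq c z)

theorem Good.sub {c x z : ℤ} (h : Good c x z) : Good c x (c - z) :=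
  ⟨h.hc, h.cx, by rw [qq_sub]; exact h.cz, by rw [qq_sub]; exact h.xz⟩

theorem Good.qq_pos {c x z : ℤ} (h : Good c x z) (y : ℤ) : 0 < qq c y := by
  unfold qq
  rcases h.hc with rfl | rfl | rfl
  · nlinarith [sq_nonneg (2 * y - 1)]
  · nlinarith [sq_nonneg (y - 1)]
  · nlinarith [sq_nonneg (2 * y - 3)]

theorem Good.NN_pos {c x z : ℤ} (h : Good c x z) : 0 < NN c x z := by
  have h1 := h.qq_pos x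
  have h2 := h.qq_pos z
  have h3 : 0 < pp c := by unfold pp; split_ifs <;> norm_num
  unfold NN
  positivity

/-- the index group of the deck transformations -/
def Om (c x z : ℤ) : AddSubgroup ((ℤ × ℤ) × (ℤ × ℤ)) where
  carrier := {p | pp c ^ 2 ∣ p.2.1 - pp c * p.1.1 ∧ pp c ^ 2 ∣ p.2.2 - pp c * p.1.2 ∧
    qq c x ∣ p.1.2 - x * p.1.1 ∧ qq c x ∣ p.2.1 ∧ qq c x ∣ p.2.2 ∧
    qq c z ∣ p.1.1 ∧ qq c z ∣ p.1.2 ∧ qq c z ∣ p.2.2 - z * p.2.1}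
  zero_mem' := by simp
  add_mem' := by
    rintro p q ⟨a1, a2, a3, a4, a5, a6, a7, a8⟩ ⟨b1, b2, b3, b4, b5, b6, b7, b8⟩
    simp only [mem_ofPred_eq, Prod.fst_add, Prod.snd_add]
    refine ⟨?_, ?_, ?_, a4.add b4, a5.add b5, a6.add b6, a7.add b7, ?_⟩
    · exact (a1.add b1).trans (dvd_of_eq (by ring))
    · exact (a2.add b2).trans (dvd_of_eq (by ring))
    · exact (a3.add b3).trans (dvd_of_eq (by ring))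
    · exact (a8.add b8).trans (dvd_of_eq (by ring))
  neg_mem' := by
    rintro p ⟨a1, a2, a3, a4, a5, a6, a7, a8⟩
    simp only [mem_ofPred_eq, Prod.fst_neg, Prod.snd_neg]
    refine ⟨?_, ?_, ?_, a4.neg_right, a5.neg_right, a6.neg_right, a7.neg_right, ?_⟩
    · exact a1.neg_right.trans (dvd_of_eq (by ring))
    · exact a2.neg_right.trans (dvd_of_eq (by ring))
    · exact a3.neg_right.trans (dvd_of_eq (by ring))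
    · exact a8.neg_right.trans (dvd_of_eq (by ring))

theorem mem_Om {c x z : ℤ} {p : (ℤ × ℤ) × (ℤ × ℤ)} : p ∈ Om c x z ↔
    pp c ^ 2 ∣ p.2.1 - pp c * p.1.1 ∧ pp c ^ 2 ∣ p.2.2 - pp c * p.1.2 ∧
    qq c x ∣ p.1.2 - x * p.1.1 ∧ qq c x ∣ p.2.1 ∧ qq c x ∣ p.2.2 ∧
    qq c z ∣ p.1.1 ∧ qq c z ∣ p.1.2 ∧ qq c z ∣ p.2.2 - z * p.2.1 := Iff.rfl

section Grp

variable {G : Type} [Group G]

/-- a copy of `(ℤ/N)²` normalised by two reflections -/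
structure TD (c N : ℤ) (E : ℤ × ℤ → G) (n₁ n₂ : G) : Prop where
  add : ∀ u v, E (u + v) = E u * E v
  ker : ∀ u, E u = 1 ↔ N ∣ u.1 ∧ N ∣ u.2
  r1 : ∀ u, n₁ * E u = E (s1 u) * n₁
  r2 : ∀ u, n₂ * E u = E (s2 c u) * n₂

theorem add_zero' {E : ℤ × ℤ → G} (hE : ∀ u v, E (u + v) = E u * E v) : E 0 = 1 := by
  have := hE 0 0
  rw [add_zero] at this
  exact left_eq_mul.mp this

theorem add_neg' {E : ℤ × ℤ → G} (hE : ∀ u v, E (u + v) = E u * E v) (u : ℤ × ℤ) :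
    E (-u) = (E u)⁻¹ :=
  eq_inv_of_mul_eq_one_left (by rw [← hE, neg_add_cancel, add_zero' hE])

/-- the group of the maps `x ↦ E u * x * (E u')⁻¹` -/
def Gam {E : ℤ × ℤ → G} (hE : ∀ u v, E (u + v) = E u * E v)
    (Ω : AddSubgroup ((ℤ × ℤ) × (ℤ × ℤ))) : Subgroup (Equiv.Perm G) where
  carrier := {g | ∃ p ∈ Ω, ∀ x, g x = E p.1 * x * (E p.2)⁻¹}
  one_mem' := ⟨0, Ω.zero_mem, fun x => by simp [add_zero' hE]⟩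
  mul_mem' := by
    rintro g g' ⟨p, hp, h⟩ ⟨q, hq, h'⟩
    refine ⟨p + q, Ω.add_mem hp hq, fun x => ?_⟩
    simp [h, h', hE, mul_assoc]
  inv_mem' := by
    rintro g ⟨p, hp, h⟩
    refine ⟨-p, Ω.neg_mem hp, fun x => ?_⟩
    rw [Equiv.Perm.inv_eq_iff_eq, h]
    simp [add_neg' hE, mul_assoc]

theorem mem_Gam {E : ℤ × ℤ → G} {hE : ∀ u v, E (u + v) = E u * E v}
    {Ω : AddSubgroup ((ℤ × ℤ) × (ℤ × ℤ))} {g : Equiv.Perm G} :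
    g ∈ Gam hE Ω ↔ ∃ p ∈ Ω, ∀ x, g x = E p.1 * x * (E p.2)⁻¹ := Iff.rfl

theorem exists_Gam {E : ℤ × ℤ → G} (hE : ∀ u v, E (u + v) = E u * E v)
    {Ω : AddSubgroup ((ℤ × ℤ) × (ℤ × ℤ))} {p : (ℤ × ℤ) × (ℤ × ℤ)} (hp : p ∈ Ω) :
    ∃ g ∈ Gam hE Ω, ∀ x, g x = E p.1 * x * (E p.2)⁻¹ :=
  ⟨(Equiv.mulLeft (E p.1)).trans (Equiv.mulRight (E p.2)⁻¹), ⟨p, hp, fun _ => rfl⟩, fun _ => rfl⟩

/-- invariant functions -/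
def Inv (Γ : Subgroup (Equiv.Perm G)) : Submodule ℂ (G → ℂ) where
  carrier := {f | ∀ g ∈ Γ, ∀ x, f (g x) = f x}
  zero_mem' _ _ _ := rfl
  add_mem' hf hf' g hg x := by simp [hf g hg x, hf' g hg x]
  smul_mem' r f hf g hg x := by simp [hf g hg x]

omit [Group G] in
theorem mem_Inv {Γ : Subgroup (Equiv.Perm G)} {f : G → ℂ} :
    f ∈ Inv Γ ↔ ∀ g ∈ Γ, ∀ x, f (g x) = f x := Iff.rfl

end Grp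

/-! ### Riemannian geometry of `K` -/

/-- closed subgroup theorem -/
def S_Chart : Prop := ∀ (A : Type) [HS A] (K : Set A) (k : Submodule ℝ A), CG K k →
  ∀ ε > 0, ∃ δ > 0, ∀ x ∈ K, ‖x - 1‖ < δ → ∃ ξ ∈ k, ‖ξ‖ < ε ∧ exp ξ = x

/-- Gauss lemma -/
def S_Gauss : Prop := ∀ (A : Type) [HS A] (K : Set A) (k : Submodule ℝ A), CG K k →
  ∃ ε > 0, ∀ ξ ∈ k, ∀ η ∈ k, ‖ξ‖ < ε → ‖η‖ < ε → ∀ γ : ℝ → A, ContDiff ℝ 1 γ → γ 0 = exp ξ →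
    γ 1 = exp η → (∀ t ∈ Icc (0 : ℝ) 1, γ t ∈ K) → ‖η‖ ≤ ‖ξ‖ + ∫ t in (0 : ℝ)..1, ‖deriv γ t‖

/-- uniqueness of midpoints -/
def S_Mid : Prop := ∀ (A : Type) [HS A] (K : Set A) (k : Submodule ℝ A), CG K k →
  ∃ ε > 0, ∀ M ∈ k, ∀ M' ∈ k, ∀ Y ∈ k, ‖Y‖ < ε → 2 * ‖M‖ = ‖Y‖ → 2 * ‖M'‖ = ‖Y‖ →
    exp M * exp M' = exp Y → M = (1 / 2 : ℝ) • Y ∧ M' = (1 / 2 : ℝ) • Y

def S_Dist : Prop := ∀ (A : Type) [HS A] (K : Set A) (k : Submodule ℝ A), CG K k →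
  (∀ a ∈ K, ∀ b ∈ K, ∀ x y, cd K (a * x * b) (a * y * b) = cd K x y) ∧
  (∀ x y, ENNReal.ofReal ‖x - y‖ ≤ cd K x y) ∧
  ∃ ε > 0, ∀ x ∈ K, ∀ ξ ∈ k, ‖ξ‖ < ε → cd K x (x * exp ξ) = ENNReal.ofReal ‖ξ‖

def S_LR : Prop := ∀ (A : Type) [HS A] (K : Set A) (k : Submodule ℝ A), CG K k →
  ∀ (R : A → A → Prop) (ε : ℝ), 0 < ε → (∀ x z, R x z → x ∈ K ∧ z ∈ K) →
    (∀ x z, ∀ y ∈ K, R x z → cd K x y < ENNReal.ofReal ε → ∃ w, R y w ∧ cd K z w = cd K x y) →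
    (∀ x z z', R x z → R x z' → ‖z - z'‖ < ε → z = z') → ∃ ε', LR K k R ε'

/-- an isometry of the quotients gives a correspondence -/
def S_Quo : Prop := ∀ (n : ℕ) (K : Subgroup (Matrix.unitaryGroup (Fin n) ℂ))
  (k : Submodule ℝ (Mat n)), IsSimpleGroup K k → ∀ Γ₁ Γ₂ : Subgroup (Equiv.Perm K), IsDeck Γ₁ →
    IsDeck Γ₂ → (∀ g ∈ Γ₁, ∃ a b : K, ∀ x, g x = a * x * b) →
    (∀ g ∈ Γ₂, ∃ a b : K, ∀ x, g x = a * x * b) → Isometric Γ₁ Γ₂ →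
    ∃ (R : K → K → Prop) (ε : ℝ), 0 < ε ∧ (∀ x, ∃ z, R x z) ∧
      (∀ x z y, R x z → gdist x y < ENNReal.ofReal ε → ∃ w, R y w ∧ gdist z w = gdist x y) ∧
      (∀ x z z', R x z → R x z' → ‖mat z - mat z'‖ < ε → z = z') ∧
      (∀ x z z', R x z → (R x z' ↔ ∃ g ∈ Γ₂, z' = g z)) ∧
      ∀ x z, ∀ g ∈ Γ₁, R x z → R (g x) z

/-! ### rigidity of local isometries -/

def S_Half : Prop := ∀ (A : Type) [HS A] (K : Set A) (k : Submodule ℝ A), CG K k →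
  ∀ R ε, LR K k R ε → ∃ ε₁ > 0, ∀ x z, ∀ ξ ∈ k, ∀ η ∈ k, R x z → ‖ξ‖ < ε₁ → ‖η‖ = ‖ξ‖ →
    R (x * exp ξ) (z * exp η) → R (x * exp (-ξ)) (z * exp (-η)) ∧
      R (x * exp ((1 / 2 : ℝ) • ξ)) (z * exp ((1 / 2 : ℝ) • η))

def S_Lin1 : Prop := ∀ (A : Type) [HS A] (K : Set A) (k : Submodule ℝ A), CG K k →
  ∀ R ε, LR K k R ε → R 1 1 → ∃ d ε', PreD k d ε' ∧ ∀ ξ ∈ k, ‖ξ‖ < ε' → R (exp ξ) (exp (d ξ))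

def S_Jet : Prop := ∀ (A : Type) [HS A] (X Y : A),
  (fun t : ℝ => exp (t • X) * exp (t • Y) * exp (t • X) -
    exp (t • ((2 : ℝ) • X + Y) + t ^ 3 • C3 X Y)) =O[𝓝 0] fun t : ℝ => t ^ 4

def S_Lin2 : Prop := ∀ (A : Type) [HS A] (K : Set A) (k : Submodule ℝ A), CG K k →
  ∀ d ε, PreD k d ε → ∃ D : A →ₗ[ℝ] A, Iso k D ∧
    (∀ X ∈ k, ∀ Y ∈ k, D (br X (br X Y)) = br (D X) (br (D X) (D Y))) ∧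
    ∃ ε' > 0, ∀ ξ ∈ k, ‖ξ‖ < ε' → d ξ = D ξ

def S_Aut : Prop := ∀ (A : Type) [HS A] (k : Submodule ℝ A), SA k → ∀ D : A →ₗ[ℝ] A, Iso k D →
  (∀ X ∈ k, ∀ Y ∈ k, D (br X (br X Y)) = br (D X) (br (D X) (D Y))) → Aut k D ∨ Aut k (-D)

def S_Hom : Prop := ∀ (A : Type) [HS A] (K : Set A) (k : Submodule ℝ A), CG K k → SA k →
  ∀ θ : A →ₗ[ℝ] A, Aut k θ → (∀ ξ ∈ k, Itw k θ (exp ξ) (exp (θ ξ))) ∧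
    ∃ ε > 0, ∀ η ∈ k, ∀ ξ ∈ k, ∀ ζ ∈ k, ‖η‖ < ε → ‖ξ‖ < ε → ‖ζ‖ < ε →
      exp η * exp ξ = exp ζ → exp (θ η) * exp (θ ξ) = exp (θ ζ)

def S_Glob : Prop := ∀ (A : Type) [HS A] (K : Set A) (k : Submodule ℝ A), CG K k → SA k →
  ∀ R ε, LR K k R ε → ∀ (z₀ : A) (θ : A →ₗ[ℝ] A), Aut k θ →
    (∃ ε' > 0, ∀ ξ ∈ k, ‖ξ‖ < ε' → R (exp ξ) (z₀ * exp (θ ξ))) →
    ∀ x ∈ K, ∃ z, (∀ Y ∈ k, Ad z (θ Y) = Ad z₀ (θ (Ad x Y))) ∧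
      ∃ ε' > 0, ∀ ξ ∈ k, ‖ξ‖ < ε' → R (x * exp ξ) (z * exp (θ ξ))

def S_Rig : Prop := ∀ (A : Type) [HS A] (K : Set A) (k : Submodule ℝ A), CG K k → SA k →
  ∀ R ε, LR K k R ε → (∀ x ∈ K, ∃ z, R x z) → ∀ G₁ G₂ : Set (A × A),
    (∀ g ∈ G₁, g.1 ∈ K ∧ g.2 ∈ K) → (∀ g ∈ G₂, g.1 ∈ K ∧ g.2 ∈ K) →
    (∀ x z, ∀ g ∈ G₁, R x z → R (g.1 * x * star g.2) z) →
    (∀ x z z', R x z → (R x z' ↔ ∃ g ∈ G₂, z' = g.1 * z * star g.2)) →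
    ∃ P Q : A →ₗ[ℝ] A, Iso k P ∧ Iso k Q ∧
      ((∀ g ∈ G₁, ∃ g' ∈ G₂, Itw k P g.1 g'.1 ∧ Itw k Q g.2 g'.2) ∨
        ∀ g ∈ G₁, ∃ g' ∈ G₂, Itw k Q g.1 g'.2)

/-! ### roots -/

/-- joint eigenvectors -/
def S_JE : Prop := ∀ (A : Type) [HS A] (t : Set A) (V : Submodule ℝ A), (∀ H ∈ t, Skew H) →
  (∀ H ∈ t, ∀ H' ∈ t, br H H' = 0) → (∀ H ∈ t, ∀ X ∈ V, br H X ∈ V) →
  ∀ X ∈ V, ∀ Y ∈ V, X ≠ 0 ∨ Y ≠ 0 → ∃ E ∈ V, ∃ F ∈ V, ∃ a : A → ℝ,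
    (∀ H ∈ t, WP H E F (a H)) ∧ ⟪E, X⟫ + ⟪F, Y⟫ ≠ 0

def S_Su2 : Prop := ∀ (A : Type) [HS A] (h E F : A), Skew h → Skew E → WP h E F 2 →
  br E F = (2 : ℝ) • h → exp ((2 * Real.pi) • h) = 1 ∧
    ∀ (H : A) (a : ℝ), WP H E F a → Ad (exp ((Real.pi / 2) • E)) H = H - a • h

def S_NN : Prop := ∀ (A : Type) [HS A] (k : Submodule ℝ A), SA k → ∀ X ∈ k, ∀ Y ∈ k,
  (∀ Z ∈ k, br X (br Y Z) = 0) → X = 0 ∨ Y = 0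

/-- rank one -/
def S_Rk1 : Prop := ∀ (A : Type) [HS A] (k : Submodule ℝ A), SA k → ∀ h E F, Tr k h E F →
  (∀ X ∈ k, br h X = 0 → ∃ r : ℝ, X = r • h) → Module.finrank ℝ k ≤ 3

def S_Pair : Prop := ∀ (A : Type) [HS A] (k : Submodule ℝ A), SA k → 3 < Module.finrank ℝ k →
  ∃ (h₁ E₁ F₁ h₂ E₂ F₂ : A) (a b : ℝ), Tr k h₁ E₁ F₁ ∧ Tr k h₂ E₂ F₂ ∧ br h₁ h₂ = 0 ∧
    WP h₂ E₁ F₁ a ∧ WP h₁ E₂ F₂ b ∧ 0 < a * b ∧ a * b < 4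

def S_RD : Prop := ∀ (A : Type) [HS A] (K : Set A) (k : Submodule ℝ A), CG K k → SA k →
  3 < Module.finrank ℝ k → ∃ c h₁ h₂ n₁ n₂, RD K k c h₁ h₂ n₁ n₂

/-- an intertwining map matches weights -/
def S_Wt : Prop := ∀ (A : Type) [HS A] (h₁ h₂ : A), Skew h₁ → Skew h₂ → br h₁ h₂ = 0 →
  exp ((2 * Real.pi) • h₁) = 1 → exp ((2 * Real.pi) • h₂) = 1 →
  ∃ B : ℤ, 0 ≤ B ∧ ∀ (P : A →ₗ[ℝ] A) (E F : A) (a : ℤ × ℤ), WP h₁ E F a.1 → WP h₂ E F a.2 →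
    P E ≠ 0 → ∃ w : ℤ × ℤ, |w.1| ≤ B ∧ |w.2| ≤ B ∧ ∀ (N : ℤ) (u v : ℤ × ℤ), N ≠ 0 →
      P (Ad (TE N h₁ h₂ u) E) = Ad (TE N h₁ h₂ v) (P E) →
      P (Ad (TE N h₁ h₂ u) F) = Ad (TE N h₁ h₂ v) (P F) → dt a u ≡ dt w v [ZMOD N]

def S_Tor : Prop := ∀ (A : Type) [HS A] (K : Set A) (k : Submodule ℝ A), CG K k →
  ∀ c h₁ h₂ n₁ n₂, RD K k c h₁ h₂ n₁ n₂ → ∀ N : ℤ, N ≠ 0 → IsCoprime N (4 - c) →
    (∀ u, TE N h₁ h₂ u ∈ K) ∧ (∀ u v, TE N h₁ h₂ (u + v) = TE N h₁ h₂ u * TE N h₁ h₂ v) ∧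
    (∀ u, TE N h₁ h₂ u = 1 ↔ N ∣ u.1 ∧ N ∣ u.2) ∧
    (∀ u, n₁ * TE N h₁ h₂ u = TE N h₁ h₂ (s1 u) * n₁) ∧
    ∀ u, n₂ * TE N h₁ h₂ u = TE N h₁ h₂ (s2 c u) * n₂

/-! ### the construction -/

def S_Ar0 : Prop := ∀ c B : ℤ, c = 1 ∨ c = 2 ∨ c = 3 →
  ∃ x z, Good c x z ∧ B ≤ x ∧ B ≤ z ∧ IsCoprime (NN c x z) (4 - c)

def S_Free : Prop := ∀ (G : Type) [Group G] (c x z : ℤ) (E : ℤ × ℤ → G) (n₁ n₂ : G)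
  (h : TD c (NN c x z) E n₁ n₂), Good c x z →
    Finite (Gam h.add (Om c x z)) ∧ ∀ g ∈ Gam h.add (Om c x z), ∀ y, g y = y → g = 1

def S_ArC : Prop := ∀ B : ℤ, 0 ≤ B → ∃ B' : ℤ, ∀ c x z, Good c x z → B' ≤ x → B' ≤ z →
  (∀ a b a' b' : ℤ × ℤ, |a.1| ≤ B → |a.2| ≤ B → |b.1| ≤ B → |b.2| ≤ B → |a'.1| ≤ B →
    |a'.2| ≤ B → |b'.1| ≤ B → |b'.2| ≤ B → ¬ ∀ p ∈ Om c x z, ∃ p' ∈ Om c x (c - z),
      dt (2, -1) p.1 ≡ dt a p'.1 [ZMOD NN c x z] ∧ dt (-c, 2) p.1 ≡ dt b p'.1 [ZMOD NN c x z] ∧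
      dt (2, -1) p.2 ≡ dt a' p'.2 [ZMOD NN c x z] ∧ dt (-c, 2) p.2 ≡ dt b' p'.2 [ZMOD NN c x z]) ∧
  ∀ a' : ℤ × ℤ, ¬ ∀ p ∈ Om c x z, ∃ p' ∈ Om c x (c - z),
    dt (2, -1) p.1 ≡ dt a' p'.2 [ZMOD NN c x z]

/-- transplantation -/
def S_Sun0 : Prop := ∀ (G T : Type) [Group G] [AddCommGroup T] [Finite T] (e : T → G)
  (Γ₁ Γ₂ : Subgroup (Equiv.Perm G)) (V : Submodule ℂ (G → ℂ)) (n : AddChar T ℂ → G),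
  (∀ u v, e (u + v) = e u * e v) → (∀ f ∈ V, ∀ a, (fun y => f (y * a)) ∈ V) →
  (∀ g ∈ Γ₁, ∀ y v, g (y * e v) = g y * e v) →
  (∀ g ∈ Γ₂, ∀ χ, ∃ g₁ ∈ Γ₁, ∃ v, χ v = 1 ∧ ∀ y, g y * n χ = g₁ (y * n χ) * e v) →
  (∀ v, ∃ a : G, ∃ g₁ ∈ Γ₁, ∀ y, a * y = g₁ y * e v) →
  Module.rank ℂ ↥(V ⊓ Inv Γ₁) ≤ Module.rank ℂ ↥(V ⊓ Inv Γ₂)

def S_Sun : Prop := ∀ (G : Type) [Group G] (c x z : ℤ) (E : ℤ × ℤ → G) (n₁ n₂ : G)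
  (h : TD c (NN c x z) E n₁ n₂), Good c x z → ∀ V : Submodule ℂ (G → ℂ),
    (∀ f ∈ V, ∀ a, (fun y => f (y * a)) ∈ V) →
    Module.rank ℂ ↥(V ⊓ Inv (Gam h.add (Om c x z))) ≤
      Module.rank ℂ ↥(V ⊓ Inv (Gam h.add (Om c x (c - z))))

/-- eigenfunctions form a space that is invariant under right translations -/
def S_Eig : Prop := ∀ (n : ℕ) (K : Subgroup (Matrix.unitaryGroup (Fin n) ℂ))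
  (k : Submodule ℝ (Mat n)), IsSimpleGroup K k → ∀ μ : ℝ, ∃ V : Submodule ℂ (K → ℂ),
    (∀ f ∈ V, ∀ a, (fun y => f (y * a)) ∈ V) ∧ ∀ Γ, Eig k Γ μ = V ⊓ Inv Γ

end

end Pool.Agent.P.MP_e311cd_gt
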